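import Pool.Agent.Work.MP_820bad_co.Bjy3

set_option autoImplicit false

namespace Pool.Agent.Work.MP_820bad_co.BJY

open Finset

variable {V : Type} [DecidableEq V]

/-- indicator that `W` misses `A` -/
def miss (A W : Finset V) : ℤ := if Disjoint W A then 1 else 0

lemma miss_pos {A W : Finset V} (h : Disjoint W A) : miss A W = 1 := by simp [miss, h]
lemma miss_neg {A W : Finset V} (h : ¬ Disjoint W A) : miss A W = 0 := by simp [miss, h]

lemma miss_cases (A W : Finset V) : miss A W = 0 ∨ miss A W = 1 := by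
  unfold miss; split_ifs <;> simp

lemma miss_mul (A B W : Finset V) : miss A W * miss B W = miss (A ∪ B) W := by
  unfold miss
  by_cases h1 : Disjoint W A <;> by_cases h2 : Disjoint W B <;>
    simp [h1, h2, disjoint_union_right]

lemma miss_mono (A : Finset V) {W W' : Finset V} (h : W ⊆ W') : miss A W' ≤ miss A W := by
  unfold miss
  by_cases h1 : Disjoint W' A
  · simp [h1, h1.mono_left h]
  · simp only [h1, if_false]; split_ifs <;> omega

lemma miss_sup (A W W' : Finset V) :
    miss A W + miss A W' ≤ miss A (W ∩ W') + miss A (W ∪ W') := by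
  have a1 := miss_mono A (inter_subset_left : W ∩ W' ⊆ W)
  have a2 := miss_mono A (inter_subset_right : W ∩ W' ⊆ W')
  by_cases h1 : Disjoint W A
  · by_cases h2 : Disjoint W' A
    · rw [miss_pos (disjoint_union_left.2 ⟨h1, h2⟩)]
      rw [miss_pos h2] at *
      omega
    · rw [miss_neg h2]
      rcases miss_cases A (W ∪ W') with h | h <;> omega
  · rw [miss_neg h1]
    rcases miss_cases A (W ∪ W') with h | h <;> omega

/-- number of the two sets missed by `W` -/
def mm (X : Bool → Finset V) (W : Finset V) : ℤ := miss (X true) W + miss (X false) W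

lemma mm_eq (X : Bool → Finset V) (j : Bool) (W : Finset V) :
    mm X W = miss (X j) W + miss (X (!j)) W := by
  cases j <;> simp [mm, add_comm]

/-- the requirement function -/
def gg (X Y : Bool → Finset V) (W : Finset V) : ℤ := mm X W * (3 + mm Y W) - 1

lemma gg_lin (X Y : Bool → Finset V) (W : Finset V) :
    gg X Y W = 3 * miss (X true) W + 3 * miss (X false) W + miss (X true ∪ Y true) W +
      miss (X true ∪ Y false) W + miss (X false ∪ Y true) W + miss (X false ∪ Y false) W - 1 := by
  simp only [← miss_mul, gg, mm]; ring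

lemma gg_mono (X Y : Bool → Finset V) {W W' : Finset V} (h : W ⊆ W') :
    gg X Y W' ≤ gg X Y W := by
  rw [gg_lin, gg_lin]
  have := miss_mono (X true) h
  have := miss_mono (X false) h
  have := miss_mono (X true ∪ Y true) h
  have := miss_mono (X true ∪ Y false) h
  have := miss_mono (X false ∪ Y true) h
  have := miss_mono (X false ∪ Y false) h
  omega

lemma gg_sup (X Y : Bool → Finset V) (W W' : Finset V) :
    gg X Y W + gg X Y W' ≤ gg X Y (W ∩ W') + gg X Y (W ∪ W') := by
  simp only [gg_lin]
  have := miss_sup (X true) W W'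
  have := miss_sup (X false) W W'
  have := miss_sup (X true ∪ Y true) W W'
  have := miss_sup (X true ∪ Y false) W W'
  have := miss_sup (X false ∪ Y true) W W'
  have := miss_sup (X false ∪ Y false) W W'
  omega

/-- reversal of all arcs -/
def rev (M : Multiset (V × V)) : Multiset (V × V) := M.map Prod.swap

omit [DecidableEq V] in
lemma rev_rev (M : Multiset (V × V)) : rev (rev M) = M := by simp [rev]

omit [DecidableEq V] in
lemma rev_add (M N : Multiset (V × V)) : rev (M + N) = rev M + rev N := by simp [rev]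

omit [DecidableEq V] in
lemma rev_le {M N : Multiset (V × V)} (h : M ≤ N) : rev M ≤ rev N := Multiset.map_le_map h

omit [DecidableEq V] in
lemma mem_rev {M : Multiset (V × V)} {x y : V} (h : (x, y) ∈ M) : (y, x) ∈ rev M :=
  Multiset.mem_map.2 ⟨(x, y), h, rfl⟩

lemma ent_rev (M : Multiset (V × V)) (W : Finset V) : ent (rev M) W = lv M W := by
  simp only [ent, lv, rev, Multiset.map_map]
  congr 1
  apply Multiset.map_congr rfl
  intro e _
  simp [and_comm]

lemma lv_rev (M : Multiset (V × V)) (W : Finset V) : lv (rev M) W = ent M W := by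
  rw [← ent_rev, rev_rev]

/-- reachability along the arcs of a multiset -/
def Rc (M : Multiset (V × V)) (x y : V) : Prop := Relation.ReflTransGen (fun a b => (a, b) ∈ M) x y

omit [DecidableEq V] in
lemma Rc.mono {M N : Multiset (V × V)} (h : ∀ e ∈ M, e ∈ N) {x y : V} (hxy : Rc M x y) :
    Rc N x y := rtg_mono (fun _ _ h' => h _ h') hxy

omit [DecidableEq V] in
lemma Rc.rev {M : Multiset (V × V)} {x y : V} (hxy : Rc M x y) : Rc (rev M) y x := by
  unfold Rc at *
  induction hxy with
  | refl => exact Relation.ReflTransGen.refl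
  | tail _ h2 ih => exact Relation.ReflTransGen.head (mem_rev h2) ih

/-- the state of the construction -/
def St (D : Multiset (V × V)) (X Y : Bool → Finset V) (a : V) : Prop :=
  (∀ W : Finset V, W.Nonempty → gg X Y W ≤ ent D W) ∧
    ∀ U : Finset V, U.Nonempty → gg Y X U ≤ lv D U + ind a U

/-- the goal of the construction -/
def Goal (D : Multiset (V × V)) (X Y : Bool → Finset V) : Prop :=
  ∃ OX OY : Bool → Multiset (V × V), OX true + OX false + (OY true + OY false) ≤ D ∧
    (∀ i v, ∃ x ∈ X i, Rc (OX i) x v) ∧ ∀ j v, ∃ y ∈ Y j, Rc (OY j) v y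

omit [DecidableEq V] in
lemma Goal.rev {D : Multiset (V × V)} {X Y : Bool → Finset V} (h : Goal (rev D) Y X) :
    Goal D X Y := by
  obtain ⟨OY, OX, h1, h2, h3⟩ := h
  refine ⟨fun i => BJY.rev (OX i), fun j => BJY.rev (OY j), ?_, ?_, ?_⟩
  · have := rev_le h1
    rw [rev_rev] at this
    simp only [rev_add] at this
    rw [add_comm]; exact this
  · intro i v
    obtain ⟨x, hx, h⟩ := h3 i v
    exact ⟨x, hx, h.rev⟩
  · intro j v
    obtain ⟨y, hy, h⟩ := h2 j v
    exact ⟨y, hy, h.rev⟩

/-- replace the `j`-th set -/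
def upd (Y : Bool → Finset V) (j : Bool) (A : Finset V) : Bool → Finset V :=
  fun i => if i = j then A else Y i

omit [DecidableEq V] in
lemma upd_same (Y : Bool → Finset V) (j : Bool) (A : Finset V) : upd Y j A j = A := by
  simp [upd]

omit [DecidableEq V] in
lemma upd_not (Y : Bool → Finset V) (j : Bool) (A : Finset V) : upd Y j A (!j) = Y (!j) := by
  simp [upd]

lemma mm_upd (Y : Bool → Finset V) (j : Bool) (A W : Finset V) :
    mm (upd Y j A) W = miss A W + miss (Y (!j)) W := by
  rw [mm_eq _ j, upd_same, upd_not]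

lemma mm_cases (X : Bool → Finset V) (W : Finset V) : mm X W = 0 ∨ mm X W = 1 ∨ mm X W = 2 := by
  unfold mm
  rcases miss_cases (X true) W with h | h <;> rcases miss_cases (X false) W with h' | h' <;> omega

variable [Fintype V]

lemma step {D : Multiset (V × V)} {X Y : Bool → Finset V} {a : V} {j : Bool}
    (hst : St D X Y a) (ha : a ∉ Y j)
    (hch : ∀ U : Finset V, ¬ Disjoint U (Y j) → gg Y X U ≤ lv D U) :
    ∃ (D0 : Multiset (V × V)) (t : V) (A : Finset V), Y j ⊂ A ∧ St (rev D0) (upd Y j A) X t ∧
      (Goal D0 X (upd Y j A) → Goal D X Y) := by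
  obtain ⟨hin, hout⟩ := hst
  set p : Bool → Finset V → ℤ := fun θ W =>
    if θ = true then gg X (upd Y j univ) W else gg (upd Y j univ) X W with hp
  have hpt : ∀ W, p true W = gg X (upd Y j univ) W := fun W => by simp [hp]
  have hpf : ∀ W, p false W = gg (upd Y j univ) X W := fun W => by simp [hp]
  have hmu : ∀ W : Finset V, W.Nonempty → miss univ W = 0 := by
    intro W hW
    apply miss_neg
    obtain ⟨v, hv⟩ := hW
    exact not_disjoint_iff.2 ⟨v, hv, mem_univ v⟩
  have hG : Good univ p := by
    constructor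
    · intro θ W W' _ h _
      cases θ
      · rw [hpf, hpf]; exact gg_mono _ _ h
      · rw [hpt, hpt]; exact gg_mono _ _ h
    · intro θ W W' _ _ _
      cases θ
      · simp only [hpf]; exact gg_sup _ _ _ _
      · simp only [hpt]; exact gg_sup _ _ _ _
  have hsl : Slack univ p D a (Y j) := by
    intro θ W hW _
    have i0 := ind_nonneg a W
    have i1 := ind_le_one a W
    have m1 := mm_eq Y j W
    have m2 := mm_upd Y j univ W
    rw [hmu W hW] at m2
    cases θ
    · have h1 := hout W hW
      have h2 := hch W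
      simp only [F, hpf, gg] at h1 h2 ⊢
      by_cases hd : Disjoint W (Y j)
      · rw [miss_pos hd] at m1
        rw [m1] at h1
        rw [m2]
        rcases mm_cases X W with h | h | h <;> rw [h] at h1 ⊢ <;> omega
      · have h3 := h2 hd
        rw [miss_neg hd] at m1
        rw [m1] at h3
        rw [m2]
        exact ⟨by omega, fun h => absurd h hd⟩
    · have h1 := hin W hW
      have e0 := ent_nonneg D W
      simp only [F, hpt, gg] at h1 ⊢
      by_cases hd : Disjoint W (Y j)
      · rw [miss_pos hd] at m1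
        rw [m1] at h1
        rw [m2]
        rcases mm_cases X W with h | h | h <;> rw [h] at h1 ⊢ <;> omega
      · rw [miss_neg hd] at m1
        rw [m1] at h1
        rw [m2]
        exact ⟨by omega, fun h => absurd h hd⟩
  have hreach : ∃ (G : Multiset (V × V)) (t : V), G ≤ D ∧ t ∈ Y j ∧ Walk G a t ∧
      ∀ e ∈ G, e.1 ∈ (univ : Finset V) := by
    obtain ⟨Rch, -, hR2, hR3⟩ := reach_set D univ a
    have haR : a ∈ Rch := (hR2 a).2 ⟨mem_univ _, 0, Multiset.zero_le _, Walk.nil _, by simp⟩
    have hnd : ¬ Disjoint Rch (Y j) := by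
      intro hd
      have h1 := hout Rch ⟨a, haR⟩
      have h2 : lv D Rch = 0 := lv_eq_zero (fun e he h => hR3 e he h (mem_univ _))
      have m1 := mm_eq Y j Rch
      rw [miss_pos hd] at m1
      have i1 := ind_le_one a Rch
      simp only [gg] at h1
      rw [m1] at h1
      rcases miss_cases (Y (!j)) Rch with h' | h' <;>
        rcases mm_cases X Rch with h | h | h <;> rw [h, h'] at h1 <;> omega
    obtain ⟨t, ht1, ht2⟩ := not_disjoint_iff.1 hnd
    obtain ⟨-, W, g1, g2, -⟩ := (hR2 t).1 ht1
    exact ⟨W, t, g1, ht2, g2, fun _ _ => mem_univ _⟩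
  obtain ⟨Q, D0, t, hD, ht, hQ, -, hcon⟩ := path_lemma univ p D a (Y j)
    ⟨hG, mem_univ _, Or.inl (subset_univ _), hsl, hreach⟩
  set A : Finset V := Y j ∪ (Q.map Prod.fst).toFinset with hA
  have htail : ∀ e ∈ Q, e.1 ∈ A := fun e he =>
    mem_union_right _ (Multiset.mem_toFinset.2 (Multiset.mem_map.2 ⟨e, he, rfl⟩))
  have hYA : Y j ⊆ A := subset_union_left
  have haA : a ∈ A := by
    rcases hQ.start_tail with h | ⟨e, he, h⟩
    · exact absurd (h ▸ ht) ha
    · exact h ▸ htail e he
  have hQin := inside_of_walk hQ (hYA ht) htail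
  refine ⟨D0, t, A, ⟨hYA, fun h => ha (h haA)⟩, ⟨?_, ?_⟩, ?_⟩
  · intro W hW
    rw [ent_rev]
    have m1 := mm_eq Y j W
    have m2 := mm_upd Y j univ W
    have m3 := mm_upd Y j A W
    rw [hmu W hW] at m2
    by_cases hd : Disjoint W A
    · have h1 := hout W hW
      rw [miss_pos hd] at m3
      rw [miss_pos (hd.mono_right hYA)] at m1
      rw [ind_not (fun h => disjoint_left.1 hd h haA), hD, lv_add,
        lv_eq_zero (M := Q) (fun e he h => absurd (hQin e he).1 (disjoint_left.1 hd h))] at h1
      simp only [gg] at h1 ⊢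
      rw [m3]; rw [m1] at h1; omega
    · have h1 := hcon false W hW (subset_univ _)
      rw [miss_neg hd] at m3
      simp only [F, hpf, gg] at h1 ⊢
      rw [m3]; rw [m2] at h1; omega
  · intro W hW
    rw [lv_rev]
    have m1 := mm_eq Y j W
    have m2 := mm_upd Y j univ W
    have m3 := mm_upd Y j A W
    rw [hmu W hW] at m2
    by_cases hd : Disjoint W A
    · have h1 := hin W hW
      have i0 := ind_nonneg t W
      rw [miss_pos hd] at m3
      rw [miss_pos (hd.mono_right hYA)] at m1
      rw [hD, ent_add, ent_eq_zero (M := Q)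
        (fun e he _ h => absurd (hQin e he).2 (disjoint_left.1 hd h))] at h1
      simp only [gg] at h1 ⊢
      rw [m3]; rw [m1] at h1; omega
    · have h1 := hcon true W hW (subset_univ _)
      rw [miss_neg hd] at m3
      simp only [F, hpt, gg] at h1 ⊢
      rw [m3]; rw [m2] at h1; omega
  · rintro ⟨OX, OY, h1, h2, h3⟩
    refine ⟨OX, fun i => if i = j then OY i + Q else OY i, ?_, h2, ?_⟩
    · rw [hD]
      have := add_le_add_left h1 Q
      refine le_trans (le_of_eq ?_) this
      cases j <;> simp <;> abel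
    · intro i v
      obtain ⟨y, hy, h⟩ := h3 i v
      by_cases hij : i = j
      · subst hij
        rw [upd_same] at hy
        simp only [if_true]
        have h' : Rc (OY i + Q) v y := h.mono (fun e he => Multiset.mem_add.2 (Or.inl he))
        rcases mem_union.1 hy with hy | hy
        · exact ⟨y, hy, h'⟩
        · obtain ⟨e, he, rfl⟩ := Multiset.mem_map.1 (Multiset.mem_toFinset.1 hy)
          have h'' : Rc Q e.1 t := hQ.reach.2 e he
          exact ⟨t, ht, h'.trans (h''.mono (fun e he => Multiset.mem_add.2 (Or.inr he)))⟩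
      · simp only [upd, hij, if_false] at hy ⊢
        exact ⟨y, hy, h⟩

omit [Fintype V] in
lemma choice {D : Multiset (V × V)} {X Y : Bool → Finset V} {a : V} (hst : St D X Y a)
    (hdef : ∃ U : Finset V, U.Nonempty ∧ lv D U < gg Y X U) [Fintype V] :
    ∃ j, a ∉ Y j ∧ ∀ U : Finset V, ¬ Disjoint U (Y j) → gg Y X U ≤ lv D U := by
  obtain ⟨U, hU, hmax⟩ := exists_max_image
    (univ.filter fun U : Finset V => U.Nonempty ∧ lv D U < gg Y X U) card
    (by obtain ⟨U, h⟩ := hdef; exact ⟨U, mem_filter.2 ⟨mem_univ _, h⟩⟩)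
  obtain ⟨-, hUn, hUd⟩ := mem_filter.1 hU
  have hmem : ∀ W : Finset V, W.Nonempty → lv D W < gg Y X W → a ∈ W := by
    intro W h1 h2
    by_contra h3
    have := hst.2 W h1
    rw [ind_not h3] at this
    omega
  have haU := hmem U hUn hUd
  have hsub : ∀ W : Finset V, W.Nonempty → lv D W < gg Y X W → W ⊆ U := by
    intro W h1 h2
    have haW := hmem W h1 h2
    have h3 := hst.2 (U ∩ W) ⟨a, mem_inter.2 ⟨haU, haW⟩⟩
    have h4 := ind_le_one a (U ∩ W)
    have h5 := lv_sub D U W
    have h6 := gg_sup Y X U W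
    have h7 := hmax (U ∪ W) (mem_filter.2 ⟨mem_univ _, hUn.mono subset_union_left, by omega⟩)
    have h8 : U = U ∪ W := eq_of_subset_of_card_le subset_union_left h7
    rw [h8]; exact subset_union_right
  have hj : ∃ j, Disjoint U (Y j) := by
    by_contra hno
    push Not at hno
    have l0 := lv_nonneg D U
    simp only [gg, mm, miss_neg (hno true), miss_neg (hno false)] at hUd
    omega
  obtain ⟨j, hj⟩ := hj
  refine ⟨j, disjoint_left.1 hj haU, fun W hW => ?_⟩
  by_contra h
  have hWn : W.Nonempty := by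
    obtain ⟨v, hv, -⟩ := not_disjoint_iff.1 hW
    exact ⟨v, hv⟩
  exact hW (hj.mono_left (hsub W hWn (by omega)))

/-- the potential -/
def pot (X : Bool → Finset V) : ℕ := (X true)ᶜ.card + (X false)ᶜ.card

lemma pot_upd {Y : Bool → Finset V} {j : Bool} {A : Finset V} (h : Y j ⊂ A) :
    pot (upd Y j A) < pot Y := by
  have h1 : Aᶜ.card < (Y j)ᶜ.card := card_lt_card (compl_ssubset_compl.2 h)
  cases j <;> simp [pot, upd] <;> omega

theorem scheme (n : ℕ) : ∀ (D : Multiset (V × V)) (X Y : Bool → Finset V) (a : V),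
    pot X + pot Y < n → St D X Y a → Goal D X Y := by
  induction n with
  | zero => intro D X Y a h; omega
  | succ n ih =>
    have key : ∀ (D : Multiset (V × V)) (X Y : Bool → Finset V) (a : V) (j : Bool),
        pot X + pot Y < n + 1 → St D X Y a → a ∉ Y j →
        (∀ U : Finset V, ¬ Disjoint U (Y j) → gg Y X U ≤ lv D U) → Goal D X Y := by
      intro D X Y a j hn hst ha hch
      obtain ⟨D0, t, A, h1, h2, h3⟩ := step hst ha hch
      have := pot_upd h1
      exact h3 (ih (rev D0) (upd Y j A) X t (by omega) h2).rev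
    intro D X Y a hn hst
    by_cases hdef : ∃ U : Finset V, U.Nonempty ∧ lv D U < gg Y X U
    · obtain ⟨j, h1, h2⟩ := choice hst hdef
      exact key D X Y a j hn hst h1 h2
    push Not at hdef
    have hne : ∀ (U A : Finset V), ¬ Disjoint U A → U.Nonempty := by
      intro U A h
      obtain ⟨v, hv, -⟩ := not_disjoint_iff.1 h
      exact ⟨v, hv⟩
    by_cases hY : ∃ j b, b ∉ Y j
    · obtain ⟨j, b, hb⟩ := hY
      refine key D X Y b j hn ⟨hst.1, fun U hU => ?_⟩ hb (fun U hU => hdef U (hne _ _ hU))
      have := hdef U hU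
      have := ind_nonneg b U
      omega
    by_cases hX : ∃ i b, b ∉ X i
    · obtain ⟨i, b, hb⟩ := hX
      refine (key (rev D) Y X b i (by omega) ⟨fun W hW => ?_, fun U hU => ?_⟩ hb
        (fun U hU => ?_)).rev
      · rw [ent_rev]; exact hdef W hW
      · rw [lv_rev]
        have := hst.1 U hU
        have := ind_nonneg b U
        omega
      · rw [lv_rev]; exact hst.1 U (hne _ _ hU)
    push Not at hX hY
    exact ⟨fun _ => 0, fun _ => 0, by simp, fun i v => ⟨v, hX i v, Relation.ReflTransGen.refl⟩,
      fun j v => ⟨v, hY j v, Relation.ReflTransGen.refl⟩⟩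

/-- two arc-disjoint strongly connected spanning parts -/
theorem two_strong (D : Multiset (V × V)) (r : V)
    (hin : ∀ W : Finset V, W.Nonempty → r ∉ W → 9 ≤ ent D W)
    (hout : ∀ W : Finset V, W.Nonempty → r ∉ W → 9 ≤ lv D W) :
    ∃ A B : Multiset (V × V), A + B ≤ D ∧ (∀ u v, Rc A u v) ∧ ∀ u v, Rc B u v := by
  have hg : ∀ W : Finset V, gg (fun _ => {r}) (fun _ => {r}) W = if r ∈ W then -1 else 9 := by
    intro W
    by_cases h : r ∈ W <;> simp [gg, mm, miss, h]
  obtain ⟨OX, OY, h1, h2, h3⟩ := scheme _ D (fun _ => {r}) (fun _ => {r}) r (Nat.lt_succ_self _)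
    ⟨fun W hW => by
      rw [hg]
      have := ent_nonneg D W
      split_ifs with h
      · omega
      · exact hin W hW h,
    fun W hW => by
      rw [hg]
      have := lv_nonneg D W
      have := ind_nonneg r W
      split_ifs with h
      · omega
      · have := hout W hW h; omega⟩
  have hs : ∀ i u v, Rc (OX i + OY i) u v := by
    intro i u v
    obtain ⟨x, hx, g1⟩ := h2 i v
    obtain ⟨y, hy, g2⟩ := h3 i u
    rw [mem_singleton] at hx hy
    subst hx; subst hy
    exact (g2.mono (fun e he => Multiset.mem_add.2 (Or.inr he))).trans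
      (g1.mono (fun e he => Multiset.mem_add.2 (Or.inl he)))
  refine ⟨OX true + OY true, OX false + OY false, le_trans (le_of_eq ?_) h1, hs true, hs false⟩
  abel

end Pool.Agent.Work.MP_820bad_co.BJY
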