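import Mathlib

-- merged part: Pool.Agent.Work.MP_820bad_co.Bjy1
section
set_option autoImplicit false

namespace Pool.Agent.Work.MP_820bad_co.BJY

open Finset

variable {V : Type} [DecidableEq V]

/-- indicator of membership -/
def ind (x : V) (X : Finset V) : ℤ := if x ∈ X then 1 else 0

/-- number of arcs of `M` entering `X` -/
def ent (M : Multiset (V × V)) (X : Finset V) : ℤ :=
  (M.map fun e => if e.1 ∉ X ∧ e.2 ∈ X then (1 : ℤ) else 0).sum

/-- number of arcs of `M` leaving `X` -/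
def lv (M : Multiset (V × V)) (X : Finset V) : ℤ :=
  (M.map fun e => if e.1 ∈ X ∧ e.2 ∉ X then (1 : ℤ) else 0).sum

@[simp] lemma ent_zero (X : Finset V) : ent 0 X = 0 := by simp [ent]
@[simp] lemma lv_zero (X : Finset V) : lv 0 X = 0 := by simp [lv]
lemma ent_cons (e : V × V) (M : Multiset (V × V)) (X : Finset V) :
    ent (e ::ₘ M) X = (if e.1 ∉ X ∧ e.2 ∈ X then (1 : ℤ) else 0) + ent M X := by simp [ent]
lemma lv_cons (e : V × V) (M : Multiset (V × V)) (X : Finset V) :
    lv (e ::ₘ M) X = (if e.1 ∈ X ∧ e.2 ∉ X then (1 : ℤ) else 0) + lv M X := by simp [lv]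
lemma ent_add (M N : Multiset (V × V)) (X : Finset V) : ent (M + N) X = ent M X + ent N X := by
  simp [ent]
lemma lv_add (M N : Multiset (V × V)) (X : Finset V) : lv (M + N) X = lv M X + lv N X := by
  simp [lv]

lemma ent_nonneg (M : Multiset (V × V)) (X : Finset V) : 0 ≤ ent M X := by
  induction M using Multiset.induction_on with
  | empty => simp
  | cons e M ih => rw [ent_cons]; split_ifs <;> omega

lemma lv_nonneg (M : Multiset (V × V)) (X : Finset V) : 0 ≤ lv M X := by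
  induction M using Multiset.induction_on with
  | empty => simp
  | cons e M ih => rw [lv_cons]; split_ifs <;> omega

lemma ind_nonneg (x : V) (X : Finset V) : 0 ≤ ind x X := by unfold ind; split_ifs <;> omega
lemma ind_le_one (x : V) (X : Finset V) : ind x X ≤ 1 := by unfold ind; split_ifs <;> omega
lemma ind_mem {x : V} {X : Finset V} (h : x ∈ X) : ind x X = 1 := by simp [ind, h]
lemma ind_not {x : V} {X : Finset V} (h : x ∉ X) : ind x X = 0 := by simp [ind, h]

lemma ent_eq_zero {M : Multiset (V × V)} {X : Finset V} (h : ∀ e ∈ M, e.1 ∉ X → e.2 ∉ X) :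
    ent M X = 0 := by
  induction M using Multiset.induction_on with
  | empty => simp
  | cons e M ih =>
    rw [ent_cons, ih (fun e' he' => h e' (Multiset.mem_cons_of_mem he'))]
    have := h e (Multiset.mem_cons_self _ _)
    rw [if_neg (fun hh => this hh.1 hh.2)]; rfl

lemma lv_eq_zero {M : Multiset (V × V)} {X : Finset V} (h : ∀ e ∈ M, e.1 ∈ X → e.2 ∈ X) :
    lv M X = 0 := by
  induction M using Multiset.induction_on with
  | empty => simp
  | cons e M ih =>
    rw [lv_cons, ih (fun e' he' => h e' (Multiset.mem_cons_of_mem he'))]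
    have := h e (Multiset.mem_cons_self _ _)
    rw [if_neg (fun hh => hh.2 (this hh.1))]; rfl

lemma ent_sub (M : Multiset (V × V)) (X Y : Finset V) :
    ent M (X ∩ Y) + ent M (X ∪ Y) ≤ ent M X + ent M Y := by
  induction M using Multiset.induction_on with
  | empty => simp
  | cons e M ih =>
    simp only [ent_cons, mem_inter, mem_union]
    by_cases h1 : e.1 ∈ X <;> by_cases h2 : e.1 ∈ Y <;> by_cases h3 : e.2 ∈ X <;>
      by_cases h4 : e.2 ∈ Y <;> simp [h1, h2, h3, h4] <;> omega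

lemma lv_sub (M : Multiset (V × V)) (X Y : Finset V) :
    lv M (X ∩ Y) + lv M (X ∪ Y) ≤ lv M X + lv M Y := by
  induction M using Multiset.induction_on with
  | empty => simp
  | cons e M ih =>
    simp only [lv_cons, mem_inter, mem_union]
    by_cases h1 : e.1 ∈ X <;> by_cases h2 : e.1 ∈ Y <;> by_cases h3 : e.2 ∈ X <;>
      by_cases h4 : e.2 ∈ Y <;> simp [h1, h2, h3, h4] <;> omega

lemma ent_lv_cross (M : Multiset (V × V)) (W U : Finset V) :
    ent M (W \ U) + lv M (U \ W) ≤ ent M W + lv M U := by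
  induction M using Multiset.induction_on with
  | empty => simp
  | cons e M ih =>
    simp only [ent_cons, lv_cons, mem_sdiff]
    by_cases h1 : e.1 ∈ W <;> by_cases h2 : e.1 ∈ U <;> by_cases h3 : e.2 ∈ W <;>
      by_cases h4 : e.2 ∈ U <;> simp [h1, h2, h3, h4] <;> omega

lemma ent_inter_of_inside {M : Multiset (V × V)} {S : Finset V}
    (h : ∀ e ∈ M, e.1 ∈ S ∧ e.2 ∈ S) (Y : Finset V) : ent M Y = ent M (S ∩ Y) := by
  induction M using Multiset.induction_on with
  | empty => simp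
  | cons e M ih =>
    rw [ent_cons, ent_cons, ih (fun e' he' => h e' (Multiset.mem_cons_of_mem he'))]
    have := h e (Multiset.mem_cons_self _ _)
    simp [this.1, this.2]

lemma ent_eq_lv_of_inside {M : Multiset (V × V)} {S : Finset V}
    (h : ∀ e ∈ M, e.1 ∈ S ∧ e.2 ∈ S) (Y : Finset V) : ent M Y = lv M (S \ Y) := by
  induction M using Multiset.induction_on with
  | empty => simp
  | cons e M ih =>
    rw [ent_cons, lv_cons, ih (fun e' he' => h e' (Multiset.mem_cons_of_mem he'))]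
    have := h e (Multiset.mem_cons_self _ _)
    simp [this.1, this.2]

lemma ent_mono_of {M : Multiset (V × V)} {X S : Finset V}
    (h : ∀ e ∈ M, e.1 ∉ X → e.2 ∈ X → e.1 ∉ S ∧ e.2 ∈ S) : ent M X ≤ ent M S := by
  induction M using Multiset.induction_on with
  | empty => simp
  | cons e M ih =>
    rw [ent_cons, ent_cons]
    have h1 := ih (fun e' he' => h e' (Multiset.mem_cons_of_mem he'))
    have := h e (Multiset.mem_cons_self _ _)
    split_ifs with a b
    · omega
    · exact absurd (this a.1 a.2) b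
    · omega
    · omega

lemma lv_mono_of {M : Multiset (V × V)} {X S : Finset V}
    (h : ∀ e ∈ M, e.1 ∈ X → e.2 ∉ X → e.1 ∈ S ∧ e.2 ∉ S) : lv M X ≤ lv M S := by
  induction M using Multiset.induction_on with
  | empty => simp
  | cons e M ih =>
    rw [lv_cons, lv_cons]
    have h1 := ih (fun e' he' => h e' (Multiset.mem_cons_of_mem he'))
    have := h e (Multiset.mem_cons_self _ _)
    split_ifs with a b
    · omega
    · exact absurd (this a.1 a.2) b
    · omega
    · omega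

/-- `Walk M a b`: the arcs of `M` can be ordered into a walk from `a` to `b`. -/
inductive Walk : Multiset (V × V) → V → V → Prop
  | nil (a : V) : Walk 0 a a
  | cons {M : Multiset (V × V)} {a b c : V} : Walk M b c → Walk ((a, b) ::ₘ M) a c

omit [DecidableEq V] in
lemma Walk.append {M N : Multiset (V × V)} {a b c : V} (h : Walk M a b) (h' : Walk N b c) :
    Walk (M + N) a c := by
  induction h with
  | nil a => simpa using h'
  | cons _ ih => rw [Multiset.cons_add]; exact Walk.cons (ih h')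

omit [DecidableEq V] in
lemma Walk.single (a b : V) : Walk ((a, b) ::ₘ 0) a b := Walk.cons (Walk.nil b)

lemma Walk.conserve {M : Multiset (V × V)} {a b : V} (h : Walk M a b) (X : Finset V) :
    lv M X + ind b X = ent M X + ind a X := by
  induction h with
  | nil a => simp
  | @cons M a b c _ ih =>
    rw [lv_cons, ent_cons]
    unfold ind at *
    by_cases h1 : a ∈ X <;> by_cases h2 : b ∈ X <;> simp [h1, h2] at ih ⊢ <;> omega

omit [DecidableEq V] in
lemma Walk.inv {M : Multiset (V × V)} {a c : V} (h : Walk M a c) :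
    (M = 0 ∧ a = c) ∨ ∃ b M', M = (a, b) ::ₘ M' ∧ Walk M' b c := by
  cases h with
  | nil => exact Or.inl ⟨rfl, rfl⟩
  | cons h => exact Or.inr ⟨_, _, rfl, h⟩

omit [DecidableEq V] in
lemma Walk.snoc_inv {M : Multiset (V × V)} {a c : V} (h : Walk M a c) :
    (M = 0 ∧ a = c) ∨ ∃ b M', M = (b, c) ::ₘ M' ∧ Walk M' a b := by
  induction h with
  | nil => exact Or.inl ⟨rfl, rfl⟩
  | @cons M a b c _ ih =>
    right
    rcases ih with ⟨h0, hb⟩ | ⟨b', M', h1, h2⟩
    · subst h0; subst hb; exact ⟨a, 0, rfl, Walk.nil a⟩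
    · exact ⟨b', (a, b) ::ₘ M', by rw [h1, Multiset.cons_swap], Walk.cons h2⟩

omit [DecidableEq V] in
/-- heads of a walk are tails or the end -/
lemma Walk.start_tail {M : Multiset (V × V)} {a c : V} (h : Walk M a c) :
    a = c ∨ ∃ e ∈ M, e.1 = a := by
  cases h with
  | nil => exact Or.inl rfl
  | cons h => exact Or.inr ⟨_, Multiset.mem_cons_self _ _, rfl⟩

omit [DecidableEq V] in
lemma Walk.head_tail {M : Multiset (V × V)} {a c : V} (h : Walk M a c) :
    ∀ e ∈ M, e.2 = c ∨ ∃ e' ∈ M, e'.1 = e.2 := by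
  induction h with
  | nil => simp
  | @cons M a b c h ih =>
    intro e he
    rcases Multiset.mem_cons.1 he with rfl | he
    · rcases h.start_tail with h1 | ⟨e', he', h1⟩
      · exact Or.inl h1
      · exact Or.inr ⟨e', Multiset.mem_cons_of_mem he', h1⟩
    · rcases ih e he with h1 | ⟨e', he', h1⟩
      · exact Or.inl h1
      · exact Or.inr ⟨e', Multiset.mem_cons_of_mem he', h1⟩

omit [DecidableEq V] in
lemma Walk.end_vis {M : Multiset (V × V)} {a c : V} (h : Walk M a c) :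
    c = a ∨ ∃ e ∈ M, e.2 = c := by
  rcases h.snoc_inv with ⟨_, h1⟩ | ⟨b, M', h1, _⟩
  · exact Or.inl h1.symm
  · exact Or.inr ⟨(b, c), by rw [h1]; exact Multiset.mem_cons_self _ _, rfl⟩

omit [DecidableEq V] in
lemma Walk.initial {M : Multiset (V × V)} {a c : V} (h : Walk M a c) :
    ∀ e ∈ M, ∃ M', M' ≤ M ∧ Walk M' a e.2 := by
  induction h with
  | nil => simp
  | @cons M a b c h ih =>
    intro e he
    rcases Multiset.mem_cons.1 he with rfl | he
    · exact ⟨(a, b) ::ₘ 0, Multiset.cons_le_cons _ (Multiset.zero_le _), Walk.single a b⟩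
    · obtain ⟨M', h1, h2⟩ := ih e he
      exact ⟨(a, b) ::ₘ M', Multiset.cons_le_cons _ h1, Walk.cons h2⟩

lemma Walk.ent_pos {M : Multiset (V × V)} {a c : V} (h : Walk M a c) (X : Finset V)
    (ha : a ∉ X) (hv : ∃ e ∈ M, e.2 ∈ X) : 1 ≤ ent M X := by
  induction h with
  | nil => simp at hv
  | @cons M a b c h ih =>
    rw [ent_cons]
    by_cases hb : b ∈ X
    · have := ent_nonneg M X
      rw [if_pos ⟨ha, hb⟩]; omega
    · obtain ⟨e, he, he2⟩ := hv
      rcases Multiset.mem_cons.1 he with rfl | he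
      · exact absurd he2 hb
      · have := ih hb ⟨e, he, he2⟩
        split_ifs <;> omega

lemma Walk.dom_ent {M : Multiset (V × V)} {a c : V} (h : Walk M a c) (X : Finset V) :
    ent ((a, c) ::ₘ 0) X ≤ ent M X := by
  rw [ent_cons]
  have h0 := ent_nonneg M X
  split_ifs with hh
  · rcases h.end_vis with h1 | ⟨e, he, h1⟩
    · exact absurd (h1 ▸ hh.2) hh.1
    · have := h.ent_pos X hh.1 ⟨e, he, h1 ▸ hh.2⟩
      simp; omega
  · simp; omega

lemma Walk.dom_lv {M : Multiset (V × V)} {a c : V} (h : Walk M a c) (X : Finset V) :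
    lv ((a, c) ::ₘ 0) X ≤ lv M X := by
  have h1 := h.conserve X
  have h2 := (Walk.single a c).conserve X
  have h3 := h.dom_ent X
  omega

omit [DecidableEq V] in
lemma Walk.subst {M : Multiset (V × V)} {z x : V} (h : Walk M z x) :
    ∀ (e : V × V) (M' N : Multiset (V × V)), M = e ::ₘ M' → Walk N e.1 e.2 → Walk (N + M') z x := by
  classical
  induction h with
  | nil => intro e M' N h; exact absurd h (Multiset.zero_ne_cons)
  | @cons M a b c h ih =>
    intro e M' N h1 hN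
    rcases Multiset.cons_eq_cons.1 h1 with ⟨h2, h3⟩ | ⟨_, cs, h2, h3⟩
    · subst h2; subst h3; exact hN.append h
    · rw [h3, Multiset.add_cons]
      exact Walk.cons (ih e cs N h2 hN)

/-- segments: a virtual arc with the walk it stands for -/
abbrev Sg (V : Type) := (V × V) × Multiset (V × V)

omit [DecidableEq V] in
lemma Walk.lift (Seg : Multiset (Sg V)) (hS : ∀ σ ∈ Seg, Walk σ.2 σ.1.1 σ.1.2) :
    ∀ (R0 : Multiset (V × V)) (z x : V), Walk (R0 + Seg.map Prod.fst) z x →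
      Walk (R0 + (Seg.map Prod.snd).sum) z x := by
  induction Seg using Multiset.induction_on with
  | empty => intro R0 z x h; simpa using h
  | cons σ Seg ih =>
    intro R0 z x h
    have h1 := h.subst σ.1 (R0 + Seg.map Prod.fst) σ.2
      (by rw [Multiset.map_cons, Multiset.add_cons]) (hS σ (Multiset.mem_cons_self _ _))
    rw [← add_assoc] at h1
    have h2 := ih (fun σ' h' => hS σ' (Multiset.mem_cons_of_mem h')) _ _ _ h1
    rw [Multiset.map_cons, Multiset.sum_cons]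
    convert h2 using 1
    abel

lemma seg_dom_ent (Seg : Multiset (Sg V)) (hS : ∀ σ ∈ Seg, Walk σ.2 σ.1.1 σ.1.2) (X : Finset V) :
    ent (Seg.map Prod.fst) X ≤ ent (Seg.map Prod.snd).sum X := by
  induction Seg using Multiset.induction_on with
  | empty => simp
  | cons σ Seg ih =>
    have h1 := ih (fun σ' h' => hS σ' (Multiset.mem_cons_of_mem h'))
    have h2 := (hS σ (Multiset.mem_cons_self _ _)).dom_ent X
    rw [Multiset.map_cons, Multiset.map_cons, Multiset.sum_cons, ent_add, ent_cons]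
    rw [ent_cons] at h2
    simp only [ent_zero] at h2
    omega

lemma seg_dom_lv (Seg : Multiset (Sg V)) (hS : ∀ σ ∈ Seg, Walk σ.2 σ.1.1 σ.1.2) (X : Finset V) :
    lv (Seg.map Prod.fst) X ≤ lv (Seg.map Prod.snd).sum X := by
  induction Seg using Multiset.induction_on with
  | empty => simp
  | cons σ Seg ih =>
    have h1 := ih (fun σ' h' => hS σ' (Multiset.mem_cons_of_mem h'))
    have h2 := (hS σ (Multiset.mem_cons_self _ _)).dom_lv X
    rw [Multiset.map_cons, Multiset.map_cons, Multiset.sum_cons, lv_add, lv_cons]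
    rw [lv_cons] at h2
    simp only [lv_zero] at h2
    omega

omit [DecidableEq V] in
lemma seg_split (Seg : Multiset (Sg V)) : ∀ (R E A : Multiset (V × V)),
    R + E = A + Seg.map Prod.fst → ∃ (S1 S2 : Multiset (Sg V)) (R0 D1 : Multiset (V × V)),
      Seg = S1 + S2 ∧ R = R0 + S1.map Prod.fst ∧ A = D1 + R0 ∧ E = D1 + S2.map Prod.fst := by
  classical
  induction Seg using Multiset.induction_on with
  | empty =>
    intro R E A h
    refine ⟨0, 0, R, E, by simp, by simp, ?_, by simp⟩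
    simp at h; rw [← h]; abel
  | cons σ Seg ih =>
    intro R E A h
    rw [Multiset.map_cons, Multiset.add_cons] at h
    have hm : σ.1 ∈ R + E := by rw [h]; exact Multiset.mem_cons_self _ _
    rcases Multiset.mem_add.1 hm with hm | hm
    · obtain ⟨R', rfl⟩ := Multiset.exists_cons_of_mem hm
      rw [Multiset.cons_add, Multiset.cons_inj_right] at h
      obtain ⟨S1, S2, R0, D1, h1, h2, h3, h4⟩ := ih R' E A h
      refine ⟨σ ::ₘ S1, S2, R0, D1, by rw [h1, Multiset.cons_add], ?_, h3, h4⟩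
      rw [h2, Multiset.map_cons, Multiset.add_cons]
    · obtain ⟨E', rfl⟩ := Multiset.exists_cons_of_mem hm
      rw [Multiset.add_cons, Multiset.cons_inj_right] at h
      obtain ⟨S1, S2, R0, D1, h1, h2, h3, h4⟩ := ih R E' A h
      refine ⟨S1, σ ::ₘ S2, R0, D1, by rw [h1, Multiset.add_cons], h2, h3, ?_⟩
      rw [h4, Multiset.map_cons, Multiset.add_cons]

omit [DecidableEq V] in
/-- decomposition of a walk with respect to a set it visits -/
lemma Walk.decomp {P : Multiset (V × V)} {a u : V} (h : Walk P a u) (S : Finset V) :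
    (a ∉ S ∧ ∀ e ∈ P, e.2 ∉ S) ∨ ∃ (M0 M2 : Multiset (V × V)) (Seg : Multiset (Sg V)) (z1 zl : V),
      P = M0 + (Seg.map Prod.snd).sum + M2 ∧ Walk M0 a z1 ∧ Walk (Seg.map Prod.fst) z1 zl ∧
      Walk M2 zl u ∧ (∀ σ ∈ Seg, Walk σ.2 σ.1.1 σ.1.2) ∧ z1 ∈ S ∧ zl ∈ S ∧
      (∀ e ∈ Seg.map Prod.fst, e.1 ∈ S ∧ e.2 ∈ S) ∧ (u ∈ S → zl = u) ∧
      (∀ v ∈ S, (v = a ∨ ∃ e ∈ P, e.2 = v) → v = z1 ∨ ∃ e ∈ Seg.map Prod.fst, e.2 = v) := by
  induction h with
  | nil a =>
    by_cases ha : a ∈ S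
    · right
      refine ⟨0, 0, 0, a, a, by simp, Walk.nil a, by simpa using Walk.nil a, Walk.nil a, by simp,
        ha, ha, by simp, fun _ => rfl, ?_⟩
      intro v _ hv; simpa using hv
    · left; exact ⟨ha, by simp⟩
  | @cons M a b c h ih =>
    rcases ih with ⟨hb, hM⟩ | ⟨M0, M2, Seg, z1, zl, h1, h2, h3, h4, h5, h6, h7, h8, h9, h10⟩
    · by_cases ha : a ∈ S
      · right
        refine ⟨0, (a, b) ::ₘ M, 0, a, a, by simp, Walk.nil a, by simpa using Walk.nil a,
          Walk.cons h, by simp, ha, ha, by simp, ?_, ?_⟩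
        · intro hc
          rcases h.end_vis with h1 | ⟨e, he, h1⟩
          · exact absurd (h1 ▸ hc) hb
          · exact absurd (h1 ▸ hc) (hM e he)
        · intro v hv hv'
          rcases hv' with h1 | ⟨e, he, h1⟩
          · exact Or.inl h1
          · rcases Multiset.mem_cons.1 he with rfl | he
            · exact absurd (show b ∈ S by rw [← h1] at hv; exact hv) hb
            · exact absurd (h1 ▸ hv) (hM e he)
      · left
        refine ⟨ha, fun e he => ?_⟩
        rcases Multiset.mem_cons.1 he with rfl | he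
        · exact hb
        · exact hM e he
    · right
      by_cases ha : a ∈ S
      · refine ⟨0, M2, ((a, z1), (a, b) ::ₘ M0) ::ₘ Seg, a, zl, ?_, Walk.nil a, ?_, h4, ?_, ha, h7,
          ?_, h9, ?_⟩
        · rw [h1, Multiset.map_cons, Multiset.sum_cons]
          simp only [zero_add, Multiset.cons_add]
        · rw [Multiset.map_cons]; exact Walk.cons h3
        · intro σ hσ
          rcases Multiset.mem_cons.1 hσ with rfl | hσ
          · exact Walk.cons h2
          · exact h5 σ hσ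
        · intro e he
          rw [Multiset.map_cons] at he
          rcases Multiset.mem_cons.1 he with rfl | he
          · exact ⟨ha, h6⟩
          · exact h8 e he
        · intro v hv hv'
          rcases hv' with h1' | ⟨e, he, h1'⟩
          · exact Or.inl h1'
          · right
            have : v = b ∨ ∃ e ∈ M, e.2 = v := by
              rcases Multiset.mem_cons.1 he with rfl | he
              · exact Or.inl h1'.symm
              · exact Or.inr ⟨e, he, h1'⟩
            rw [Multiset.map_cons]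
            rcases h10 v hv this with h2' | ⟨e', he', h2'⟩
            · exact ⟨(a, z1), Multiset.mem_cons_self _ _, h2'.symm⟩
            · exact ⟨e', Multiset.mem_cons_of_mem he', h2'⟩
      · refine ⟨(a, b) ::ₘ M0, M2, Seg, z1, zl, ?_, Walk.cons h2, h3, h4, h5, h6, h7, h8, h9, ?_⟩
        · rw [h1]; simp only [Multiset.cons_add]
        · intro v hv hv'
          apply h10 v hv
          rcases hv' with h1' | ⟨e, he, h1'⟩
          · exact absurd (h1' ▸ hv) ha
          · rcases Multiset.mem_cons.1 he with rfl | he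
            · exact Or.inl h1'.symm
            · exact Or.inr ⟨e, he, h1'⟩

omit [DecidableEq V] in
/-- last exit of a walk from a set -/
lemma Walk.last_exit {G : Multiset (V × V)} {u t : V} (h : Walk G u t) (N : Finset V)
    (ht : t ∉ N) : (u ∉ N ∧ ∀ e ∈ G, e.1 ∉ N) ∨ ∃ (τ y : V) (Gb : Multiset (V × V)),
      τ ∈ N ∧ y ∉ N ∧ Walk Gb y t ∧ (τ, y) ::ₘ Gb ≤ G ∧ ∀ e ∈ Gb, e.1 ∉ N := by
  induction h with
  | nil a => exact Or.inl ⟨ht, by simp⟩
  | @cons M a b c h ih =>
    rcases ih ht with ⟨hb, hM⟩ | ⟨τ, y, Gb, h1, h2, h3, h4, h5⟩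
    · by_cases ha : a ∈ N
      · exact Or.inr ⟨a, b, M, ha, hb, h, le_rfl, hM⟩
      · refine Or.inl ⟨ha, fun e he => ?_⟩
        rcases Multiset.mem_cons.1 he with rfl | he
        · exact ha
        · exact hM e he
    · exact Or.inr ⟨τ, y, Gb, h1, h2, h3, h4.trans (Multiset.le_cons_self _ _), h5⟩

/-- the set reachable inside `S` -/
lemma reach_set (M : Multiset (V × V)) (S : Finset V) (z : V) :
    ∃ Rch : Finset V, Rch ⊆ S ∧
      (∀ v, v ∈ Rch ↔ v ∈ S ∧ ∃ W, W ≤ M ∧ Walk W z v ∧ ∀ e ∈ W, e.1 ∈ S ∧ e.2 ∈ S) ∧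
      ∀ e ∈ M, e.1 ∈ Rch → e.2 ∈ S → e.2 ∈ Rch := by
  classical
  refine ⟨S.filter fun v => ∃ W, W ≤ M ∧ Walk W z v ∧ ∀ e ∈ W, e.1 ∈ S ∧ e.2 ∈ S,
    filter_subset _ _, fun v => mem_filter, ?_⟩
  intro e he h1 h2
  obtain ⟨h1S, W, hW, hw, hin⟩ := mem_filter.1 h1
  refine mem_filter.2 ⟨h2, ?_⟩
  by_cases heW : e ∈ W
  · obtain ⟨W', h3, h4⟩ := hw.initial e heW
    exact ⟨W', h3.trans hW, h4, fun e' he' => hin e' (Multiset.mem_of_le h3 he')⟩
  · refine ⟨W + (e.1, e.2) ::ₘ 0, ?_, hw.append (Walk.single _ _), ?_⟩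
    · have : W + (e.1, e.2) ::ₘ 0 = e ::ₘ W := by rw [Multiset.add_cons, add_zero]
      rw [this]
      exact Multiset.cons_le_of_notMem heW |>.2 ⟨he, hW⟩
    · intro e' he'
      rcases Multiset.mem_add.1 he' with h | h
      · exact hin e' h
      · have : e' = e := by simpa using h
        subst this; exact ⟨h1S, h2⟩

lemma le_of_le_add_of_notMem {G A B : Multiset (V × V)} (h : G ≤ A + B) (hB : ∀ e ∈ G, e ∉ B) :
    G ≤ A := by
  rw [Multiset.le_iff_count] at h ⊢
  intro e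
  by_cases he : e ∈ G
  · have := h e
    rw [Multiset.count_add, Multiset.count_eq_zero_of_notMem (hB e he)] at this
    omega
  · rw [Multiset.count_eq_zero_of_notMem he]; omega

omit [DecidableEq V] in
lemma rtg_mono {r s : V → V → Prop} (h : ∀ x y, r x y → s x y) {x y : V}
    (hxy : Relation.ReflTransGen r x y) : Relation.ReflTransGen s x y := by
  induction hxy with
  | refl => exact Relation.ReflTransGen.refl
  | tail _ h2 ih => exact ih.tail (h _ _ h2)

omit [DecidableEq V] in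
lemma Walk.reach {M : Multiset (V × V)} {a c : V} (h : Walk M a c) :
    Relation.ReflTransGen (fun x y => (x, y) ∈ M) a c ∧
      ∀ e ∈ M, Relation.ReflTransGen (fun x y => (x, y) ∈ M) e.1 c := by
  induction h with
  | nil => exact ⟨Relation.ReflTransGen.refl, by simp⟩
  | @cons M a b c h ih =>
    have hmono : ∀ x y, Relation.ReflTransGen (fun x y => (x, y) ∈ M) x y →
        Relation.ReflTransGen (fun x y => (x, y) ∈ (a, b) ::ₘ M) x y := fun x y hxy =>
      rtg_mono (fun _ _ h' => Multiset.mem_cons_of_mem h') hxy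
    have h1 : Relation.ReflTransGen (fun x y => (x, y) ∈ (a, b) ::ₘ M) a c :=
      Relation.ReflTransGen.head (Multiset.mem_cons_self _ _) (hmono _ _ ih.1)
    refine ⟨h1, fun e he => ?_⟩
    rcases Multiset.mem_cons.1 he with rfl | he
    · exact h1
    · exact hmono _ _ (ih.2 e he)

end Pool.Agent.Work.MP_820bad_co.BJY
end

-- merged part: Pool.Agent.Work.MP_820bad_co.Bjy2
section
set_option autoImplicit false

namespace Pool.Agent.Work.MP_820bad_co.BJY

open Finset

variable {V : Type} [DecidableEq V]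

/-- slack of an in-cut (`true`) or out-cut (`false`) -/
def F (p : Bool → Finset V → ℤ) (θ : Bool) (M : Multiset (V × V)) (u : V) (X : Finset V) : ℤ :=
  match θ with
  | true => ent M X - p true X
  | false => lv M X - p false X - ind u X

/-- requirements are decreasing and intersecting supermodular -/
structure Good (Ω : Finset V) (p : Bool → Finset V → ℤ) : Prop where
  mono : ∀ θ X Y, X.Nonempty → X ⊆ Y → Y ⊆ Ω → p θ Y ≤ p θ X
  sup : ∀ θ X Y, X ⊆ Ω → Y ⊆ Ω → (X ∩ Y).Nonempty → p θ X + p θ Y ≤ p θ (X ∩ Y) + p θ (X ∪ Y)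

lemma Good.sub {Ω S : Finset V} {p : Bool → Finset V → ℤ} (h : Good Ω p) (hS : S ⊆ Ω) :
    Good S p :=
  ⟨fun θ X Y h1 h2 h3 => h.mono θ X Y h1 h2 (h3.trans hS),
   fun θ X Y h1 h2 h3 => h.sup θ X Y (h1.trans hS) (h2.trans hS) h3⟩

lemma F_walk (p : Bool → Finset V → ℤ) (θ : Bool) (M : Multiset (V × V)) {N : Multiset (V × V)}
    {x y : V} (h : Walk N x y) (X : Finset V) :
    F p θ (M + N) x X = F p θ M y X + ent N X := by
  have := h.conserve X
  cases θ <;> simp only [F, ent_add, lv_add] <;> omega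

lemma ind_sub (u : V) (X Y : Finset V) : ind u X + ind u Y = ind u (X ∩ Y) + ind u (X ∪ Y) := by
  unfold ind
  by_cases h1 : u ∈ X <;> by_cases h2 : u ∈ Y <;> simp [h1, h2]

lemma F_sub {Ω : Finset V} {p : Bool → Finset V → ℤ} (h : Good Ω p) (θ : Bool)
    (M : Multiset (V × V)) (u : V) {X Y : Finset V} (hX : X ⊆ Ω) (hY : Y ⊆ Ω)
    (hn : (X ∩ Y).Nonempty) :
    F p θ M u (X ∩ Y) + F p θ M u (X ∪ Y) ≤ F p θ M u X + F p θ M u Y := by
  have h1 := h.sup θ X Y hX hY hn
  have h2 := ent_sub M X Y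
  have h3 := lv_sub M X Y
  have h4 := ind_sub u X Y
  cases θ <;> simp only [F] <;> omega

lemma F_cons (p : Bool → Finset V → ℤ) (θ : Bool) (e : V × V) (M : Multiset (V × V)) (u : V)
    (X : Finset V) : F p θ (e ::ₘ M) u X = F p θ M u X +
      (if θ = true then (if e.1 ∉ X ∧ e.2 ∈ X then 1 else 0)
        else (if e.1 ∈ X ∧ e.2 ∉ X then 1 else 0)) := by
  cases θ <;> simp only [F, ent_cons, lv_cons] <;> simp <;> omega

lemma F_sub' {Ω : Finset V} {p : Bool → Finset V → ℤ} (h : Good Ω p) (θ : Bool)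
    {M : Multiset (V × V)} (u : V) {X Y : Finset V} (hX : X ⊆ Ω) (hY : Y ⊆ Ω)
    (hn : (X ∩ Y).Nonempty) {e : V × V} (he : e ∈ M) (h1 : e.1 ∈ X) (h2 : e.1 ∉ Y)
    (h3 : e.2 ∈ Y) (h4 : e.2 ∉ X) :
    F p θ M u (X ∩ Y) + F p θ M u (X ∪ Y) + 1 ≤ F p θ M u X + F p θ M u Y := by
  obtain ⟨M', rfl⟩ := Multiset.exists_cons_of_mem he
  have := F_sub h θ M' u hX hY hn
  simp only [F_cons, mem_inter, mem_union]
  cases θ <;> simp [h1, h2, h3, h4] <;> omega

lemma F_cross {Ω : Finset V} {p : Bool → Finset V → ℤ} (h : Good Ω p) (θ : Bool)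
    (M : Multiset (V × V)) (u : V) {S Y : Finset V} (hS : S ⊆ Ω) (hY : Y ⊆ Ω)
    (hA : (S \ Y).Nonempty) (hB : (Y \ S).Nonempty) :
    F p θ M u (S \ Y) + F p (!θ) M u (Y \ S) ≤
      F p θ M u S + F p (!θ) M u Y + ind u (S ∩ Y) := by
  have h1 := h.mono θ (S \ Y) S hA sdiff_subset hS
  have h2 := h.mono (!θ) (Y \ S) Y hB sdiff_subset hY
  have h3 := ent_lv_cross M S Y
  have h4 := ent_lv_cross M Y S
  have h5 : ind u S = ind u (S \ Y) + ind u (S ∩ Y) := by
    unfold ind; by_cases a : u ∈ S <;> by_cases b : u ∈ Y <;> simp [a, b]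
  have h6 : ind u Y = ind u (Y \ S) + ind u (S ∩ Y) := by
    unfold ind; by_cases a : u ∈ S <;> by_cases b : u ∈ Y <;> simp [a, b]
  cases θ <;> simp only [F, Bool.not_true, Bool.not_false] at * <;> omega

lemma F_cross' {Ω : Finset V} {p : Bool → Finset V → ℤ} (h : Good Ω p) (θ : Bool)
    {M : Multiset (V × V)} (u : V) {S Y : Finset V} (hS : S ⊆ Ω) (hY : Y ⊆ Ω)
    (hA : (S \ Y).Nonempty) (hB : (Y \ S).Nonempty) {e : V × V} (he : e ∈ M)
    (h1 : e.1 ∈ S) (h2 : e.1 ∈ Y) (h3 : e.2 ∉ S) (h4 : e.2 ∉ Y) :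
    F p θ M u (S \ Y) + F p (!θ) M u (Y \ S) + 1 ≤
      F p θ M u S + F p (!θ) M u Y + ind u (S ∩ Y) := by
  obtain ⟨M', rfl⟩ := Multiset.exists_cons_of_mem he
  have := F_cross h θ M' u hS hY hA hB
  simp only [F_cons, mem_sdiff]
  cases θ <;> simp [h1, h2, h3, h4] at this ⊢ <;> omega

lemma reroute (p : Bool → Finset V → ℤ) {P : Multiset (V × V)} (D0 : Multiset (V × V)) {a u : V}
    (hP : Walk P a u) (S : Finset V) (hvis : ¬ (a ∉ S ∧ ∀ e ∈ P, e.2 ∉ S)) :
    ∃ (seq : Multiset (V × V)) (z1 zl : V), Walk seq z1 zl ∧ z1 ∈ S ∧ zl ∈ S ∧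
      (∀ e ∈ seq, e.1 ∈ S ∧ e.2 ∈ S) ∧ (u ∈ S → zl = u) ∧
      (∀ X ⊆ S, (a ∉ X ∧ ∀ e ∈ P, e.2 ∉ X) ∨ 1 ≤ ent seq X + ind z1 X) ∧
      ∀ (R E : Multiset (V × V)) (x : V), Walk R z1 x → R + E = D0 + seq →
        ∃ P' D0' D1 R0 E2 : Multiset (V × V), D0' + P' = D0 + P ∧ Walk P' a x ∧
          (∀ e ∈ P', e ∈ P ∨ e ∈ R) ∧ D0 = D1 + R0 ∧ (∀ e ∈ R0, e ∈ R) ∧ E = D1 + E2 ∧
          (∀ e ∈ E2, e ∈ seq) ∧ D1 ≤ D0' ∧
          ∀ θ Y, F p θ D0 u Y + ent ((zl, u) ::ₘ 0) Y - ent R Y + ent seq Y ≤ F p θ D0' x Y := by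
  rcases hP.decomp S with h | ⟨M0, M2, Seg, z1, zl, h1, h2, h3, h4, h5, h6, h7, h8, h9, h10⟩
  · exact absurd h hvis
  refine ⟨Seg.map Prod.fst, z1, zl, h3, h6, h7, h8, h9, ?_, ?_⟩
  · intro X hX
    by_cases hv : a ∉ X ∧ ∀ e ∈ P, e.2 ∉ X
    · exact Or.inl hv
    right
    have : ∃ v ∈ X, v = a ∨ ∃ e ∈ P, e.2 = v := by
      by_cases ha : a ∈ X
      · exact ⟨a, ha, Or.inl rfl⟩
      · push Not at hv
        obtain ⟨e, he, he2⟩ := hv ha
        exact ⟨e.2, he2, Or.inr ⟨e, he, rfl⟩⟩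
    obtain ⟨v, hvX, hv'⟩ := this
    have h0 := ent_nonneg (Seg.map Prod.fst) X
    by_cases hz : z1 ∈ X
    · rw [ind_mem hz]; omega
    · rcases h10 v (hX hvX) hv' with h' | ⟨e, he, h'⟩
      · exact absurd (h' ▸ hvX) hz
      · have := h3.ent_pos X hz ⟨e, he, h' ▸ hvX⟩
        rw [ind_not hz]; omega
  · intro R E x hR hE
    obtain ⟨S1, S2, R0, D1, g1, g2, g3, g4⟩ := seg_split Seg R E D0 hE
    have hS1 : ∀ σ ∈ S1, Walk σ.2 σ.1.1 σ.1.2 := fun σ hσ =>
      h5 σ (by rw [g1]; exact Multiset.mem_add.2 (Or.inl hσ))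
    have hS2 : ∀ σ ∈ S2, Walk σ.2 σ.1.1 σ.1.2 := fun σ hσ =>
      h5 σ (by rw [g1]; exact Multiset.mem_add.2 (Or.inr hσ))
    have hlift := Walk.lift S1 hS1 R0 z1 x (g2 ▸ hR)
    have hPeq : P = M0 + ((S1.map Prod.snd).sum + (S2.map Prod.snd).sum) + M2 := by
      rw [h1, g1, Multiset.map_add, Multiset.sum_add]
    refine ⟨M0 + (R0 + (S1.map Prod.snd).sum), D1 + (S2.map Prod.snd).sum + M2, D1, R0,
      S2.map Prod.fst, ?_, h2.append hlift, ?_, g3, ?_, g4, ?_, ?_, ?_⟩
    · rw [hPeq, g3]; abel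
    · intro e he
      rw [hPeq, g2]
      simp only [Multiset.mem_add] at he ⊢
      clear * - V S a P M0 e S1 S2 M2 R0 hvis u zl h9 he; tauto
    · intro e he; rw [g2]; exact Multiset.mem_add.2 (Or.inl he)
    · intro e he
      rw [g1, Multiset.map_add]; exact Multiset.mem_add.2 (Or.inr he)
    · rw [add_assoc]; exact Multiset.le_add_right _ _
    · intro θ Y
      have e1 := F_walk p θ E hR Y
      have e2 := F_walk p θ D0 h3 Y
      rw [add_comm E R, hE, e2] at e1
      have d1 := seg_dom_ent S2 hS2 Y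
      have d2 := seg_dom_lv S2 hS2 Y
      have d3 := h4.dom_ent Y
      have d4 := h4.dom_lv Y
      have c1 := (Walk.single zl u).conserve Y
      rw [g4] at e1
      cases θ <;> simp only [F, ent_add, lv_add] at e1 ⊢ <;> omega

lemma unvis (p : Bool → Finset V → ℤ) (θ : Bool) {P : Multiset (V × V)} (D0 : Multiset (V × V))
    {a u : V} (hP : Walk P a u) {X : Finset V} (h : a ∉ X ∧ ∀ e ∈ P, e.2 ∉ X) :
    F p θ D0 u X = F p θ (D0 + P) a X + ind a X := by
  rw [F_walk p θ D0 hP, ent_eq_zero (fun e he _ => h.2 e he), ind_not h.1]; simp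

/-- conclusion of the path lemma -/
def Concl (Ω : Finset V) (p : Bool → Finset V → ℤ) (D : Multiset (V × V)) (a : V)
    (T : Finset V) : Prop :=
  ∃ (Q D0 : Multiset (V × V)) (t : V), D = D0 + Q ∧ t ∈ T ∧ Walk Q a t ∧ (∀ e ∈ Q, e.1 ∈ Ω) ∧
    ∀ θ X, X.Nonempty → X ⊆ Ω → 0 ≤ F p θ D0 t X + ind t X

/-- slack hypothesis of the path lemma -/
def Slack (Ω : Finset V) (p : Bool → Finset V → ℤ) (D : Multiset (V × V)) (a : V)
    (T : Finset V) : Prop :=
  ∀ θ X, X.Nonempty → X ⊆ Ω →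
    0 ≤ F p θ D a X + ind a X ∧ (Disjoint X T → 1 ≤ F p θ D a X + ind a X)

/-- hypotheses of the path lemma -/
def Hyp (Ω : Finset V) (p : Bool → Finset V → ℤ) (D : Multiset (V × V)) (a : V)
    (T : Finset V) : Prop :=
  Good Ω p ∧ a ∈ Ω ∧ (T ⊆ Ω ∨ Disjoint T Ω) ∧ Slack Ω p D a T ∧
    ∃ (G : Multiset (V × V)) (t : V), G ≤ D ∧ t ∈ T ∧ Walk G a t ∧ ∀ e ∈ G, e.1 ∈ Ω

/-- induction hypothesis -/
def IH (Ω : Finset V) : Prop :=
  ∀ Ω' : Finset V, Ω' ⊂ Ω → ∀ p D a T, Hyp Ω' p D a T → Concl Ω' p D a T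

/-- invariant of the current walk -/
def Inv (Ω : Finset V) (p : Bool → Finset V → ℤ) (T : Finset V) (D0 : Multiset (V × V))
    (u : V) : Prop :=
  ∀ θ X, X.Nonempty → X ⊆ Ω →
    0 ≤ F p θ D0 u X ∨ (u ∈ X ∧ ¬ Disjoint X T ∧ -1 ≤ F p θ D0 u X)

omit [DecidableEq V] in
lemma inside_of_walk {R : Multiset (V × V)} {z x : V} {S : Finset V} (h : Walk R z x)
    (hx : x ∈ S) (ht : ∀ e ∈ R, e.1 ∈ S) : ∀ e ∈ R, e.1 ∈ S ∧ e.2 ∈ S := by
  intro e he
  refine ⟨ht e he, ?_⟩
  rcases h.head_tail e he with h1 | ⟨e', he', h1⟩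
  · rw [h1]; exact hx
  · rw [← h1]; exact ht e' he'

lemma finish {Ω : Finset V} (ih : IH Ω) {p : Bool → Finset V → ℤ} (hG : Good Ω p)
    {T : Finset V} {D0 P : Multiset (V × V)} {a u : V} (hsl : Slack Ω p (D0 + P) a T)
    (hP : Walk P a u) (hPt : ∀ e ∈ P, e.1 ∈ Ω) (hI : Inv Ω p T D0 u)
    (hdef : ∃ θ Z, Z.Nonempty ∧ Z ⊂ Ω ∧ F p θ D0 u Z < 0) : Concl Ω p (D0 + P) a T := by
  classical
  obtain ⟨Z, hZ, hmin⟩ := exists_min_image
    (Ω.powerset.filter fun X => X.Nonempty ∧ X ⊂ Ω ∧ ∃ θ, F p θ D0 u X < 0) card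
    (by
      obtain ⟨θ, Z, h1, h2, h3⟩ := hdef
      exact ⟨Z, mem_filter.2 ⟨mem_powerset.2 h2.subset, h1, h2, θ, h3⟩⟩)
  obtain ⟨-, hZn, hZΩ, θ, hθ⟩ := mem_filter.1 hZ
  have hZs : Z ⊆ Ω := hZΩ.subset
  have hprop : ∀ θ' X, X.Nonempty → X ⊆ Z → X ≠ Z → 0 ≤ F p θ' D0 u X := by
    intro θ' X h1 h2 h3
    by_contra hneg
    have hss : X ⊂ Z := lt_of_le_of_ne h2 h3
    have := hmin X (mem_filter.2 ⟨mem_powerset.2 (h2.trans hZs), h1, hss.trans hZΩ, θ',
      by omega⟩)
    have := card_lt_card hss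
    omega
  have hlow : ∀ θ' X, X.Nonempty → X ⊆ Ω → -1 ≤ F p θ' D0 u X := by
    intro θ' X h1 h2
    rcases hI θ' X h1 h2 with h | h <;> omega
  have hnu : ∀ θ' X, X.Nonempty → X ⊆ Ω → u ∉ X → 0 ≤ F p θ' D0 u X := by
    intro θ' X h1 h2 h3
    rcases hI θ' X h1 h2 with h | h
    · exact h
    · exact absurd h.1 h3
  obtain ⟨huZ, hZT, -⟩ : u ∈ Z ∧ ¬ Disjoint Z T ∧ -1 ≤ F p θ D0 u Z := by
    rcases hI θ Z hZn hZs with h | h
    · omega
    · exact h
  have hθ' : F p θ D0 u Z = -1 := by have := hlow θ Z hZn hZs; omega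
  have hvis : ¬ (a ∉ Z ∧ ∀ e ∈ P, e.2 ∉ Z) := by
    rintro ⟨h1, h2⟩
    rcases hP.end_vis with h | ⟨e, he, h⟩
    · exact h1 (h ▸ huZ)
    · exact h2 e he (h ▸ huZ)
  obtain ⟨seq, z1, zl, hseq, hz1, -, hin, hzl, hv, hre⟩ := reroute p D0 hP Z hvis
  obtain rfl : zl = u := hzl huZ
  have hval : ∀ θ' X, F p θ' (D0 + seq) z1 X = F p θ' D0 zl X + ent seq X :=
    fun θ' X => F_walk p θ' D0 hseq X
  have hsl' : Slack Z p (D0 + seq) z1 (T ∩ Z) := by
    intro θ' X h1 h2
    rw [hval]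
    have e0 := ent_nonneg seq X
    have i0 := ind_nonneg z1 X
    constructor
    · by_cases hXZ : X = Z
      · subst hXZ
        have := hlow θ' X h1 hZs
        rw [ind_mem hz1]; omega
      · have := hprop θ' X h1 h2 hXZ; omega
    · intro hd
      have hd' : Disjoint X T := by
        rw [disjoint_left] at hd ⊢
        intro v hv1 hv2
        exact hd hv1 (mem_inter.2 ⟨hv2, h2 hv1⟩)
      have hXZ : X ≠ Z := fun h => hZT (h ▸ hd')
      have := hprop θ' X h1 h2 hXZ
      rcases hv X h2 with h | h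
      · have h3 := unvis p θ' D0 hP h
        have h4 := (hsl θ' X h1 (h2.trans hZs)).2 hd'
        omega
      · omega
  have hseqZ : ent seq Z = 0 := ent_eq_zero (fun e he h => absurd (hin e he).1 h)
  have hreach : ∃ (G : Multiset (V × V)) (t : V), G ≤ D0 + seq ∧ t ∈ T ∩ Z ∧ Walk G z1 t ∧
      ∀ e ∈ G, e.1 ∈ Z := by
    obtain ⟨Rch, hR1, hR2, hR3⟩ := reach_set (D0 + seq) Z z1
    have hz1R : z1 ∈ Rch := (hR2 z1).2 ⟨hz1, 0, Multiset.zero_le _, Walk.nil _, by simp⟩
    have : ∃ t ∈ T ∩ Z, t ∈ Rch := by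
      by_contra hno
      push Not at hno
      have hZval := hval θ Z
      cases θ with
      | true =>
        obtain ⟨t0, ht1, ht2⟩ := not_disjoint_iff.1 hZT
        have hXn : (Z \ Rch).Nonempty :=
          ⟨t0, mem_sdiff.2 ⟨ht1, hno t0 (mem_inter.2 ⟨ht2, ht1⟩)⟩⟩
        have h1 := (hsl' true (Z \ Rch) hXn sdiff_subset).1
        rw [ind_not (by simp [hz1R])] at h1
        have h2 : ent (D0 + seq) (Z \ Rch) ≤ ent (D0 + seq) Z := by
          apply ent_mono_of
          intro e he g1 g2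
          rw [mem_sdiff] at g1 g2
          refine ⟨fun g3 => g2.2 (hR3 e he ?_ g2.1), g2.1⟩
          by_contra g4; exact g1 ⟨g3, g4⟩
        have h3 := hG.mono true (Z \ Rch) Z hXn sdiff_subset hZs
        simp only [F] at h1 hZval hθ'
        omega
      | false =>
        have hd : Disjoint Rch (T ∩ Z) := by
          rw [disjoint_left]; intro v g1 g2; exact hno v g2 g1
        have h1 := (hsl' false Rch ⟨z1, hz1R⟩ hR1).2 hd
        have h2 : lv (D0 + seq) Rch ≤ lv (D0 + seq) Z := by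
          apply lv_mono_of
          intro e he g1 g2
          exact ⟨hR1 g1, fun g3 => g2 (hR3 e he g1 g3)⟩
        have h3 := hG.mono false Rch Z ⟨z1, hz1R⟩ hR1 hZs
        have i1 := ind_mem hz1
        simp only [F] at h1 hZval hθ'
        omega
    obtain ⟨t, ht, htR⟩ := this
    obtain ⟨-, W, g1, g2, g3⟩ := (hR2 t).1 htR
    exact ⟨W, t, g1, ht, g2, fun e he => (g3 e he).1⟩
  obtain ⟨R, E, t, hE, ht, hR, hRt, hcon⟩ := ih Z hZΩ p (D0 + seq) z1 (T ∩ Z)
    ⟨hG.sub hZs, hz1, Or.inl inter_subset_right, hsl', hreach⟩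
  have htZ : t ∈ Z := (mem_inter.1 ht).2
  have hRin := inside_of_walk hR htZ hRt
  obtain ⟨P', D0', D1, R0, E2, g1, g2, g3, -, -, -, -, -, g9⟩ :=
    hre R E t hR (by rw [hE, add_comm])
  have hΔ : ∀ θ' X, X.Nonempty → X ⊆ Z →
      ent R X - ent seq X ≤ F p θ' D0 zl X + ind t X := by
    intro θ' X h1 h2
    have h3 := hcon θ' X h1 h2
    have h4 := F_walk p θ' E hR X
    rw [← hE, hval] at h4
    omega
  refine ⟨P', D0', t, g1.symm, (mem_inter.1 ht).1, g2, ?_, ?_⟩
  · intro e he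
    rcases g3 e he with h | h
    · exact hPt e h
    · exact hZs (hRt e h)
  intro θ' Y hYn hY
  have k1 := g9 θ' Y
  have k2 := ent_nonneg ((zl, zl) ::ₘ 0) Y
  suffices ent R Y - ent seq Y ≤ F p θ' D0 zl Y + ind t Y by omega
  have i0 := ind_nonneg t Y
  have e1 := ent_inter_of_inside hRin Y
  have e2 := ent_inter_of_inside hin Y
  by_cases hX : (Z ∩ Y).Nonempty
  swap
  · rw [not_nonempty_iff_eq_empty] at hX
    have huY : zl ∉ Y := fun h => by
      have : zl ∈ Z ∩ Y := mem_inter.2 ⟨huZ, h⟩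
      rw [hX] at this; simp at this
    have := hnu θ' Y hYn hY huY
    rw [hX] at e1 e2
    have z1' : ent R ∅ = 0 := ent_eq_zero (by simp)
    have z2' : ent seq ∅ = 0 := ent_eq_zero (by simp)
    omega
  have hit : ind t (Z ∩ Y) = ind t Y := by unfold ind; simp [htZ]
  by_cases hθθ : θ' = θ
  · subst hθθ
    have h1 := F_sub hG θ' D0 zl hZs hY hX
    have h2 := hlow θ' (Z ∪ Y) (hYn.mono subset_union_right) (union_subset hZs hY)
    have h3 := hΔ θ' (Z ∩ Y) hX inter_subset_left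
    omega
  have hθn : θ' = !θ := by clear * - θ θ' V p D0 zl Z Y R seq D0' t k1 hθ hθ' hθθ; cases θ <;> cases θ' <;> simp_all
  by_cases hA : (Z \ Y).Nonempty
  swap
  · rw [not_nonempty_iff_eq_empty, sdiff_eq_empty_iff_subset] at hA
    have z1' : ent R Y = 0 := ent_eq_zero (fun e he h => absurd (hA (hRin e he).1) h)
    have z2' : ent seq Y = 0 := ent_eq_zero (fun e he h => absurd (hA (hin e he).1) h)
    have := hlow θ' Y hYn hY
    rw [ind_mem (hA htZ)]; omega
  by_cases hB : (Y \ Z).Nonempty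
  swap
  · rw [not_nonempty_iff_eq_empty, sdiff_eq_empty_iff_subset] at hB
    exact hΔ θ' Y hYn hB
  subst hθn
  have h1 := F_cross hG θ D0 zl hZs hY hA hB
  have h2 := hnu (!θ) (Y \ Z) hB (sdiff_subset.trans hY) (by simp [huZ])
  have h3 := hΔ θ (Z \ Y) hA sdiff_subset
  have h4 := ent_eq_lv_of_inside hRin Y
  have h5 := ent_eq_lv_of_inside hin Y
  have h6 := hR.conserve (Z \ Y)
  have h7 := hseq.conserve (Z \ Y)
  have h8 : ind zl (Z ∩ Y) + ind zl (Z \ Y) = 1 := by
    unfold ind; by_cases b : zl ∈ Y <;> simp [huZ, b]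
  omega

end Pool.Agent.Work.MP_820bad_co.BJY
end
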