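import Pool.Agent.Work.MP_820bad_co.Bjy2

set_option autoImplicit false

namespace Pool.Agent.Work.MP_820bad_co.BJY

open Finset

variable {V : Type} [DecidableEq V]

lemma shortcut {Ω : Finset V} (ih : IH Ω) {p : Bool → Finset V → ℤ} (hG : Good Ω p)
    {T : Finset V} (hT : T ⊆ Ω ∨ Disjoint T Ω) {D0 P G1 : Multiset (V × V)} {a u g t : V}
    (hsl : Slack Ω p (D0 + P) a T) (hP : Walk P a u) (hPt : ∀ e ∈ P, e.1 ∈ Ω) (hu : u ∈ Ω)
    (hI : Inv Ω p T D0 u) (hnd : ∀ θ X, X.Nonempty → X ⊂ Ω → 0 ≤ F p θ D0 u X)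
    (hG1 : Walk G1 g t) (hG1le : G1 ≤ D0) (hG1t : ∀ e ∈ G1, e.1 ∈ Ω) (ht : t ∈ T)
    (hb : ∃ θ X, X ⊆ Ω ∧ Disjoint X T ∧ u ∉ X ∧ g ∈ X ∧ F p θ D0 u X ≤ 0) :
    ∃ (P' D0' G' : Multiset (V × V)) (u' : V), D0' + P' = D0 + P ∧ Walk P' a u' ∧
      (∀ e ∈ P', e.1 ∈ Ω) ∧ u' ∈ Ω ∧ Inv Ω p T D0' u' ∧ G' ≤ D0' ∧ Walk G' u' t ∧
      (∀ e ∈ G', e.1 ∈ Ω) ∧ G'.card ≤ G1.card := by
  classical
  set N : Finset V := Ω.filter fun v =>
    ∃ θ X, X ⊆ Ω ∧ Disjoint X T ∧ u ∉ X ∧ v ∈ X ∧ F p θ D0 u X ≤ 0 with hN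
  have hNmem : ∀ v θ X, X ⊆ Ω → Disjoint X T → u ∉ X → v ∈ X → F p θ D0 u X ≤ 0 → v ∈ N :=
    fun v θ X h1 h2 h3 h4 h5 => mem_filter.2 ⟨h1 h4, θ, X, h1, h2, h3, h4, h5⟩
  have htN : t ∉ N := by
    intro h
    obtain ⟨-, θ, X, -, h2, -, h4, -⟩ := mem_filter.1 h
    exact disjoint_left.1 h2 h4 ht
  have hgN : g ∈ N := by
    obtain ⟨θ, X, h1, h2, h3, h4, h5⟩ := hb
    exact hNmem g θ X h1 h2 h3 h4 h5
  obtain ⟨τ, y, Gb, hτ, hy, hGb, hGble, hGbt⟩ :
      ∃ (τ y : V) (Gb : Multiset (V × V)), τ ∈ N ∧ y ∉ N ∧ Walk Gb y t ∧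
        (τ, y) ::ₘ Gb ≤ G1 ∧ ∀ e ∈ Gb, e.1 ∉ N := by
    rcases hG1.last_exit N htN with h | h
    · exact absurd hgN h.1
    · exact h
  obtain ⟨-, θ, S, hSΩ, hST, huS, hτS, hSle⟩ := mem_filter.1 hτ
  have hSn : S.Nonempty := ⟨τ, hτS⟩
  have hproper : ∀ X, X ⊆ Ω → u ∉ X → X ⊂ Ω := fun X h1 h2 =>
    lt_of_le_of_ne h1 (fun h => h2 (h ▸ hu))
  have hSss : S ⊂ Ω := hproper S hSΩ huS
  have hS0 : F p θ D0 u S = 0 := le_antisymm hSle (hnd θ S hSn hSss)
  have hSN : ∀ v ∈ S, v ∈ N := fun v hv => hNmem v θ S hSΩ hST huS hv hSle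
  have hyS : y ∉ S := fun h => hy (hSN y h)
  have hτy : (τ, y) ∈ D0 :=
    Multiset.mem_of_le (hGble.trans hG1le) (Multiset.mem_cons_self _ _)
  have hGbD : Gb ≤ D0 := ((Multiset.le_cons_self _ _).trans hGble).trans hG1le
  have hvis : ¬ (a ∉ S ∧ ∀ e ∈ P, e.2 ∉ S) := by
    intro h
    have h1 := unvis p θ D0 hP h
    have h2 := (hsl θ S hSn hSΩ).2 hST
    omega
  obtain ⟨seq, z1, zl, hseq, hz1, hzl, hin, -, hv, hre⟩ := reroute p D0 hP S hvis
  set p' : Bool → Finset V → ℤ := fun θ' X => p θ' X - (if θ' = true then 0 else ind zl X)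
    with hp'
  have hG' : Good S p' := by
    constructor
    · intro θ' X Y h1 h2 h3
      have h4 := hG.mono θ' X Y h1 h2 (h3.trans hSΩ)
      have h5 : ind zl X ≤ ind zl Y := by
        unfold ind
        by_cases b : zl ∈ X
        · simp [b, h2 b]
        · simp [b]; split_ifs <;> omega
      simp only [hp']
      split_ifs <;> omega
    · intro θ' X Y h1 h2 h3
      have h4 := hG.sup θ' X Y (h1.trans hSΩ) (h2.trans hSΩ) h3
      have h5 := ind_sub zl X Y
      simp only [hp']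
      split_ifs <;> omega
  have hval : ∀ θ' X, X ⊆ S → F p' θ' (D0 + seq) z1 X = F p θ' D0 u X + ent seq X := by
    intro θ' X hX
    rw [F_walk p' θ' D0 hseq X]
    have : ind u X = 0 := ind_not (fun h => huS (hX h))
    cases θ'
    · simp only [F, hp', this]
      simp only [Bool.false_eq_true, if_false]
      omega
    · simp only [F, hp']
      simp
  have hone : ∀ θ' X, X.Nonempty → X ⊆ S → 1 ≤ F p' θ' (D0 + seq) z1 X + ind z1 X := by
    intro θ' X h1 h2
    rw [hval θ' X h2]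
    have h3 := hnd θ' X h1 (hproper X (h2.trans hSΩ) (fun h => huS (h2 h)))
    have e0 := ent_nonneg seq X
    have i0 := ind_nonneg z1 X
    rcases hv X h2 with h | h
    · have h4 := unvis p θ' D0 hP h
      have h5 := (hsl θ' X h1 (h2.trans hSΩ)).2 (hST.mono_left h2)
      omega
    · omega
  have hsl' : Slack S p' (D0 + seq) z1 {y} := fun θ' X h1 h2 =>
    ⟨by have := hone θ' X h1 h2; omega, fun _ => hone θ' X h1 h2⟩
  have hseqS : ent seq S = 0 := ent_eq_zero (fun e he h => absurd (hin e he).1 h)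
  have hreach : ∃ (G : Multiset (V × V)) (t : V), G ≤ D0 + seq ∧ t ∈ ({y} : Finset V) ∧
      Walk G z1 t ∧ ∀ e ∈ G, e.1 ∈ S := by
    obtain ⟨Rch, hR1, hR2, hR3⟩ := reach_set (D0 + seq) S z1
    have hz1R : z1 ∈ Rch := (hR2 z1).2 ⟨hz1, 0, Multiset.zero_le _, Walk.nil _, by simp⟩
    have hτR : τ ∈ Rch := by
      by_contra hno
      have hSval := hval θ S Subset.rfl
      cases θ with
      | true =>
        have hXn : (S \ Rch).Nonempty := ⟨τ, mem_sdiff.2 ⟨hτS, hno⟩⟩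
        have h1 := hone true (S \ Rch) hXn sdiff_subset
        rw [ind_not (by simp [hz1R])] at h1
        have h2 : ent (D0 + seq) (S \ Rch) ≤ ent (D0 + seq) S := by
          apply ent_mono_of
          intro e he g1 g2
          rw [mem_sdiff] at g1 g2
          refine ⟨fun g3 => g2.2 (hR3 e he ?_ g2.1), g2.1⟩
          by_contra g4; exact g1 ⟨g3, g4⟩
        have h3 := hG'.mono true (S \ Rch) S hXn sdiff_subset Subset.rfl
        rw [hS0, hseqS] at hSval
        simp only [F] at h1 hSval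
        omega
      | false =>
        have h1 := hone false Rch ⟨z1, hz1R⟩ hR1
        obtain ⟨M', hM'⟩ := Multiset.exists_cons_of_mem
          (Multiset.mem_add.2 (Or.inl hτy) : (τ, y) ∈ D0 + seq)
        have h2 : lv M' Rch ≤ lv M' S := by
          apply lv_mono_of
          intro e he g1 g2
          exact ⟨hR1 g1, fun g3 => g2 (hR3 e (hM' ▸ Multiset.mem_cons_of_mem he) g1 g3)⟩
        have h3 := hG'.mono false Rch S ⟨z1, hz1R⟩ hR1 Subset.rfl
        have i1 := ind_mem hz1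
        rw [hS0, hseqS] at hSval
        simp only [F] at h1 hSval
        rw [hM', lv_cons] at h1 hSval
        rw [if_neg (fun h => hno h.1)] at h1
        rw [if_pos ⟨hτS, hyS⟩] at hSval
        omega
    obtain ⟨-, W, g1, g2, g3⟩ := (hR2 τ).1 hτR
    refine ⟨W + (τ, y) ::ₘ 0, y, ?_, mem_singleton_self _, g2.append (Walk.single _ _), ?_⟩
    · rw [Multiset.add_cons, add_zero]
      exact (Multiset.cons_le_of_notMem (fun h => hyS (g3 _ h).2)).2
        ⟨Multiset.mem_add.2 (Or.inl hτy), g1⟩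
    · intro e he
      rcases Multiset.mem_add.1 he with h | h
      · exact (g3 e h).1
      · have : e = (τ, y) := by simpa using h
        rw [this]; exact hτS
  obtain ⟨Q, E, t', hE, ht', hQ, hQt, hcon⟩ := ih S hSss p' (D0 + seq) z1 {y}
    ⟨hG', hz1, Or.inr (disjoint_singleton_left.2 hyS), hsl', hreach⟩
  obtain rfl : t' = y := mem_singleton.1 ht'
  obtain ⟨x, R, hQR, hR⟩ : ∃ b M', Q = (b, t') ::ₘ M' ∧ Walk M' z1 b := by
    rcases hQ.snoc_inv with h | h
    · exact absurd (h.2 ▸ hz1) hyS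
    · exact h
  have hxS : x ∈ S := hQt (x, t') (by rw [hQR]; exact Multiset.mem_cons_self _ _)
  have hRin := inside_of_walk hR hxS
    (fun e he => hQt e (by rw [hQR]; exact Multiset.mem_cons_of_mem he))
  obtain ⟨P', D0', D1, R0, E2, g1, g2, g3, g4, g5, g6, g7, g8, g9⟩ :=
    hre R ((x, t') ::ₘ E) x hR (by rw [hE, hQR, Multiset.add_cons, Multiset.add_cons, add_comm])
  have hxD1 : (x, t') ∈ D1 := by
    have : (x, t') ∈ D1 + E2 := g6 ▸ Multiset.mem_cons_self _ _
    rcases Multiset.mem_add.1 this with h | h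
    · exact h
    · exact absurd (hin _ (g7 _ h)).2 hyS
  have hxD0 : (x, t') ∈ D0 := by rw [g4]; exact Multiset.mem_add.2 (Or.inl hxD1)
  have hΔ : ∀ θ' X, X.Nonempty → X ⊆ S → ent R X - ent seq X ≤ F p θ' D0 u X := by
    intro θ' X h1 h2
    have h3 := hcon θ' X h1 h2
    have h4 := F_walk p' θ' E hQ X
    rw [← hE, hval θ' X h2, hQR, ent_cons, if_neg (fun h => hyS (h2 h.2))] at h4
    rw [ind_not (fun h => hyS (h2 h))] at h3
    omega
  refine ⟨P', D0', (x, t') ::ₘ Gb, x, g1, g2, ?_, hSΩ hxS, ?_, ?_, Walk.cons hGb, ?_,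
    Multiset.card_le_card hGble |>.trans' (by simp)⟩
  · intro e he
    rcases g3 e he with h | h
    · exact hPt e h
    · exact hSΩ (hRin e h).1
  rotate_left
  · refine le_trans ?_ g8
    refine (Multiset.cons_le_of_notMem (fun h => hGbt _ h (hSN x hxS))).2 ⟨hxD1, ?_⟩
    refine le_of_le_add_of_notMem (g4 ▸ hGbD) (fun e he h => hGbt e he ?_)
    exact hSN _ (hRin e (g5 e h)).1
  · intro e he
    rcases Multiset.mem_cons.1 he with rfl | he
    · exact hSΩ hxS
    · exact hG1t e (Multiset.mem_of_le ((Multiset.le_cons_self _ _).trans hGble) he)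
  intro θ' Y hYn hY
  have k1 := g9 θ' Y
  have k2 := ent_nonneg ((zl, u) ::ₘ 0) Y
  have e1 := ent_inter_of_inside hRin Y
  have e2 := ent_inter_of_inside hin Y
  by_cases hA : (S \ Y).Nonempty
  swap
  · rw [not_nonempty_iff_eq_empty, sdiff_eq_empty_iff_subset] at hA
    have z1' : ent R Y = 0 := ent_eq_zero (fun e he h => absurd (hA (hRin e he).1) h)
    have z2' : ent seq Y = 0 := ent_eq_zero (fun e he h => absurd (hA (hin e he).1) h)
    rcases hI θ' Y hYn hY with h | h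
    · left; omega
    · right; exact ⟨hA hxS, h.2.1, by omega⟩
  have hYss : Y ⊂ Ω := by
    refine lt_of_le_of_ne hY (fun h => ?_)
    obtain ⟨v, hv'⟩ := hA
    rw [mem_sdiff] at hv'
    exact hv'.2 (h ▸ hSΩ hv'.1)
  by_cases hX : (S ∩ Y).Nonempty
  swap
  · rw [not_nonempty_iff_eq_empty] at hX
    have := hnd θ' Y hYn hYss
    rw [hX] at e1 e2
    have z1' : ent R ∅ = 0 := ent_eq_zero (by simp)
    have z2' : ent seq ∅ = 0 := ent_eq_zero (by simp)
    left; omega
  by_cases hθθ : θ' = θ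
  · subst hθθ
    have h1 := F_sub hG θ' D0 u hSΩ hY hX
    have h3 := hΔ θ' (S ∩ Y) hX inter_subset_left
    rcases hI θ' (S ∪ Y) (hYn.mono subset_union_right) (union_subset hSΩ hY) with h | h
    · left; omega
    obtain ⟨-, h4, h5⟩ := h
    have hYT : ¬ Disjoint Y T := fun h => h4 (disjoint_union_left.2 ⟨hST, h⟩)
    by_cases hxY : x ∈ Y
    · right; exact ⟨hxY, hYT, by omega⟩
    by_cases hU : S ∪ Y = Ω
    swap
    · have := hnd θ' (S ∪ Y) (hYn.mono subset_union_right)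
        (lt_of_le_of_ne (union_subset hSΩ hY) hU)
      left; omega
    have hTΩ : T ⊆ Ω := by
      rcases hT with h | h
      · exact h
      · exact absurd (h.symm.mono_left hY) hYT
    have hyΩ : t' ∈ Ω := by
      rcases hGb.start_tail with h | ⟨e, he, h⟩
      · rw [h]; exact hTΩ ht
      · rw [← h]
        exact hG1t e (Multiset.mem_of_le ((Multiset.le_cons_self _ _).trans hGble) he)
    have hyY : t' ∈ Y := by
      rw [← hU, mem_union] at hyΩ
      exact hyΩ.resolve_left hyS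
    have h6 := F_sub' hG θ' u hSΩ hY hX hxD0 hxS hxY hyY hyS
    left; omega
  have hθn : θ' = !θ := by clear * - θ θ' V p D0 u S Y zl R seq D0' x k1 hSle hS0 hθθ; cases θ <;> cases θ' <;> simp_all
  by_cases hB : (Y \ S).Nonempty
  swap
  · rw [not_nonempty_iff_eq_empty, sdiff_eq_empty_iff_subset] at hB
    have := hΔ θ' Y hYn hB
    left; omega
  subst hθn
  have h1 := F_cross hG θ D0 u hSΩ hY hA hB
  have hBss : Y \ S ⊂ Ω := lt_of_le_of_lt sdiff_subset hYss
  have h2 := hnd (!θ) (Y \ S) hB hBss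
  have h3 := hΔ θ (S \ Y) hA sdiff_subset
  have h4 := ent_eq_lv_of_inside hRin Y
  have h5 := ent_eq_lv_of_inside hin Y
  have h6 := hR.conserve (S \ Y)
  have h7 := hseq.conserve (S \ Y)
  have h8 : ind u (S ∩ Y) = 0 := ind_not (by simp [huS])
  have i1 := ind_le_one zl (S \ Y)
  have i2 := ind_nonneg x (S \ Y)
  by_cases hxY : x ∈ Y
  swap
  · have : ind x (S \ Y) = 1 := ind_mem (mem_sdiff.2 ⟨hxS, hxY⟩)
    left; omega
  by_cases hzY : zl ∈ Y
  · have : ind zl (S \ Y) = 0 := ind_not (by simp [hzY])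
    left; omega
  by_cases huY : u ∈ Y
  · have : ent ((zl, u) ::ₘ 0) Y = 1 := by rw [ent_cons, if_pos ⟨hzY, huY⟩]; simp
    left; omega
  by_cases hyY : t' ∈ Y
  swap
  · have := F_cross' hG θ u hSΩ hY hA hB hxD0 hxS hxY hyS hyY
    left; omega
  by_cases hB1 : F p (!θ) D0 u (Y \ S) ≤ 0
  swap
  · left; omega
  right
  refine ⟨hxY, fun hd => hy ?_, by omega⟩
  exact hNmem t' (!θ) (Y \ S) hBss.subset (hd.mono_left sdiff_subset) (by simp [huY])
    (mem_sdiff.2 ⟨hyY, hyS⟩) hB1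

lemma loop {Ω : Finset V} (ih : IH Ω) {p : Bool → Finset V → ℤ} (hG : Good Ω p)
    {T : Finset V} (hT : T ⊆ Ω ∨ Disjoint T Ω) {D : Multiset (V × V)} {a t : V}
    (hsl : Slack Ω p D a T) (ht : t ∈ T) (n : ℕ) :
    ∀ (D0 P G : Multiset (V × V)) (u : V), D0 + P = D → Walk P a u → (∀ e ∈ P, e.1 ∈ Ω) →
      u ∈ Ω → Inv Ω p T D0 u → G ≤ D0 → Walk G u t → (∀ e ∈ G, e.1 ∈ Ω) → G.card < n →
      Concl Ω p D a T := by
  induction n with
  | zero => intro D0 P G u _ _ _ _ _ _ _ _ h; omega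
  | succ n ihn =>
    intro D0 P G u hD hP hPt hu hI hGle hGw hGt hn
    by_cases huT : u ∈ T
    · refine ⟨P, D0, u, hD.symm, huT, hP, hPt, fun θ X h1 h2 => ?_⟩
      have := ind_nonneg u X
      rcases hI θ X h1 h2 with h | h
      · omega
      · rw [ind_mem h.1]; omega
    by_cases hdef : ∃ θ Z, Z.Nonempty ∧ Z ⊂ Ω ∧ F p θ D0 u Z < 0
    · subst hD; exact finish ih hG hsl hP hPt hI hdef
    have hnd : ∀ θ X, X.Nonempty → X ⊂ Ω → 0 ≤ F p θ D0 u X := by
      intro θ X h1 h2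
      by_contra h
      exact hdef ⟨θ, X, h1, h2, by omega⟩
    obtain ⟨g, G1, hGe, hG1⟩ : ∃ b M', G = (u, b) ::ₘ M' ∧ Walk M' b t := by
      rcases hGw.inv with h | h
      · exact absurd (h.2 ▸ ht) huT
      · exact h
    subst hGe
    have hG1t : ∀ e ∈ G1, e.1 ∈ Ω := fun e he => hGt e (Multiset.mem_cons_of_mem he)
    rw [Multiset.card_cons] at hn
    by_cases hb : ∃ θ X, X ⊆ Ω ∧ Disjoint X T ∧ u ∉ X ∧ g ∈ X ∧ F p θ D0 u X ≤ 0
    · obtain ⟨P', D0', G', u', h1, h2, h3, h4, h5, h6, h7, h8, h9⟩ :=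
        shortcut ih hG hT (hD ▸ hsl) hP hPt hu hI hnd hG1
          ((Multiset.le_cons_self _ _).trans hGle) hG1t ht hb
      exact ihn D0' P' G' u' (h1.trans hD) h2 h3 h4 h5 h6 h7 h8 (by omega)
    obtain ⟨D1, hD1⟩ := Multiset.le_iff_exists_add.1 hGle
    have hD0 : D0 = (G1 + D1) + (u, g) ::ₘ 0 := by
      rw [hD1, Multiset.add_cons, add_zero, Multiset.cons_add]
    have hF : ∀ θ X, F p θ D0 u X = F p θ (G1 + D1) g X + (if u ∉ X ∧ g ∈ X then 1 else 0) := by
      intro θ X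
      conv_lhs => rw [hD0]
      rw [F_walk p θ _ (Walk.single u g), ent_cons]; simp
    have hPw : Walk (P + (u, g) ::ₘ 0) a g := hP.append (Walk.single u g)
    have hPt' : ∀ e ∈ P + (u, g) ::ₘ 0, e.1 ∈ Ω := by
      intro e he
      rcases Multiset.mem_add.1 he with h | h
      · exact hPt e h
      · have : e = (u, g) := by simpa using h
        rw [this]; exact hu
    have hDeq : G1 + D1 + (P + (u, g) ::ₘ 0) = D := by rw [← hD, hD0]; abel
    have hnew : ∀ θ X, X.Nonempty → X ⊆ Ω → 0 ≤ F p θ (G1 + D1) g X ∨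
        ((g ∈ X ∨ X = Ω) ∧ ¬ Disjoint X T ∧ -1 ≤ F p θ (G1 + D1) g X) := by
      intro θ X h1 h2
      have h3 := hF θ X
      by_cases hXΩ : X = Ω
      · rw [if_neg (fun h => h.1 (hXΩ ▸ hu))] at h3
        rcases hI θ X h1 h2 with h | h
        · left; omega
        · right; exact ⟨Or.inr hXΩ, h.2.1, by omega⟩
      have h4 := hnd θ X h1 (lt_of_le_of_ne h2 hXΩ)
      split_ifs at h3 with h5
      · by_cases h6 : F p θ D0 u X ≤ 0
        · right
          exact ⟨Or.inl h5.2, fun hd => hb ⟨θ, X, h2, hd, h5.1, h5.2, h6⟩, by omega⟩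
        · left; omega
      · left; omega
    by_cases hgΩ : g ∈ Ω
    · refine ihn (G1 + D1) _ G1 g hDeq hPw hPt' hgΩ ?_ (Multiset.le_add_right _ _) hG1 hG1t
        (by omega)
      intro θ X h1 h2
      rcases hnew θ X h1 h2 with h | ⟨h3, h4⟩
      · exact Or.inl h
      · refine Or.inr ⟨?_, h4⟩
        rcases h3 with h3 | h3
        · exact h3
        · rw [h3]; exact hgΩ
    · have hgt : g = t := by
        rcases hG1.start_tail with h | ⟨e, he, h⟩
        · exact h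
        · exact absurd (h ▸ hG1t e he) hgΩ
      subst hgt
      have hd : Disjoint T Ω := hT.resolve_left (fun h => hgΩ (h ht))
      refine ⟨_, G1 + D1, g, hDeq.symm, ht, hPw, hPt', fun θ X h1 h2 => ?_⟩
      have := ind_nonneg g X
      rcases hnew θ X h1 h2 with h | ⟨-, h4, -⟩
      · omega
      · exact absurd (hd.symm.mono_left h2) h4

/-- the two-sided path lemma -/
theorem path_lemma (Ω : Finset V) : ∀ p D a T, Hyp Ω p D a T → Concl Ω p D a T := by
  induction Ω using Finset.strongInduction with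
  | H Ω ih =>
    rintro p D a T ⟨hG, ha, hT, hsl, G, t, h1, h2, h3, h4⟩
    refine loop (fun Ω' h => ih Ω' h) hG hT hsl h2 (G.card + 1) D 0 G a (by simp) (Walk.nil a)
      (by simp) ha ?_ h1 h3 h4 (by omega)
    intro θ X g1 g2
    obtain ⟨g3, g4⟩ := hsl θ X g1 g2
    by_cases haX : a ∈ X
    · rw [ind_mem haX] at g3 g4
      by_cases hd : Disjoint X T
      · left; have := g4 hd; omega
      · right; exact ⟨haX, hd, by omega⟩
    · rw [ind_not haX] at g3; left; omega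

end Pool.Agent.Work.MP_820bad_co.BJY
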