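import Pool.Agent.Work.MP_820bad_co.Bjy4

set_option autoImplicit false

namespace Pool.Agent.Work.MP_820bad_co.BJY.Gen

open Finset

variable {V : Type} [DecidableEq V] {ι : Type} [Fintype ι] [DecidableEq ι]

/-- number of the sets missed by `W` -/
def mm (X : ι → Finset V) (W : Finset V) : ℤ := ∑ i, miss (X i) W

/-- number of the sets other than the `j`-th missed by `W` -/
def mr (X : ι → Finset V) (j : ι) (W : Finset V) : ℤ := ∑ i ∈ univ.erase j, miss (X i) W

lemma miss_nonneg (A W : Finset V) : 0 ≤ miss A W := by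
  rcases miss_cases A W with h | h <;> omega

omit [DecidableEq ι] in
lemma mm_nonneg (X : ι → Finset V) (W : Finset V) : 0 ≤ mm X W :=
  sum_nonneg fun _ _ => miss_nonneg _ _

lemma mr_nonneg (X : ι → Finset V) (j : ι) (W : Finset V) : 0 ≤ mr X j W :=
  sum_nonneg fun _ _ => miss_nonneg _ _

lemma mm_eq (X : ι → Finset V) (j : ι) (W : Finset V) :
    mm X W = miss (X j) W + mr X j W := (add_sum_erase _ _ (mem_univ j)).symm

lemma mm_upd (Y : ι → Finset V) (j : ι) (A W : Finset V) :
    mm (Function.update Y j A) W = miss A W + mr Y j W := by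
  rw [mm_eq _ j, Function.update_self]
  congr 1
  exact sum_congr rfl fun i hi => by rw [Function.update_of_ne (mem_erase.1 hi).1]

/-- the requirement function -/
def gg (X Y : ι → Finset V) (W : Finset V) : ℤ := mm X W * (3 + mm Y W) - 1

omit [DecidableEq ι] in
lemma gg_lin (X Y : ι → Finset V) (W : Finset V) :
    gg X Y W = ∑ i, (3 * miss (X i) W + ∑ j, miss (X i ∪ Y j) W) - 1 := by
  simp only [← miss_mul, gg, mm, sum_mul, ← mul_sum]
  congr 1
  exact sum_congr rfl fun i _ => by ring

omit [DecidableEq ι] in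
lemma gg_mono (X Y : ι → Finset V) {W W' : Finset V} (h : W ⊆ W') :
    gg X Y W' ≤ gg X Y W := by
  rw [gg_lin, gg_lin]
  refine sub_le_sub_right (sum_le_sum fun i _ => ?_) _
  have h1 := miss_mono (X i) h
  have h2 : ∑ j, miss (X i ∪ Y j) W' ≤ ∑ j, miss (X i ∪ Y j) W :=
    sum_le_sum fun j _ => miss_mono _ h
  omega

omit [DecidableEq ι] in
lemma gg_sup (X Y : ι → Finset V) (W W' : Finset V) :
    gg X Y W + gg X Y W' ≤ gg X Y (W ∩ W') + gg X Y (W ∪ W') := by
  simp only [gg_lin]
  have : ∑ i, (3 * miss (X i) W + ∑ j, miss (X i ∪ Y j) W) +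
      ∑ i, (3 * miss (X i) W' + ∑ j, miss (X i ∪ Y j) W') ≤
      ∑ i, (3 * miss (X i) (W ∩ W') + ∑ j, miss (X i ∪ Y j) (W ∩ W')) +
      ∑ i, (3 * miss (X i) (W ∪ W') + ∑ j, miss (X i ∪ Y j) (W ∪ W')) := by
    rw [← sum_add_distrib, ← sum_add_distrib]
    refine sum_le_sum fun i _ => ?_
    have h1 := miss_sup (X i) W W'
    have h2 : ∑ j, miss (X i ∪ Y j) W + ∑ j, miss (X i ∪ Y j) W' ≤
        ∑ j, miss (X i ∪ Y j) (W ∩ W') + ∑ j, miss (X i ∪ Y j) (W ∪ W') := by
      rw [← sum_add_distrib, ← sum_add_distrib]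
      exact sum_le_sum fun j _ => miss_sup _ _ _
    omega
  omega

/-- the state of the construction -/
def St (D : Multiset (V × V)) (X Y : ι → Finset V) (a : V) : Prop :=
  (∀ W : Finset V, W.Nonempty → gg X Y W ≤ ent D W) ∧
    ∀ U : Finset V, U.Nonempty → gg Y X U ≤ lv D U + ind a U

/-- the goal of the construction -/
def Goal (D : Multiset (V × V)) (X Y : ι → Finset V) : Prop :=
  ∃ OX OY : ι → Multiset (V × V), ∑ i, OX i + ∑ j, OY j ≤ D ∧
    (∀ i v, ∃ x ∈ X i, Rc (OX i) x v) ∧ ∀ j v, ∃ y ∈ Y j, Rc (OY j) v y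

omit [DecidableEq V] [DecidableEq ι] in
lemma rev_sum (O : ι → Multiset (V × V)) : rev (∑ i, O i) = ∑ i, rev (O i) :=
  map_sum (Multiset.mapAddMonoidHom Prod.swap) O univ

omit [DecidableEq V] [DecidableEq ι] in
lemma Goal.rev {D : Multiset (V × V)} {X Y : ι → Finset V} (h : Goal (rev D) Y X) :
    Goal D X Y := by
  obtain ⟨OY, OX, h1, h2, h3⟩ := h
  refine ⟨fun i => BJY.rev (OX i), fun j => BJY.rev (OY j), ?_, ?_, ?_⟩
  · have := rev_le h1
    rw [rev_rev, rev_add, rev_sum, rev_sum] at this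
    rw [add_comm]; exact this
  · intro i v
    obtain ⟨x, hx, h⟩ := h3 i v
    exact ⟨x, hx, h.rev⟩
  · intro j v
    obtain ⟨y, hy, h⟩ := h2 j v
    exact ⟨y, hy, h.rev⟩

variable [Fintype V]

lemma step {D : Multiset (V × V)} {X Y : ι → Finset V} {a : V} {j : ι}
    (hst : St D X Y a) (ha : a ∉ Y j)
    (hch : ∀ U : Finset V, ¬ Disjoint U (Y j) → gg Y X U ≤ lv D U) :
    ∃ (D0 : Multiset (V × V)) (t : V) (A : Finset V), Y j ⊂ A ∧
      St (rev D0) (Function.update Y j A) X t ∧
      (Goal D0 X (Function.update Y j A) → Goal D X Y) := by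
  obtain ⟨hin, hout⟩ := hst
  set p : Bool → Finset V → ℤ := fun θ W =>
    if θ = true then gg X (Function.update Y j univ) W else gg (Function.update Y j univ) X W
    with hp
  have hpt : ∀ W, p true W = gg X (Function.update Y j univ) W := fun W => by simp [hp]
  have hpf : ∀ W, p false W = gg (Function.update Y j univ) X W := fun W => by simp [hp]
  have hmu : ∀ W : Finset V, W.Nonempty → miss univ W = 0 := by
    intro W hW
    apply miss_neg
    obtain ⟨v, hv⟩ := hW
    exact not_disjoint_iff.2 ⟨v, hv, mem_univ v⟩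
  have hG : Good univ p := by
    constructor
    · intro θ W W' _ h _
      cases θ
      · rw [hpf, hpf]; exact gg_mono _ _ h
      · rw [hpt, hpt]; exact gg_mono _ _ h
    · intro θ W W' _ _ _
      cases θ
      · simp only [hpf]; exact gg_sup _ _ _ _
      · simp only [hpt]; exact gg_sup _ _ _ _
  have hsl : Slack univ p D a (Y j) := by
    intro θ W hW _
    have i0 := ind_nonneg a W
    have i1 := ind_le_one a W
    have m0 := mm_nonneg X W
    have m1 := mm_eq Y j W
    have m2 := mm_upd Y j univ W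
    rw [hmu W hW] at m2
    cases θ
    · have h1 := hout W hW
      have h2 := hch W
      simp only [F, hpf, gg] at h1 h2 ⊢
      by_cases hd : Disjoint W (Y j)
      · rw [miss_pos hd] at m1
        rw [m1] at h1
        rw [m2]
        exact ⟨by linarith, fun _ => by linarith⟩
      · have h3 := h2 hd
        rw [miss_neg hd] at m1
        rw [m1] at h3
        rw [m2]
        exact ⟨by linarith, fun h => absurd h hd⟩
    · have h1 := hin W hW
      have e0 := ent_nonneg D W
      simp only [F, hpt, gg] at h1 ⊢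
      by_cases hd : Disjoint W (Y j)
      · rw [miss_pos hd] at m1
        rw [m1] at h1
        rw [m2]
        refine ⟨by linarith, fun _ => ?_⟩
        rcases m0.eq_or_lt with h | h
        · rw [← h]; linarith
        · have : 1 ≤ mm X W := h
          linarith
      · rw [miss_neg hd] at m1
        rw [m1] at h1
        rw [m2]
        exact ⟨by linarith, fun h => absurd h hd⟩
  have hreach : ∃ (G : Multiset (V × V)) (t : V), G ≤ D ∧ t ∈ Y j ∧ Walk G a t ∧
      ∀ e ∈ G, e.1 ∈ (univ : Finset V) := by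
    obtain ⟨Rch, -, hR2, hR3⟩ := reach_set D univ a
    have haR : a ∈ Rch := (hR2 a).2 ⟨mem_univ _, 0, Multiset.zero_le _, Walk.nil _, by simp⟩
    have hnd : ¬ Disjoint Rch (Y j) := by
      intro hd
      have h1 := hout Rch ⟨a, haR⟩
      have h2 : lv D Rch = 0 := lv_eq_zero (fun e he h => hR3 e he h (mem_univ _))
      have m1 := mm_eq Y j Rch
      rw [miss_pos hd] at m1
      have i1 := ind_le_one a Rch
      have m0 := mm_nonneg X Rch
      have m3 := mr_nonneg Y j Rch
      have m4 := mul_nonneg m3 m0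
      simp only [gg] at h1
      rw [m1] at h1
      linarith
    obtain ⟨t, ht1, ht2⟩ := not_disjoint_iff.1 hnd
    obtain ⟨-, W, g1, g2, -⟩ := (hR2 t).1 ht1
    exact ⟨W, t, g1, ht2, g2, fun _ _ => mem_univ _⟩
  obtain ⟨Q, D0, t, hD, ht, hQ, -, hcon⟩ := path_lemma univ p D a (Y j)
    ⟨hG, mem_univ _, Or.inl (subset_univ _), hsl, hreach⟩
  set A : Finset V := Y j ∪ (Q.map Prod.fst).toFinset with hA
  have htail : ∀ e ∈ Q, e.1 ∈ A := fun e he =>
    mem_union_right _ (Multiset.mem_toFinset.2 (Multiset.mem_map.2 ⟨e, he, rfl⟩))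
  have hYA : Y j ⊆ A := subset_union_left
  have haA : a ∈ A := by
    rcases hQ.start_tail with h | ⟨e, he, h⟩
    · exact absurd (h ▸ ht) ha
    · exact h ▸ htail e he
  have hQin := inside_of_walk hQ (hYA ht) htail
  refine ⟨D0, t, A, ⟨hYA, fun h => ha (h haA)⟩, ⟨?_, ?_⟩, ?_⟩
  · intro W hW
    rw [ent_rev]
    have m1 := mm_eq Y j W
    have m2 := mm_upd Y j univ W
    have m3 := mm_upd Y j A W
    rw [hmu W hW] at m2
    by_cases hd : Disjoint W A
    · have h1 := hout W hW
      rw [miss_pos hd] at m3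
      rw [miss_pos (hd.mono_right hYA)] at m1
      rw [ind_not (fun h => disjoint_left.1 hd h haA), hD, lv_add,
        lv_eq_zero (M := Q) (fun e he h => absurd (hQin e he).1 (disjoint_left.1 hd h))] at h1
      simp only [gg] at h1 ⊢
      rw [m3]; rw [m1] at h1; linarith
    · have h1 := hcon false W hW (subset_univ _)
      rw [miss_neg hd] at m3
      simp only [F, hpf, gg] at h1 ⊢
      rw [m3]; rw [m2] at h1; linarith
  · intro W hW
    rw [lv_rev]
    have m1 := mm_eq Y j W
    have m2 := mm_upd Y j univ W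
    have m3 := mm_upd Y j A W
    rw [hmu W hW] at m2
    by_cases hd : Disjoint W A
    · have h1 := hin W hW
      have i0 := ind_nonneg t W
      rw [miss_pos hd] at m3
      rw [miss_pos (hd.mono_right hYA)] at m1
      rw [hD, ent_add, ent_eq_zero (M := Q)
        (fun e he _ h => absurd (hQin e he).2 (disjoint_left.1 hd h))] at h1
      simp only [gg] at h1 ⊢
      rw [m3]; rw [m1] at h1; linarith
    · have h1 := hcon true W hW (subset_univ _)
      rw [miss_neg hd] at m3
      simp only [F, hpt, gg] at h1 ⊢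
      rw [m3]; rw [m2] at h1; linarith
  · rintro ⟨OX, OY, h1, h2, h3⟩
    refine ⟨OX, fun i => OY i + if i = j then Q else 0, ?_, h2, ?_⟩
    · rw [hD, sum_add_distrib, sum_ite_eq' univ j, if_pos (mem_univ j), ← add_assoc]
      exact add_le_add_left h1 Q
    · intro i v
      obtain ⟨y, hy, h⟩ := h3 i v
      have h' : Rc (OY i + if i = j then Q else 0) v y :=
        h.mono (fun e he => Multiset.mem_add.2 (Or.inl he))
      by_cases hij : i = j
      · subst hij
        rw [Function.update_self] at hy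
        rcases mem_union.1 hy with hy | hy
        · exact ⟨y, hy, h'⟩
        · obtain ⟨e, he, rfl⟩ := Multiset.mem_map.1 (Multiset.mem_toFinset.1 hy)
          have h'' : Rc Q e.1 t := hQ.reach.2 e he
          refine ⟨t, ht, h'.trans (h''.mono (fun e he => Multiset.mem_add.2 (Or.inr ?_)))⟩
          rw [if_pos rfl]; exact he
      · rw [Function.update_of_ne hij] at hy
        exact ⟨y, hy, h'⟩

omit [DecidableEq ι] in
lemma choice {D : Multiset (V × V)} {X Y : ι → Finset V} {a : V} (hst : St D X Y a)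
    (hdef : ∃ U : Finset V, U.Nonempty ∧ lv D U < gg Y X U) :
    ∃ j, a ∉ Y j ∧ ∀ U : Finset V, ¬ Disjoint U (Y j) → gg Y X U ≤ lv D U := by
  obtain ⟨U, hU, hmax⟩ := exists_max_image
    (univ.filter fun U : Finset V => U.Nonempty ∧ lv D U < gg Y X U) card
    (by obtain ⟨U, h⟩ := hdef; exact ⟨U, mem_filter.2 ⟨mem_univ _, h⟩⟩)
  obtain ⟨-, hUn, hUd⟩ := mem_filter.1 hU
  have hmem : ∀ W : Finset V, W.Nonempty → lv D W < gg Y X W → a ∈ W := by
    intro W h1 h2
    by_contra h3
    have := hst.2 W h1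
    rw [ind_not h3] at this
    omega
  have haU := hmem U hUn hUd
  have hsub : ∀ W : Finset V, W.Nonempty → lv D W < gg Y X W → W ⊆ U := by
    intro W h1 h2
    have haW := hmem W h1 h2
    have h3 := hst.2 (U ∩ W) ⟨a, mem_inter.2 ⟨haU, haW⟩⟩
    have h4 := ind_le_one a (U ∩ W)
    have h5 := lv_sub D U W
    have h6 := gg_sup Y X U W
    have h7 := hmax (U ∪ W) (mem_filter.2 ⟨mem_univ _, hUn.mono subset_union_left, by omega⟩)
    have h8 : U = U ∪ W := eq_of_subset_of_card_le subset_union_left h7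
    rw [h8]; exact subset_union_right
  have hj : ∃ j, Disjoint U (Y j) := by
    by_contra hno
    push Not at hno
    have l0 := lv_nonneg D U
    have : mm Y U = 0 := sum_eq_zero fun j _ => miss_neg (hno j)
    simp only [gg, this] at hUd
    omega
  obtain ⟨j, hj⟩ := hj
  refine ⟨j, disjoint_left.1 hj haU, fun W hW => ?_⟩
  by_contra h
  have hWn : W.Nonempty := by
    obtain ⟨v, hv, -⟩ := not_disjoint_iff.1 hW
    exact ⟨v, hv⟩
  exact hW (hj.mono_left (hsub W hWn (by omega)))

/-- the potential -/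
def pot (X : ι → Finset V) : ℕ := ∑ i, (X i)ᶜ.card

lemma pot_upd {Y : ι → Finset V} {j : ι} {A : Finset V} (h : Y j ⊂ A) :
    pot (Function.update Y j A) < pot Y := by
  have h1 : Aᶜ.card < (Y j)ᶜ.card := card_lt_card (compl_ssubset_compl.2 h)
  refine sum_lt_sum (fun i _ => ?_) ⟨j, mem_univ _, by rw [Function.update_self]; exact h1⟩
  by_cases hij : i = j
  · subst hij; rw [Function.update_self]; exact h1.le
  · rw [Function.update_of_ne hij]

theorem scheme (n : ℕ) : ∀ (D : Multiset (V × V)) (X Y : ι → Finset V) (a : V),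
    pot X + pot Y < n → St D X Y a → Goal D X Y := by
  induction n with
  | zero => intro D X Y a h; omega
  | succ n ih =>
    have key : ∀ (D : Multiset (V × V)) (X Y : ι → Finset V) (a : V) (j : ι),
        pot X + pot Y < n + 1 → St D X Y a → a ∉ Y j →
        (∀ U : Finset V, ¬ Disjoint U (Y j) → gg Y X U ≤ lv D U) → Goal D X Y := by
      intro D X Y a j hn hst ha hch
      obtain ⟨D0, t, A, h1, h2, h3⟩ := step hst ha hch
      have := pot_upd h1
      exact h3 (ih (rev D0) (Function.update Y j A) X t (by omega) h2).rev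
    intro D X Y a hn hst
    by_cases hdef : ∃ U : Finset V, U.Nonempty ∧ lv D U < gg Y X U
    · obtain ⟨j, h1, h2⟩ := choice hst hdef
      exact key D X Y a j hn hst h1 h2
    push Not at hdef
    have hne : ∀ (U A : Finset V), ¬ Disjoint U A → U.Nonempty := by
      intro U A h
      obtain ⟨v, hv, -⟩ := not_disjoint_iff.1 h
      exact ⟨v, hv⟩
    by_cases hY : ∃ j b, b ∉ Y j
    · obtain ⟨j, b, hb⟩ := hY
      refine key D X Y b j hn ⟨hst.1, fun U hU => ?_⟩ hb (fun U hU => hdef U (hne _ _ hU))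
      have := hdef U hU
      have := ind_nonneg b U
      omega
    by_cases hX : ∃ i b, b ∉ X i
    · obtain ⟨i, b, hb⟩ := hX
      refine (key (rev D) Y X b i (by omega) ⟨fun W hW => ?_, fun U hU => ?_⟩ hb
        (fun U hU => ?_)).rev
      · rw [ent_rev]; exact hdef W hW
      · rw [lv_rev]
        have := hst.1 U hU
        have := ind_nonneg b U
        omega
      · rw [lv_rev]; exact hst.1 U (hne _ _ hU)
    push Not at hX hY
    exact ⟨fun _ => 0, fun _ => 0, by simp, fun i v => ⟨v, hX i v, Relation.ReflTransGen.refl⟩,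
      fun j v => ⟨v, hY j v, Relation.ReflTransGen.refl⟩⟩

/-- `k` arc-disjoint strongly connected spanning parts -/
theorem many_strong (k : ℕ) (D : Multiset (V × V)) (r : V)
    (hin : ∀ W : Finset V, W.Nonempty → r ∉ W → (k : ℤ) * (k + 3) - 1 ≤ ent D W)
    (hout : ∀ W : Finset V, W.Nonempty → r ∉ W → (k : ℤ) * (k + 3) - 1 ≤ lv D W) :
    ∃ A : Fin k → Multiset (V × V), ∑ i, A i ≤ D ∧ ∀ i u v, Rc (A i) u v := by
  have hg : ∀ W : Finset V, gg (fun _ : Fin k => {r}) (fun _ => {r}) W =
      if r ∈ W then -1 else (k : ℤ) * (k + 3) - 1 := by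
    intro W
    by_cases h : r ∈ W <;> simp [gg, mm, miss, h, add_comm]
  obtain ⟨OX, OY, h1, h2, h3⟩ := scheme _ D (fun _ : Fin k => {r}) (fun _ => {r}) r
    (Nat.lt_succ_self _)
    ⟨fun W hW => by
      rw [hg]
      have := ent_nonneg D W
      split_ifs with h
      · omega
      · exact hin W hW h,
    fun W hW => by
      rw [hg]
      have := lv_nonneg D W
      have := ind_nonneg r W
      split_ifs with h
      · omega
      · have := hout W hW h; omega⟩
  refine ⟨fun i => OX i + OY i, by rw [sum_add_distrib]; exact h1, fun i u v => ?_⟩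
  obtain ⟨x, hx, g1⟩ := h2 i v
  obtain ⟨y, hy, g2⟩ := h3 i u
  rw [mem_singleton] at hx hy
  subst hx; subst hy
  exact (g2.mono (fun e he => Multiset.mem_add.2 (Or.inr he))).trans
    (g1.mono (fun e he => Multiset.mem_add.2 (Or.inl he)))

omit [Fintype V] in
lemma lv_val (s : Finset (V × V)) (W : Finset V) :
    lv s.val W = ((s.filter fun e => e.1 ∈ W ∧ e.2 ∉ W).card : ℤ) := by
  rw [Finset.card_filter]
  push_cast
  rfl

lemma ent_compl (M : Multiset (V × V)) (W : Finset V) : ent M W = lv M Wᶜ := by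
  simp [ent, lv]

omit [DecidableEq V] in
theorem final (k : ℕ) (hk : 0 < k) (R : V → V → Prop)
    (h : ∀ S : Set V, S.Nonempty → S ≠ Set.univ →
      k * (k + 3) - 1 ≤ {p : V × V | p.1 ∈ S ∧ p.2 ∉ S ∧ R p.1 p.2}.ncard) :
    ∃ A : Fin k → V → V → Prop,
      (∀ u v, R u v ↔ ∃ i, A i u v) ∧
      (∀ i j u v, A i u v → A j u v → i = j) ∧
      (∀ i u v, Relation.ReflTransGen (A i) u v) := by
  classical
  rcases isEmpty_or_nonempty V with hV | ⟨⟨r⟩⟩
  · exact ⟨fun _ _ _ => False, fun u => isEmptyElim u, fun _ _ u => isEmptyElim u,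
      fun _ u => isEmptyElim u⟩
  set s : Finset (V × V) := Finset.univ.filter fun e => R e.1 e.2 with hs
  have hlv : ∀ W : Finset V, W.Nonempty → W ≠ Finset.univ →
      (k : ℤ) * (k + 3) - 1 ≤ lv s.val W := by
    intro W h1 h2
    have h3 := h (W : Set V) (Finset.coe_nonempty.2 h1) (fun h4 => h2 (Finset.coe_eq_univ.1 h4))
    have h5 : {p : V × V | p.1 ∈ (W : Set V) ∧ p.2 ∉ (W : Set V) ∧ R p.1 p.2} =
        ((s.filter fun e => e.1 ∈ W ∧ e.2 ∉ W : Finset (V × V)) : Set (V × V)) := by
      ext e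
      simp only [hs, Set.mem_ofPred_eq, Finset.coe_filter, Finset.mem_filter, Finset.mem_univ,
        true_and, Finset.mem_coe]
      tauto
    rw [h5, Set.ncard_coe_finset] at h3
    rw [lv_val]
    have h6 : k * (k + 3) ≤ (s.filter fun e => e.1 ∈ W ∧ e.2 ∉ W).card + 1 := by omega
    have h7 : ((k * (k + 3) : ℕ) : ℤ) ≤
        (((s.filter fun e => e.1 ∈ W ∧ e.2 ∉ W).card + 1 : ℕ) : ℤ) := by exact_mod_cast h6
    push_cast at h7
    linarith
  obtain ⟨A, hA, hR⟩ := many_strong k s.val r
    (fun W h1 h2 => by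
      rw [ent_compl]
      refine hlv _ ⟨r, Finset.mem_compl.2 h2⟩ (fun h3 => ?_)
      obtain ⟨v, hv⟩ := h1
      have : v ∈ Wᶜ := by rw [h3]; exact Finset.mem_univ v
      exact Finset.mem_compl.1 this hv)
    (fun W h1 h2 => hlv W h1 (fun h3 => h2 (by rw [h3]; exact Finset.mem_univ r)))
  have hadj : ∀ i, ∀ e ∈ A i, R e.1 e.2 := by
    intro i e he
    have : e ∈ s := Multiset.mem_of_le
      ((single_le_sum (f := A) (fun _ _ => Multiset.zero_le _) (mem_univ i)).trans hA) he
    exact (Finset.mem_filter.1 this).2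
  have hdisj : ∀ i j e, e ∈ A i → e ∈ A j → i = j := by
    intro i j e hi hj
    by_contra hij
    have h1 : ∑ l ∈ ({i, j} : Finset (Fin k)), A l ≤ ∑ l, A l :=
      sum_le_sum_of_subset_of_nonneg (subset_univ _) (fun _ _ _ => Multiset.zero_le _)
    rw [sum_pair hij] at h1
    have hnd : (A i + A j).Nodup := Multiset.nodup_of_le (h1.trans hA) s.nodup
    exact Multiset.disjoint_left.1 (Multiset.nodup_add.1 hnd).2.2 hi hj
  let z : Fin k := ⟨0, hk⟩
  refine ⟨fun i u v => (u, v) ∈ A i ∨ (i = z ∧ R u v ∧ ∀ j, (u, v) ∉ A j), fun u v => ?_, ?_,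
    fun i u v => rtg_mono (fun x y h' => Or.inl h') (hR i u v)⟩
  · constructor
    · intro h'
      by_cases h'' : ∃ j, (u, v) ∈ A j
      · obtain ⟨j, hj⟩ := h''
        exact ⟨j, Or.inl hj⟩
      · push Not at h''
        exact ⟨z, Or.inr ⟨rfl, h', h''⟩⟩
    · rintro ⟨i, h' | h'⟩
      · exact hadj i (u, v) h'
      · exact h'.2.1
  · rintro i j u v (hi | hi) (hj | hj)
    · exact hdisj i j _ hi hj
    · exact absurd hi (hj.2.2 i)
    · exact absurd hj (hi.2.2 j)
    · rw [hi.1, hj.1]

end Pool.Agent.Work.MP_820bad_co.BJY.Gen
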