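import Mathlib

set_option autoImplicit false

namespace Pool.Agent.Work.MP_820bad_co

open Finset

variable {V ι : Type*}

theorem rtg_mono {r p : V → V → Prop} (h : ∀ a b, r a b → p a b) {a b : V}
    (hab : Relation.ReflTransGen r a b) : Relation.ReflTransGen p a b := by
  induction hab with
  | refl => exact Relation.ReflTransGen.refl
  | tail _ hbc ih => exact ih.tail (h _ _ hbc)

theorem rtg_swap {r : V → V → Prop} {a b : V}
    (hab : Relation.ReflTransGen r a b) : Relation.ReflTransGen (fun x y => r y x) b a := by
  induction hab with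
  | refl => exact Relation.ReflTransGen.refl
  | tail _ hbc ih => exact ih.head hbc

/-- Number of arcs of `E` leaving `X`. -/
def dout [DecidableEq V] (E : Finset (V × V)) (X : Finset V) : ℕ :=
  (E.filter (fun a => a.1 ∈ X ∧ a.2 ∉ X)).card

/-- Number of root sets missing `X`. -/
def miss [DecidableEq V] [Fintype ι] (R : ι → Finset V) (X : Finset V) : ℕ :=
  (univ.filter (fun i => Disjoint (R i) X)).card

theorem dout_submod [DecidableEq V] (E : Finset (V × V)) (X Y : Finset V) :
    dout E (X ∩ Y) + dout E (X ∪ Y) ≤ dout E X + dout E Y := by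
  unfold dout
  simp only [card_filter, ← sum_add_distrib]
  refine sum_le_sum fun a _ => ?_
  by_cases h1 : a.1 ∈ X <;> by_cases h2 : a.1 ∈ Y <;> by_cases h3 : a.2 ∈ X <;>
    by_cases h4 : a.2 ∈ Y <;> simp [h1, h2, h3, h4]

theorem miss_term [DecidableEq V] (A X Y : Finset V) :
    ((if Disjoint A X then 1 else 0) + (if Disjoint A Y then 1 else 0) : ℕ) ≤
      (if Disjoint A (X ∩ Y) then 1 else 0) + (if Disjoint A (X ∪ Y) then 1 else 0) := by
  by_cases h1 : Disjoint A X <;> by_cases h2 : Disjoint A Y
  · have h3 : Disjoint A (X ∩ Y) := h1.mono_right inter_subset_left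
    have h4 : Disjoint A (X ∪ Y) := disjoint_union_right.2 ⟨h1, h2⟩
    simp [h1, h2, h3, h4]
  · have h3 : Disjoint A (X ∩ Y) := h1.mono_right inter_subset_left
    simp [h1, h2, h3]
  · have h3 : Disjoint A (X ∩ Y) := h2.mono_right inter_subset_right
    simp [h1, h2, h3]
  · simp [h1, h2]

theorem miss_supermod [DecidableEq V] [Fintype ι] (R : ι → Finset V) (X Y : Finset V) :
    miss R X + miss R Y ≤ miss R (X ∩ Y) + miss R (X ∪ Y) := by
  unfold miss
  simp only [card_filter, ← sum_add_distrib]
  exact sum_le_sum fun j _ => miss_term (R j) X Y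

theorem miss_supermod_lt [DecidableEq V] [Fintype ι] (R : ι → Finset V) (X Y : Finset V) (i : ι)
    (h1 : ¬ Disjoint (R i) X) (h2 : ¬ Disjoint (R i) Y) (h3 : Disjoint (R i) (X ∩ Y)) :
    miss R X + miss R Y < miss R (X ∩ Y) + miss R (X ∪ Y) := by
  unfold miss
  simp only [card_filter, ← sum_add_distrib]
  refine sum_lt_sum (fun j _ => miss_term (R j) X Y) ⟨i, mem_univ _, ?_⟩
  simp only [h1, h2, h3, if_true, if_false]
  omega

/-- The key step in the proof of Lovasz: one root set can be enlarged by one arc. -/
theorem exists_step [DecidableEq V] [Fintype V] [Fintype ι] [DecidableEq ι]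
    (E : Finset (V × V)) (R : ι → Finset V)
    (hE : ∀ X : Finset V, X.Nonempty → miss R X ≤ dout E X) (i : ι) (hi : R i ≠ univ) :
    ∃ u v, (u, v) ∈ E ∧ u ∉ R i ∧ v ∈ R i ∧ ∀ X : Finset V, X.Nonempty →
      miss (Function.update R i (insert u (R i))) X ≤ dout (E.erase (u, v)) X := by
  classical
  obtain ⟨x0, hx0⟩ : ∃ x, x ∉ R i := by
    by_contra h
    push Not at h
    exact hi (eq_univ_iff_forall.2 h)
  have hu0 : dout E univ = 0 := by simp [dout]
  have hm0 : miss R univ = 0 := by
    have := hE univ ⟨x0, mem_univ _⟩
    omega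
  have hRi : ¬ Disjoint (R i) univ := by
    intro h
    have : i ∈ univ.filter (fun i => Disjoint (R i) univ) := by
      simp only [mem_filter, mem_univ, true_and]; exact h
    unfold miss at hm0
    rw [card_eq_zero] at hm0
    rw [hm0] at this
    simp at this
  let dang : Finset (Finset V) := univ.filter (fun X : Finset V =>
    dout E X = miss R X ∧ ¬ Disjoint (R i) X ∧ ∃ x ∈ X, x ∉ R i)
  have hne : dang.Nonempty := ⟨univ, by
    simp only [dang, mem_filter, mem_univ, true_and]
    exact ⟨by omega, hRi, x0, hx0⟩⟩
  obtain ⟨X, hX, hmin⟩ := exists_min_image dang card hne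
  simp only [dang, mem_filter, mem_univ, true_and] at hX hmin
  obtain ⟨hXt, hXi, x1, hx1, hx1'⟩ := hX
  have hY : (X \ R i).Nonempty := ⟨x1, mem_sdiff.2 ⟨hx1, hx1'⟩⟩
  have h1 : miss R X < miss R (X \ R i) := by
    unfold miss
    refine card_lt_card ⟨?_, ?_⟩
    · intro j hj
      simp only [mem_filter, mem_univ, true_and] at hj ⊢
      exact hj.mono_right sdiff_subset
    · intro h
      have : i ∈ univ.filter (fun j => Disjoint (R j) (X \ R i)) := by
        simp only [mem_filter, mem_univ, true_and]; exact disjoint_sdiff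
      have := h this
      simp only [mem_filter, mem_univ, true_and] at this
      exact hXi this
  have h2 := hE _ hY
  obtain ⟨u, v, huv, huX, huR, hvX, hvR⟩ :
      ∃ u v, (u, v) ∈ E ∧ u ∈ X ∧ u ∉ R i ∧ v ∈ X ∧ v ∈ R i := by
    by_contra hc
    push Not at hc
    have : dout E (X \ R i) ≤ dout E X := by
      unfold dout
      refine card_le_card fun a ha => ?_
      simp only [mem_filter, mem_sdiff, not_and, not_not] at ha ⊢
      obtain ⟨haE, ⟨h3, h4⟩, h5⟩ := ha
      refine ⟨haE, h3, fun h6 => ?_⟩
      exact hc a.1 a.2 haE h3 h4 h6 (h5 h6)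
    omega
  refine ⟨u, v, huv, huR, hvR, fun Y hYne => ?_⟩
  have hle : miss (Function.update R i (insert u (R i))) Y ≤ miss R Y := by
    unfold miss
    refine card_le_card fun j hj => ?_
    simp only [mem_filter, mem_univ, true_and] at hj ⊢
    by_cases hji : j = i
    · subst hji
      rw [Function.update_self] at hj
      exact hj.mono_left (subset_insert _ _)
    · rwa [Function.update_of_ne hji] at hj
  have hYE := hE Y hYne
  by_cases hc : u ∈ Y ∧ v ∉ Y
  · have hd : dout E Y = dout (E.erase (u, v)) Y + 1 := by
      unfold dout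
      rw [filter_erase, card_erase_add_one]
      simp only [mem_filter]
      exact ⟨huv, hc⟩
    by_cases hYi : Disjoint (R i) Y
    · have : miss (Function.update R i (insert u (R i))) Y < miss R Y := by
        unfold miss
        refine card_lt_card ⟨?_, ?_⟩
        · intro j hj
          simp only [mem_filter, mem_univ, true_and] at hj ⊢
          by_cases hji : j = i
          · subst hji
            exact hYi
          · rwa [Function.update_of_ne hji] at hj
        · intro h
          have : i ∈ univ.filter (fun j => Disjoint (R j) Y) := by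
            simp only [mem_filter, mem_univ, true_and]; exact hYi
          have := h this
          simp only [mem_filter, mem_univ, true_and, Function.update_self] at this
          exact disjoint_left.1 this (mem_insert_self _ _) hc.1
      omega
    · by_contra hlt
      have hYt : dout E Y = miss R Y := by omega
      have hI : (X ∩ Y).Nonempty := ⟨u, mem_inter.2 ⟨huX, hc.1⟩⟩
      have hU : (X ∪ Y).Nonempty := ⟨u, mem_union.2 (Or.inl huX)⟩
      have a1 := hE _ hI
      have a2 := hE _ hU
      have a3 := dout_submod E X Y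
      have a4 := miss_supermod R X Y
      have a5 : ¬ Disjoint (R i) (X ∩ Y) := fun h => by
        have := miss_supermod_lt R X Y i hXi hYi h
        omega
      have a6 := hmin (X ∩ Y) ⟨by omega, a5, u, mem_inter.2 ⟨huX, hc.1⟩, huR⟩
      have a7 : (X ∩ Y).card < X.card :=
        card_lt_card ⟨inter_subset_left, fun h => hc.2 (mem_inter.1 (h hvX)).2⟩
      omega
  · have hd : dout (E.erase (u, v)) Y = dout E Y := by
      unfold dout
      rw [filter_erase, erase_eq_of_notMem]
      simp only [mem_filter]
      exact fun h => hc h.2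
    omega

/-- The disjoint branchings theorem of Edmonds, in the form with root sets. -/
theorem edmonds [DecidableEq V] [Fintype V] [Fintype ι] [DecidableEq ι] (n : ℕ) :
    ∀ (E : Finset (V × V)) (R : ι → Finset V), ∑ i, (R i)ᶜ.card = n →
      (∀ X : Finset V, X.Nonempty → miss R X ≤ dout E X) →
      ∃ B : ι → Finset (V × V), (∀ i, B i ⊆ E) ∧ (∀ i j, i ≠ j → Disjoint (B i) (B j)) ∧
        ∀ i v, ∃ w ∈ R i, Relation.ReflTransGen (fun a b => (a, b) ∈ B i) v w := by
  induction n with
  | zero =>
    intro E R hn _
    refine ⟨fun _ => ∅, fun _ => empty_subset _, fun _ _ _ => disjoint_empty_left _,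
      fun i v => ⟨v, ?_, Relation.ReflTransGen.refl⟩⟩
    have h1 : (R i)ᶜ.card = 0 := (sum_eq_zero_iff.1 hn) i (mem_univ _)
    rw [card_eq_zero] at h1
    by_contra h
    have : v ∈ (R i)ᶜ := mem_compl.2 h
    rw [h1] at this
    simp at this
  | succ n ih =>
    intro E R hn hE
    obtain ⟨i, hi⟩ : ∃ i, R i ≠ univ := by
      by_contra h
      push Not at h
      simp [h] at hn
    obtain ⟨u, v, huv, hu, hv, hstep⟩ := exists_step E R hE i hi
    have hsum : ∑ j, (Function.update R i (insert u (R i)) j)ᶜ.card = n := by
      have e1 := add_sum_erase univ (fun j => (R j)ᶜ.card) (mem_univ i)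
      have e2 := add_sum_erase univ
        (fun j => (Function.update R i (insert u (R i)) j)ᶜ.card) (mem_univ i)
      have e3 : ∑ j ∈ univ.erase i, (Function.update R i (insert u (R i)) j)ᶜ.card =
          ∑ j ∈ univ.erase i, (R j)ᶜ.card :=
        sum_congr rfl fun j hj => by rw [Function.update_of_ne (ne_of_mem_erase hj)]
      have e4 : (insert u (R i))ᶜ.card + 1 = (R i)ᶜ.card := by
        rw [compl_insert, card_erase_add_one (mem_compl.2 hu)]
      simp only [Function.update_self] at e2
      omega
    obtain ⟨B, hB1, hB2, hB3⟩ := ih _ _ hsum hstep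
    have hnot : ∀ j, (u, v) ∉ B j := fun j h => by simpa using hB1 j h
    refine ⟨Function.update B i (insert (u, v) (B i)), fun j => ?_, fun j k hjk => ?_,
      fun j x => ?_⟩
    · by_cases hji : j = i
      · subst hji
        rw [Function.update_self]
        exact insert_subset huv ((hB1 j).trans (erase_subset _ _))
      · rw [Function.update_of_ne hji]
        exact (hB1 j).trans (erase_subset _ _)
    · by_cases hji : j = i
      · subst hji
        rw [Function.update_self, Function.update_of_ne hjk.symm, disjoint_insert_left]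
        exact ⟨hnot k, hB2 _ _ hjk⟩
      · rw [Function.update_of_ne hji]
        by_cases hki : k = i
        · subst hki
          rw [Function.update_self, disjoint_insert_right]
          exact ⟨hnot j, hB2 _ _ hjk⟩
        · rw [Function.update_of_ne hki]
          exact hB2 _ _ hjk
    · obtain ⟨w, hw, hxw⟩ := hB3 j x
      by_cases hji : j = i
      · subst hji
        rw [Function.update_self] at hw ⊢
        have hxw' : Relation.ReflTransGen (fun a b => (a, b) ∈ insert (u, v) (B j)) x w :=
          rtg_mono (fun a b h => mem_insert_of_mem h) hxw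
        rcases mem_insert.1 hw with rfl | hw
        · exact ⟨v, hv, hxw'.tail (mem_insert_self _ _)⟩
        · exact ⟨w, hw, hxw'⟩
      · rw [Function.update_of_ne hji] at hw ⊢
        exact ⟨w, hw, hxw⟩

/-- Arc-disjoint spanning in-branchings with arbitrary roots in a highly arc-strong digraph. -/
theorem branchings [DecidableEq V] [Fintype V] [Fintype ι] [DecidableEq ι]
    (E : Finset (V × V)) (x : ι → V)
    (hE : ∀ X : Finset V, X.Nonempty → X ≠ univ → Fintype.card ι ≤ dout E X) :
    ∃ B : ι → Finset (V × V), (∀ i, B i ⊆ E) ∧ (∀ i j, i ≠ j → Disjoint (B i) (B j)) ∧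
      ∀ i v, Relation.ReflTransGen (fun a b => (a, b) ∈ B i) v (x i) := by
  obtain ⟨B, h1, h2, h3⟩ := edmonds _ E (fun i => {x i}) rfl (fun X hX => by
    by_cases hu : X = univ
    · subst hu
      have : miss (fun i => ({x i} : Finset V)) univ = 0 := by
        simp [miss]
      omega
    · exact (card_le_univ _).trans (hE X hX hu))
  refine ⟨B, h1, h2, fun i v => ?_⟩
  obtain ⟨w, hw, h⟩ := h3 i v
  rw [mem_singleton] at hw
  exact hw ▸ h

end Pool.Agent.Work.MP_820bad_co
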