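import Pool.Agent.Work.MP_820bad_co.Main

set_option autoImplicit false

namespace Pool.Agent.Work.MP_820bad_co

open Finset

variable {V : Type*}

/-- In-neighbours other than the vertex itself. -/
noncomputable def nb [Fintype V] (G : V → V → Prop) (v : V) : Finset V :=
  (Set.toFinite {u | u ≠ v ∧ G u v}).toFinset

theorem mem_nb [Fintype V] (G : V → V → Prop) (u v : V) : u ∈ nb G v ↔ u ≠ v ∧ G u v := by
  simp [nb]

theorem card_nb [Fintype V] (G : V → V → Prop) (v : V) :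
    (nb G v).card = {u | u ≠ v ∧ G u v}.ncard := by
  rw [nb, Set.ncard_eq_toFinset_card]

theorem final [DecidableEq V] [Fintype V] (G : V → V → Prop) (k q : ℕ) (hk : 0 < k)
    (hK : ∀ S : Set V, S.Nonempty → S ≠ Set.univ →
      2 * (k * q + 4 * k) ≤ {p : V × V | p.1 ∈ S ∧ p.2 ∉ S ∧ G p.1 p.2}.ncard)
    (Hi : (∀ v, 2 * (k * q + 4 * k) ≤ (nb G v).card) →
      Hubs (nb G) (4 * k) (k * q + 4 * k) q)
    (Ho : (∀ v, 2 * (k * q + 4 * k) ≤ (nb (fun a b => G b a) v).card) →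
      Hubs (nb (fun a b => G b a)) (4 * k) (k * q + 4 * k) q) :
    ∃ A : Fin k → V → V → Prop, (∀ u v, G u v ↔ ∃ i, A i u v) ∧
      (∀ i j u v, A i u v → A j u v → i = j) ∧ ∀ i u v, Relation.ReflTransGen (A i) u v := by
  classical
  suffices h : ∃ A : Fin k → V → V → Prop, (∀ i u v, A i u v → G u v) ∧
      (∀ i j u v, A i u v → A j u v → i = j) ∧ ∀ i u v, Relation.ReflTransGen (A i) u v by
    obtain ⟨A, h1, h2, h3⟩ := h
    refine ⟨fun i u v => A i u v ∨ (i = ⟨0, hk⟩ ∧ G u v ∧ ∀ j, ¬ A j u v), fun u v => ?_, ?_,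
      fun i u v => rtg_mono (fun a b h => Or.inl h) (h3 i u v)⟩
    · constructor
      · intro h
        by_cases hA : ∃ j, A j u v
        · obtain ⟨j, hj⟩ := hA
          exact ⟨j, Or.inl hj⟩
        · exact ⟨⟨0, hk⟩, Or.inr ⟨rfl, h, fun j hj => hA ⟨j, hj⟩⟩⟩
      · rintro ⟨i, h | h⟩
        · exact h1 i u v h
        · exact h.2.1
    · rintro i j u v (h | h) (h' | h')
      · exact h2 i j u v h h'
      · exact absurd h (h'.2.2 i)
      · exact absurd h' (h.2.2 j)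
      · rw [h.1, h'.1]
  rcases subsingleton_or_nontrivial V with hV | hV
  · refine ⟨fun _ _ _ => False, by simp, by simp, fun i u v => ?_⟩
    rw [Subsingleton.elim u v]
  obtain ⟨r⟩ : Nonempty V := inferInstance
  have di : ∀ v, 2 * (k * q + 4 * k) ≤ (nb G v).card := fun v => by
    obtain ⟨w, hw⟩ := exists_ne v
    refine (hK {v}ᶜ ⟨w, hw⟩ (fun h => (h ▸ Set.mem_univ v : v ∈ ({v}ᶜ : Set V)) rfl)).trans ?_
    rw [card_nb]
    refine Set.ncard_le_ncard_of_injOn Prod.fst ?_ ?_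
    · rintro ⟨a, b⟩ ⟨h1, h2, h3⟩
      obtain rfl : b = v := not_not.1 h2
      exact ⟨h1, h3⟩
    · rintro ⟨a, b⟩ ⟨_, h2, _⟩ ⟨c, d⟩ ⟨_, h4, _⟩ e
      obtain rfl : b = v := not_not.1 h2
      obtain rfl : d = b := not_not.1 h4
      obtain rfl : a = c := e
      rfl
  have dO : ∀ v, 2 * (k * q + 4 * k) ≤ (nb (fun a b => G b a) v).card := fun v => by
    obtain ⟨w, hw⟩ := exists_ne v
    refine (hK {v} ⟨v, rfl⟩ (fun h => hw (h ▸ Set.mem_univ w : w ∈ ({v} : Set V)))).trans ?_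
    rw [card_nb]
    refine Set.ncard_le_ncard_of_injOn Prod.snd ?_ ?_
    · rintro ⟨a, b⟩ ⟨h1, h2, h3⟩
      obtain rfl : a = v := h1
      exact ⟨h2, h3⟩
    · rintro ⟨a, b⟩ ⟨h2, _, _⟩ ⟨c, d⟩ ⟨h4, _, _⟩ e
      obtain rfl : a = v := h2
      obtain rfl : c = a := h4
      obtain rfl : b = d := e
      rfl
  obtain ⟨A, h1, h2, h3⟩ := main_hubs (C := Fin k) r (univ.filter (fun a : V × V => G a.1 a.2))
    k q (Fintype.card_fin k) hk (nb G) (nb (fun a b => G b a))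
    (fun u v h => mem_filter.2 ⟨mem_univ _, ((mem_nb _ _ _).1 h).2⟩)
    (fun u v h => mem_filter.2 ⟨mem_univ _, ((mem_nb _ _ _).1 h).2⟩)
    (fun X hX hX' => by
      have h := hK X (by simpa using hX) (by simpa using hX')
      have e : {p : V × V | p.1 ∈ (X : Set V) ∧ p.2 ∉ (X : Set V) ∧ G p.1 p.2} =
          ↑((univ.filter (fun a : V × V => G a.1 a.2)).filter
            (fun a => a.1 ∈ X ∧ a.2 ∉ X)) := by
        ext p
        simp only [Set.mem_ofPred_eq, coe_filter, mem_filter, mem_univ, true_and, mem_coe]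
        tauto
      rw [e, Set.ncard_coe_finset] at h
      unfold dout
      omega) di dO (Hi di) (Ho dO)
  exact ⟨A, fun i u v h => (mem_filter.1 (h1 i u v h)).2, h2, h3⟩

theorem final_indep [Fintype V] (G : V → V → Prop) (k a : ℕ) (hk : 0 < k)
    (ha : ∀ I : Set V, (∀ u ∈ I, ∀ v ∈ I, u ≠ v → ¬ G u v) → I.ncard ≤ a)
    (hK : ∀ S : Set V, S.Nonempty → S ≠ Set.univ →
      24 * k ^ 2 * a + 8 * k ≤ {p : V × V | p.1 ∈ S ∧ p.2 ∉ S ∧ G p.1 p.2}.ncard) :
    ∃ A : Fin k → V → V → Prop, (∀ u v, G u v ↔ ∃ i, A i u v) ∧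
      (∀ i j u v, A i u v → A j u v → i = j) ∧ ∀ i u v, Relation.ReflTransGen (A i) u v := by
  classical
  refine final G k (3 * (4 * k) * a) hk (fun S h1 h2 => le_trans (le_of_eq (by ring)) (hK S h1 h2))
    (fun hd => hubs_indep _ a _ _ (by omega) hd fun I hI => ?_)
    (fun hd => hubs_indep _ a _ _ (by omega) hd fun I hI => ?_)
  · rw [← Set.ncard_coe_finset]
    exact ha I fun u hu v hv huv h => hI u hu v hv huv ((mem_nb _ _ _).2 ⟨huv, h⟩)
  · rw [← Set.ncard_coe_finset]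
    exact ha I fun u hu v hv huv h => hI v hv u hu huv.symm ((mem_nb _ _ _).2 ⟨huv.symm, h⟩)

theorem final_harm [Fintype V] (G : V → V → Prop) (k K : ℕ) (hk : 0 < k) (s : ℝ)
    (hi : ∑ v, (1 : ℝ) / {u | u ≠ v ∧ G u v}.ncard ≤ s)
    (ho : ∑ v, (1 : ℝ) / {u | u ≠ v ∧ G v u}.ncard ≤ s)
    (hs : 16 * (k : ℝ) ^ 2 * s + 10 * k ≤ K)
    (hK : ∀ S : Set V, S.Nonempty → S ≠ Set.univ →
      K ≤ {p : V × V | p.1 ∈ S ∧ p.2 ∉ S ∧ G p.1 p.2}.ncard) :
    ∃ A : Fin k → V → V → Prop, (∀ u v, G u v ↔ ∃ i, A i u v) ∧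
      (∀ i j u v, A i u v → A j u v → i = j) ∧ ∀ i u v, Relation.ReflTransGen (A i) u v := by
  classical
  have hs0 : 0 ≤ s := le_trans (sum_nonneg fun v _ => by positivity) hi
  have hk' : (0 : ℝ) < k := by exact_mod_cast hk
  have h1 : 8 * k * s ≤ (⌈8 * (k : ℝ) * s⌉₊ : ℝ) := Nat.le_ceil _
  have h2 : (⌈8 * (k : ℝ) * s⌉₊ : ℝ) < 8 * k * s + 1 := Nat.ceil_lt_add_one (by positivity)
  generalize ⌈8 * (k : ℝ) * s⌉₊ = q at h1 h2
  have h3 : 2 * (k * q + 4 * k) ≤ K := by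
    have : (2 * (k * q + 4 * k) : ℝ) ≤ K := by nlinarith
    exact_mod_cast this
  refine final G k q hk (fun S e1 e2 => h3.trans (hK S e1 e2))
    (fun hd => hubs_harm _ _ _ _ (by omega) hd ?_) (fun hd => hubs_harm _ _ _ _ (by omega) hd ?_)
  · simp only [card_nb]
    push_cast
    nlinarith
  · simp only [card_nb]
    push_cast
    nlinarith

end Pool.Agent.Work.MP_820bad_co
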