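import Mathlib

set_option autoImplicit false

namespace Pool.Agent.Work.MP_820bad_co

open Finset

variable {V : Type*}

/-- Choice of hubs. `N v` is the set of in-neighbours of `v`. -/
theorem exists_hubs [DecidableEq V] (N : V → Finset V) (t T : ℕ) (hT : 0 < T)
    (hN : ∀ v, 2 * T ≤ (N v).card) (n : ℕ) :
    ∀ (s : ℕ) (U W : Finset V), s + U.card ≤ n →
      ∑ v ∈ U, ((t - (N v ∩ W).card : ℕ) : ℝ) / (N v).card ≤ s / 2 →
      ∃ (W' : Finset V) (ρ : V → ℕ), W ⊆ W' ∧ W'.card ≤ W.card + s ∧
        ∀ v ∈ U, v ∈ W' ∨ t ≤ (N v ∩ W').card ∨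
          T ≤ ((N v).filter (fun u => u ∉ U ∨ ρ u < ρ v)).card := by
  induction n with
  | zero =>
    intro s U W hn _
    have : U = ∅ := card_eq_zero.1 (by omega)
    subst this
    exact ⟨W, fun _ => 0, Subset.rfl, by omega, by simp⟩
  | succ n ih =>
    intro s U W hn hpot
    rcases U.eq_empty_or_nonempty with rfl | hU
    · exact ⟨W, fun _ => 0, Subset.rfl, by omega, by simp⟩
    by_cases hc : ∃ v0 ∈ U, v0 ∈ W ∨ t ≤ (N v0 ∩ W).card ∨
        T ≤ ((N v0).filter (fun u => u ∉ U)).card
    · obtain ⟨v0, hv0, hc⟩ := hc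
      have hcard := card_erase_add_one hv0
      obtain ⟨W', ρ, h1, h2, h3⟩ := ih s (U.erase v0) W (by omega)
        (le_trans (sum_le_sum_of_subset_of_nonneg (erase_subset _ _)
          (fun v _ _ => by positivity)) hpot)
      refine ⟨W', fun u => if u = v0 then 0 else ρ u + 1, h1, h2, fun v hv => ?_⟩
      by_cases hvv : v = v0
      · subst hvv
        rcases hc with hc | hc | hc
        · exact Or.inl (h1 hc)
        · exact Or.inr (Or.inl (hc.trans (card_le_card (inter_subset_inter_left h1))))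
        · refine Or.inr (Or.inr (hc.trans (card_le_card fun u hu => ?_)))
          rw [mem_filter] at hu ⊢
          exact ⟨hu.1, Or.inl hu.2⟩
      · rcases h3 v (mem_erase.2 ⟨hvv, hv⟩) with h | h | h
        · exact Or.inl h
        · exact Or.inr (Or.inl h)
        · refine Or.inr (Or.inr (h.trans (card_le_card fun u hu => ?_)))
          rw [mem_filter] at hu ⊢
          refine ⟨hu.1, ?_⟩
          by_cases huv : u = v0
          · right
            simp [huv, hvv]
          · rcases hu.2 with h' | h'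
            · left
              exact fun h'' => h' (mem_erase.2 ⟨huv, h''⟩)
            · right
              simp [huv, hvv, h']
    · push Not at hc
      have hpos : ∀ v, (0 : ℝ) < (N v).card := fun v => by
        have := hN v
        exact_mod_cast (by omega : 0 < (N v).card)
      obtain ⟨u, hu, hg⟩ : ∃ u ∈ U, (1 / 2 : ℝ) ≤
          ∑ v ∈ U, (if u ∈ N v then (1 : ℝ) else 0) / (N v).card := by
        refine exists_le_of_sum_le hU ?_
        rw [sum_comm]
        refine sum_le_sum fun v hv => ?_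
        rw [← sum_div, le_div_iff₀ (hpos v), sum_boole]
        have e1 := card_filter_add_card_filter_not (s := N v) (fun u => u ∈ U)
        have e2 : (U.filter (fun u => u ∈ N v)).card = ((N v).filter (fun u => u ∈ U)).card := by
          rw [filter_mem_eq_inter, filter_mem_eq_inter, inter_comm]
        have e3 := (hc v hv).2.2
        have e4 := hN v
        have e5 : (N v).card ≤ 2 * (U.filter (fun u => u ∈ N v)).card := by omega
        have e6 : ((N v).card : ℝ) ≤ 2 * (U.filter (fun u => u ∈ N v)).card := by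
          exact_mod_cast e5
        linarith
      have huW : u ∉ W := (hc u hu).1
      have hnew : ∑ v ∈ U, ((t - (N v ∩ insert u W).card : ℕ) : ℝ) / (N v).card +
          ∑ v ∈ U, (if u ∈ N v then (1 : ℝ) else 0) / (N v).card =
          ∑ v ∈ U, ((t - (N v ∩ W).card : ℕ) : ℝ) / (N v).card := by
        rw [← sum_add_distrib]
        refine sum_congr rfl fun v hv => ?_
        rw [← add_div]
        congr 1
        by_cases huv : u ∈ N v
        · rw [if_pos huv, inter_insert_of_mem huv,
            card_insert_of_notMem (fun h => huW (mem_inter.1 h).2)]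
          have := (hc v hv).2.1
          have e : t - ((N v ∩ W).card + 1) + 1 = t - (N v ∩ W).card := by omega
          exact_mod_cast e
        · rw [if_neg huv, inter_insert_of_notMem huv, add_zero]
      have h0 : (0 : ℝ) ≤ ∑ v ∈ U, ((t - (N v ∩ insert u W).card : ℕ) : ℝ) / (N v).card :=
        sum_nonneg fun v _ => by positivity
      cases s with
      | zero =>
        simp only [Nat.cast_zero, zero_div] at hpot
        linarith
      | succ s =>
        obtain ⟨W', ρ, h1, h2, h3⟩ := ih s U (insert u W) (by omega)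
          (by push_cast at hpot; linarith)
        rw [card_insert_of_notMem huW] at h2
        exact ⟨W', ρ, (subset_insert _ _).trans h1, by omega, h3⟩

/-- A greedy independent set leaves little weight undominated. -/
theorem exists_indep [DecidableEq V] (N : V → Finset V) (n : ℕ) :
    ∀ X : Finset V, X.card ≤ n → ∃ I ⊆ X, (∀ u ∈ I, ∀ v ∈ I, u ≠ v → u ∉ N v) ∧
      ∑ v ∈ (X \ I).filter (fun v => Disjoint (N v) I), (1 : ℝ) / (N v).card ≤ I.card := by
  induction n with
  | zero =>
    intro X hX
    have : X = ∅ := card_eq_zero.1 (by omega)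
    subst this
    exact ⟨∅, Subset.rfl, by simp, by simp⟩
  | succ n ih =>
    intro X hX
    rcases X.eq_empty_or_nonempty with rfl | hne
    · exact ⟨∅, Subset.rfl, by simp, by simp⟩
    obtain ⟨h, hh, hmin⟩ := exists_min_image X (fun v => (N v).card) hne
    let X' := X.filter (fun v => v ≠ h ∧ v ∉ N h ∧ h ∉ N v)
    have hX' : X'.card < X.card :=
      card_lt_card ⟨filter_subset _ _, fun hs => by simpa [X'] using hs hh⟩
    obtain ⟨I, hI1, hI2, hI3⟩ := ih X' (by omega)
    have hI4 : ∀ v ∈ I, v ∈ X ∧ v ≠ h ∧ v ∉ N h ∧ h ∉ N v := fun v hv => by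
      simpa [X'] using hI1 hv
    have hhI : h ∉ I := fun hc => (hI4 h hc).2.1 rfl
    refine ⟨insert h I, insert_subset hh fun v hv => (hI4 v hv).1, ?_, ?_⟩
    · intro u hu v hv huv
      rcases mem_insert.1 hu with rfl | hu' <;> rcases mem_insert.1 hv with rfl | hv'
      · exact absurd rfl huv
      · exact (hI4 v hv').2.2.2
      · exact (hI4 u hu').2.2.1
      · exact hI2 u hu' v hv' huv
    · have hsub : (X \ insert h I).filter (fun v => Disjoint (N v) (insert h I)) ⊆
          (X' \ I).filter (fun v => Disjoint (N v) I) ∪ (X ∩ N h) := by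
        intro v hv
        simp only [mem_filter, mem_sdiff, mem_insert, not_or, disjoint_insert_right] at hv
        by_cases hvN : v ∈ N h
        · exact mem_union_right _ (mem_inter.2 ⟨hv.1.1, hvN⟩)
        · refine mem_union_left _ ?_
          simp only [X', mem_filter, mem_sdiff]
          exact ⟨⟨⟨hv.1.1, hv.1.2.1, hvN, hv.2.1⟩, hv.1.2.2⟩, hv.2.2⟩
      have h2 : ∑ v ∈ X ∩ N h, (1 : ℝ) / (N v).card ≤ 1 := by
        rcases (N h).eq_empty_or_nonempty with he | he
        · simp [he]
        have hp : (0 : ℝ) < (N h).card := by exact_mod_cast he.card_pos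
        calc ∑ v ∈ X ∩ N h, (1 : ℝ) / (N v).card ≤ ∑ v ∈ X ∩ N h, (1 : ℝ) / (N h).card :=
              sum_le_sum fun v hv => one_div_le_one_div_of_le hp
                (by exact_mod_cast hmin v (mem_inter.1 hv).1)
          _ ≤ ∑ v ∈ N h, (1 : ℝ) / (N h).card :=
              sum_le_sum_of_subset_of_nonneg inter_subset_right (fun v _ _ => by positivity)
          _ = 1 := by
              rw [sum_const, nsmul_eq_mul]
              field_simp
      have h3 := sum_le_sum_of_subset_of_nonneg (f := fun v => (1 : ℝ) / (N v).card) hsub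
        (fun v _ _ => by positivity)
      have h4 := sum_union_inter (s₁ := (X' \ I).filter (fun v => Disjoint (N v) I))
        (s₂ := X ∩ N h) (f := fun v => (1 : ℝ) / (N v).card)
      have h5 : (0 : ℝ) ≤ ∑ v ∈ (X' \ I).filter (fun v => Disjoint (N v) I) ∩ (X ∩ N h),
          (1 : ℝ) / (N v).card := sum_nonneg fun v _ => by positivity
      rw [card_insert_of_notMem hhI]
      push_cast
      linarith

/-- Repeating the greedy choice `t` times. -/
theorem exists_prehubs [DecidableEq V] [Fintype V] (N : V → Finset V) (a : ℕ)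
    (ha : ∀ I : Finset V, (∀ u ∈ I, ∀ v ∈ I, u ≠ v → u ∉ N v) → I.card ≤ a) (t : ℕ) :
    ∃ W : Finset V, W.card ≤ t * a ∧
      ∑ v ∈ Wᶜ, ((t - (N v ∩ W).card : ℕ) : ℝ) / (N v).card ≤ t * a := by
  induction t with
  | zero => exact ⟨∅, by simp, by simp⟩
  | succ t ih =>
    obtain ⟨W, h1, h2⟩ := ih
    obtain ⟨I, hI1, hI2, hI3⟩ := exists_indep N _ Wᶜ le_rfl
    have hIa := ha I hI2
    refine ⟨W ∪ I, (card_union_le _ _).trans (by rw [add_mul]; omega), ?_⟩
    have e1 : (W ∪ I)ᶜ = Wᶜ \ I := by
      ext v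
      simp
    have hIa' : (I.card : ℝ) ≤ a := by exact_mod_cast hIa
    have h3 : ∑ v ∈ Wᶜ \ I, ((t - (N v ∩ W).card : ℕ) : ℝ) / (N v).card ≤ t * a :=
      le_trans (sum_le_sum_of_subset_of_nonneg sdiff_subset (fun v _ _ => by positivity)) h2
    rw [sum_filter] at hI3
    have h4 : ∑ v ∈ Wᶜ \ I, ((t + 1 - (N v ∩ (W ∪ I)).card : ℕ) : ℝ) / (N v).card ≤
        ∑ v ∈ Wᶜ \ I, ((t - (N v ∩ W).card : ℕ) : ℝ) / (N v).card +
        ∑ v ∈ Wᶜ \ I, (if Disjoint (N v) I then (1 : ℝ) / (N v).card else 0) := by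
      rw [← sum_add_distrib]
      refine sum_le_sum fun v _ => ?_
      have hs : N v ∩ W ⊆ N v ∩ (W ∪ I) := inter_subset_inter_left subset_union_left
      by_cases hd : Disjoint (N v) I
      · rw [if_pos hd, ← add_div]
        refine div_le_div_of_nonneg_right ?_ (by positivity)
        have := card_le_card hs
        have e : t + 1 - (N v ∩ (W ∪ I)).card ≤ t - (N v ∩ W).card + 1 := by omega
        exact_mod_cast e
      · rw [if_neg hd, add_zero]
        refine div_le_div_of_nonneg_right ?_ (by positivity)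
        obtain ⟨x, hx1, hx2⟩ := not_disjoint_iff.1 hd
        have : (N v ∩ W).card < (N v ∩ (W ∪ I)).card := card_lt_card ⟨hs, fun h => by
          have := h (mem_inter.2 ⟨hx1, mem_union_right _ hx2⟩)
          exact mem_compl.1 (hI1 hx2) (mem_inter.1 this).2⟩
        have e : t + 1 - (N v ∩ (W ∪ I)).card ≤ t - (N v ∩ W).card := by omega
        exact_mod_cast e
    rw [e1]
    push_cast
    linarith

/-- The hub property used below. -/
def Hubs [DecidableEq V] (N : V → Finset V) (t T q : ℕ) : Prop :=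
  ∃ (W : Finset V) (ρ : V → ℕ), W.card ≤ q ∧ ∀ v, v ∈ W ∨ t ≤ (N v ∩ W).card ∨
    T ≤ ((N v).filter (fun u => ρ u < ρ v)).card

theorem hubs_of_pre [DecidableEq V] [Fintype V] (N : V → Finset V) (t T q s : ℕ) (hT : 0 < T)
    (hN : ∀ v, 2 * T ≤ (N v).card) (W : Finset V) (hq : W.card + s ≤ q)
    (hW : ∑ v ∈ Wᶜ, ((t - (N v ∩ W).card : ℕ) : ℝ) / (N v).card ≤ s / 2) : Hubs N t T q := by
  obtain ⟨W', ρ, h1, h2, h3⟩ := exists_hubs N t T hT hN _ s Wᶜ W le_rfl hW
  refine ⟨W', fun u => if u ∈ W then 0 else ρ u + 1, by omega, fun v => ?_⟩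
  by_cases hv : v ∈ W
  · exact Or.inl (h1 hv)
  rcases h3 v (mem_compl.2 hv) with h | h | h
  · exact Or.inl h
  · exact Or.inr (Or.inl h)
  · refine Or.inr (Or.inr (h.trans (card_le_card fun u hu => ?_)))
    rw [mem_filter] at hu ⊢
    refine ⟨hu.1, ?_⟩
    by_cases huW : u ∈ W
    · simp [huW, hv]
    · rcases hu.2 with h' | h'
      · exact absurd (mem_compl.2 huW) h'
      · simp [huW, hv, h']

theorem hubs_indep [DecidableEq V] [Fintype V] (N : V → Finset V) (a t T : ℕ) (hT : 0 < T)
    (hN : ∀ v, 2 * T ≤ (N v).card)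
    (ha : ∀ I : Finset V, (∀ u ∈ I, ∀ v ∈ I, u ≠ v → u ∉ N v) → I.card ≤ a) :
    Hubs N t T (3 * t * a) := by
  obtain ⟨W, h1, h2⟩ := exists_prehubs N a ha t
  refine hubs_of_pre N t T _ (2 * (t * a)) hT hN W (by nlinarith) ?_
  push_cast
  linarith

theorem hubs_harm [DecidableEq V] [Fintype V] (N : V → Finset V) (t T q : ℕ) (hT : 0 < T)
    (hN : ∀ v, 2 * T ≤ (N v).card)
    (hq : 2 * t * ∑ v, (1 : ℝ) / (N v).card ≤ q) : Hubs N t T q := by
  refine hubs_of_pre N t T q q hT hN ∅ (by simp) ?_
  simp only [compl_empty, inter_empty, card_empty, tsub_zero]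
  have : ∑ v, (t : ℝ) / (N v).card = t * ∑ v, (1 : ℝ) / (N v).card := by
    rw [mul_sum]
    exact sum_congr rfl fun v _ => by ring
  linarith

end Pool.Agent.Work.MP_820bad_co
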