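import Pool.Agent.Work.MP_820bad_co.Walks

set_option autoImplicit false

namespace Pool.Agent.Work.MP_820bad_co

open Finset

variable {V C : Type*}

theorem pw_pot (β q : ℝ) (g : ℕ) (hβ : 0 < β) (hβ1 : β ≤ 1) (hq0 : 0 ≤ q) (hq : q ≤ β)
    (hq2 : β + q ≤ 2 * β ^ 2) (i1 i2 iM iP iW : Prop) [Decidable i1] [Decidable i2]
    [Decidable iM] [Decidable iP] [Decidable iW] (h1 : i1 ∨ i2 → iM) (h2 : i1 ∨ i2 → iP ∨ iW)
    (h3 : i1 → i2 → iW) :
    β ^ ((if iM then 1 else 0) + g) + β ^ ((if iP then 1 else 0) + g) * (if iW then q else 1) ≤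
      2 * β ^ ((if i1 then 1 else 0) + ((if i2 then 1 else 0) + g)) := by
  have hG : 0 < β ^ g := pow_pos hβ g
  have a1 : β * β ^ g ≤ β ^ g := mul_le_of_le_one_left hG.le hβ1
  have a2 : q * β ^ g ≤ β * β ^ g := mul_le_mul_of_nonneg_right hq hG.le
  have a3 : (β + q) * β ^ g ≤ 2 * β ^ 2 * β ^ g := mul_le_mul_of_nonneg_right hq2 hG.le
  have a4 : q * (β * β ^ g) ≤ q * β ^ g := mul_le_mul_of_nonneg_left a1 hq0
  simp only [pow_add]
  generalize β ^ g = G at *
  by_cases b1 : i1 <;> by_cases b2 : i2 <;> by_cases b3 : iM <;> by_cases b4 : iP <;>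
    by_cases b5 : iW <;>
    simp only [b1, b2, b3, b4, b5, if_true, if_false, pow_one, pow_zero, one_mul, mul_one,
      or_self, or_true, or_false, imp_false, not_true, forall_const] at * <;>
    nlinarith

/-- The statement proved by induction on the number of remaining vertices. -/
def MainP [DecidableEq V] [Fintype C] (β c0 : ℝ) (K : ℕ) (N : Finset V) : Prop :=
  ∀ (A : Multiset (V × List V × V)) (Need : Finset (V × C)),
    (∀ e ∈ A, e.1 ∈ N ∧ e.2.2 ∈ N ∧ ∀ y ∈ e.2.1, y ∉ N) →
    Strong (fun e : V × List V × V => e.1) (fun e => e.2.2) N A K →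
    ∑ p ∈ Need, β ^ pass A p.1 + c0 < 1 → Concl N (tot A) Need

theorem split_step [DecidableEq V] [Fintype V] [Fintype C] [DecidableEq C] [Nonempty C]
    (β θ c0 : ℝ) (K : ℕ) (hβ : 0 < β) (hβ1 : β ≤ 1)
    (hq : 1 - 1 / (Fintype.card C : ℝ) ≤ β)
    (hq2 : β + (1 - 1 / (Fintype.card C : ℝ)) ≤ 2 * β ^ 2) (hθ : 1 + β ≤ 2 * θ)
    (N : Finset V) (x : V) (hx : x ∉ N) (hMain : MainP (C := C) β c0 K N) (j : ℕ) :
    ∀ (A : Multiset (V × List V × V)) (Need : Finset (V × C)),
      (∀ e ∈ A, ((e.1 ∈ N ∧ e.2.2 ∈ N) ∨ (e.1 = x ∧ e.2.2 ∈ N ∧ x ∉ e.2.1) ∨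
        (e.1 ∈ N ∧ e.2.2 = x ∧ x ∉ e.2.1)) ∧ ∀ y ∈ e.2.1, y ∉ N) →
      (A.map (fun e => if e.2.2 = x then 1 else 0)).sum = j →
      (A.map (fun e => if e.1 = x then 1 else 0)).sum = j →
      Strong (fun e : V × List V × V => e.1) (fun e => e.2.2) N A K →
      ∑ p ∈ Need, β ^ pass A p.1 + Fintype.card C * β ^ pass A x * θ ^ j + c0 < 1 →
      Concl (insert x N) (tot A) Need := by
  have hk : (1 : ℝ) ≤ Fintype.card C := by exact_mod_cast Fintype.card_pos
  have hq0 : 0 ≤ 1 - 1 / (Fintype.card C : ℝ) := by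
    rw [sub_nonneg, div_le_one (by linarith)]
    exact hk
  induction j with
  | zero =>
    intro A Need hA hin hout hS hpot
    refine Concl.ins x (hMain A _ (fun e he => ?_) hS ?_)
    · have h1 := Multiset.single_le_sum (fun _ _ => Nat.zero_le _) _
        (Multiset.mem_map_of_mem (fun e : V × List V × V => if e.2.2 = x then 1 else 0) he)
      have h2 := Multiset.single_le_sum (fun _ _ => Nat.zero_le _) _
        (Multiset.mem_map_of_mem (fun e : V × List V × V => if e.1 = x then 1 else 0) he)
      rw [hin] at h1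
      rw [hout] at h2
      rcases (hA e he).1 with h | h | h
      · exact ⟨h.1, h.2, (hA e he).2⟩
      · simp [h.1] at h2
      · simp [h.2.1] at h1
    · have h1 := sum_union_inter (s₁ := Need) (s₂ := univ.image (fun c : C => (x, c)))
        (f := fun p => β ^ pass A p.1)
      have h2 : 0 ≤ ∑ p ∈ Need ∩ univ.image (fun c : C => (x, c)), β ^ pass A p.1 :=
        sum_nonneg fun _ _ => by positivity
      have h3 : ∑ p ∈ univ.image (fun c : C => (x, c)), β ^ pass A p.1 =
          Fintype.card C * β ^ pass A x := by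
        rw [sum_image (fun a _ b _ h => (Prod.mk.inj h).2)]
        simp
      rw [pow_zero, mul_one] at hpot
      linarith
  | succ j ih =>
    intro A Need hA hin hout hS hpot
    obtain ⟨eb, heb, hb⟩ : ∃ eb ∈ A, eb.1 = x := by
      by_contra h
      push Not at h
      have : (A.map (fun e => if e.1 = x then 1 else 0)).sum = 0 :=
        Multiset.sum_eq_zero fun n hn => by
          obtain ⟨e, he, rfl⟩ := Multiset.mem_map.1 hn
          exact if_neg (h e he)
      omega
    obtain ⟨ea, A', rfl, ha, hsp⟩ := exists_split (fun e : V × List V × V => e.1)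
      (fun e => e.2.2) N x hx A K (fun e he => by
        rcases (hA e he).1 with h | h | h
        · exact Or.inl h
        · exact Or.inr (Or.inl ⟨h.1, h.2.1⟩)
        · exact Or.inr (Or.inr ⟨h.1, h.2.1⟩)) (hin.trans hout.symm) hS eb heb hb
    obtain ⟨a, l1, x1⟩ := ea
    obtain ⟨x2, l2, b⟩ := eb
    obtain rfl : x = x1 := ha.symm
    obtain rfl : x = x2 := hb.symm
    have hA1 := hA (a, l1, x) (Multiset.mem_cons_self _ _)
    have hA2 := hA (x, l2, b) (Multiset.mem_cons_of_mem (Multiset.mem_cons_self _ _))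
    have hA' : ∀ e ∈ A', _ := fun e he =>
      hA e (Multiset.mem_cons_of_mem (Multiset.mem_cons_of_mem he))
    obtain ⟨haN, hxl1⟩ : a ∈ N ∧ x ∉ l1 := by
      rcases hA1.1 with h | h | h
      · exact absurd h.2 hx
      · exact absurd h.2.1 hx
      · exact ⟨h.1, h.2.2⟩
    obtain ⟨hbN, hxl2⟩ : b ∈ N ∧ x ∉ l2 := by
      rcases hA2.1 with h | h | h
      · exact absurd h.1 hx
      · exact h.2
      · exact absurd h.1 hx
    have hax : a ≠ x := fun h => hx (h ▸ haN)
    have hbx : b ≠ x := fun h => hx (h ▸ hbN)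
    simp only [Multiset.map_cons, Multiset.sum_cons, if_true, hax, hbx, if_false] at hin hout
    have use : ∀ (l : List V) (Nd : Finset (V × C)), (∀ y ∈ l, y ∉ N) →
        ∑ p ∈ Nd, β ^ pass ((a, l, b) ::ₘ A') p.1 +
          Fintype.card C * β ^ pass ((a, l, b) ::ₘ A') x * θ ^ j + c0 < 1 →
        Concl (insert x N) (arcs a l b + tot A') Nd := by
      intro l Nd h1 h2
      have := ih ((a, l, b) ::ₘ A') Nd (fun e he => ?_) ?_ ?_ (hsp _ rfl rfl) h2
      · rwa [tot_cons] at this
      · rcases Multiset.mem_cons.1 he with rfl | he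
        · exact ⟨Or.inl ⟨haN, hbN⟩, h1⟩
        · exact hA' e he
      · simp only [Multiset.map_cons, Multiset.sum_cons, hbx, if_false]
        omega
      · simp only [Multiset.map_cons, Multiset.sum_cons, hax, if_false]
        omega
    have hθ0 : 0 < θ := by linarith
    have hX : 0 < (Fintype.card C : ℝ) * β ^ pass A' x * θ ^ j := by positivity
    have merge : ∑ p ∈ Need, β ^ pass ((a, l1 ++ x :: l2, b) ::ₘ A') p.1 +
        β * (Fintype.card C * β ^ pass A' x * θ ^ j) + c0 < 1 →
        Concl (insert x N) (tot ((a, l1, x) ::ₘ (x, l2, b) ::ₘ A')) Need := by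
      intro h
      have := use (l1 ++ x :: l2) Need (fun y hy => ?_) ?_
      · rwa [tot_cons, tot_cons, ← add_assoc, ← arcs_append]
      · rcases List.mem_append.1 hy with hy | hy
        · exact hA1.2 y hy
        · rcases List.mem_cons.1 hy with rfl | hy
          · exact hx
          · exact hA2.2 y hy
      · rw [pass_cons _ _ x, if_pos (by simp), pow_add, pow_one]
        linarith
    have hpx : pass ((a, l1, x) ::ₘ (x, l2, b) ::ₘ A') x = pass A' x := by
      simp [pass_cons, hxl1, hxl2]
    rw [hpx, pow_succ] at hpot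
    by_cases hc : ∃ y ∈ l1, y ∈ l2
    · obtain ⟨p1, v, s1, rfl, hv, hp1⟩ := exists_first (fun y => y ∈ l2) l1 hc
      obtain ⟨p2, s2, rfl⟩ := List.append_of_mem hv
      obtain ⟨c, hcol⟩ := exists_colour Need (p2 ++ v :: s1)
        (fun y => β ^ pass ((a, p1 ++ v :: s2, b) ::ₘ A') y)
      have hsum : ∑ p ∈ Need, β ^ pass ((a, (p1 ++ v :: s1) ++ x :: (p2 ++ v :: s2), b) ::ₘ A') p.1
          + ∑ p ∈ Need, β ^ pass ((a, p1 ++ v :: s2, b) ::ₘ A') p.1 *
            (if p.1 ∈ p2 ++ v :: s1 then 1 - 1 / (Fintype.card C : ℝ) else 1) ≤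
          2 * ∑ p ∈ Need,
            β ^ pass ((a, p1 ++ v :: s1, x) ::ₘ (x, p2 ++ v :: s2, b) ::ₘ A') p.1 := by
        rw [← sum_add_distrib, mul_sum]
        refine sum_le_sum fun p _ => ?_
        simp only [pass_cons]
        refine pw_pot β _ _ hβ hβ1 hq0 hq hq2 _ _ _ _ _ ?_ ?_ ?_
        · rintro (h | h)
          · exact List.mem_append_left _ h
          · exact List.mem_append_right _ (List.mem_cons_of_mem _ h)
        · simp only [List.mem_append, List.mem_cons]
          rintro ((h | h | h) | (h | h | h))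
          · exact Or.inl (Or.inl h)
          · exact Or.inl (Or.inr (Or.inl h))
          · exact Or.inr (Or.inr (Or.inr h))
          · exact Or.inr (Or.inl h)
          · exact Or.inl (Or.inr (Or.inl h))
          · exact Or.inl (Or.inr (Or.inr h))
        · intro h1 h2
          rcases List.mem_append.1 h1 with h | h
          · exact absurd h2 (hp1 _ h)
          · exact List.mem_append_right _ h
      by_cases hm : ∑ p ∈ Need,
          β ^ pass ((a, (p1 ++ v :: s1) ++ x :: (p2 ++ v :: s2), b) ::ₘ A') p.1 +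
          β * (Fintype.card C * β ^ pass A' x * θ ^ j) + c0 < 1
      · exact merge hm
      · have h1 := use (p1 ++ v :: s2) (Need.filter (fun p => ¬ (p.1 ∈ p2 ++ v :: s1 ∧ p.2 = c)))
          (fun y hy => ?_) ?_
        · have h2 := Concl.fin x (p2 ++ v :: s1) x c (mem_insert_self _ _)
            (mem_insert_self _ _) h1
          have e : arcs x (p2 ++ v :: s1) x + (arcs a (p1 ++ v :: s2) b + tot A') =
              tot ((a, p1 ++ v :: s1, x) ::ₘ (x, p2 ++ v :: s2, b) ::ₘ A') := by
            simp only [tot_cons, arcs_append]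
            abel
          rwa [e] at h2
        · rcases List.mem_append.1 hy with hy | hy
          · exact hA1.2 y (List.mem_append_left _ hy)
          · exact hA2.2 y (List.mem_append_right _ hy)
        · have e : x ∉ p1 ++ v :: s2 := fun h => by
            rcases List.mem_append.1 h with h | h
            · exact hxl1 (List.mem_append_left _ h)
            · exact hxl2 (List.mem_append_right _ h)
          rw [pass_cons _ _ x, if_neg e, zero_add]
          nlinarith
    · push Not at hc
      refine merge ?_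
      have hsum : ∑ p ∈ Need, β ^ pass ((a, l1 ++ x :: l2, b) ::ₘ A') p.1 ≤
          ∑ p ∈ Need, β ^ pass ((a, l1, x) ::ₘ (x, l2, b) ::ₘ A') p.1 := by
        refine sum_le_sum fun p _ => pow_le_pow_of_le_one hβ.le hβ1 ?_
        simp only [pass_cons]
        by_cases h1 : p.1 ∈ l1
        · simp [h1, hc _ h1]
        · by_cases h2 : p.1 ∈ l2 <;> simp [h1, h2]
      nlinarith

theorem main_log [DecidableEq V] [Fintype V] [Fintype C] [DecidableEq C] [Nonempty C]
    (β θ : ℝ) (K : ℕ) (hK : 0 < K) (hβ : 0 < β) (hβ1 : β ≤ 1)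
    (hq : 1 - 1 / (Fintype.card C : ℝ) ≤ β)
    (hq2 : β + (1 - 1 / (Fintype.card C : ℝ)) ≤ 2 * β ^ 2) (hθ : 1 + β ≤ 2 * θ) (n : ℕ) :
    ∀ T : Finset V, T.card = n + 1 → MainP (C := C) β (Fintype.card C * n * θ ^ K) K T := by
  have hθ0 : 0 < θ := by linarith
  induction n using Nat.strong_induction_on with
  | _ n ih =>
  intro T hT A
  induction hm : Multiset.card A generalizing A with
  | zero =>
    intro Need hA hS hpot
    obtain rfl : A = 0 := Multiset.card_eq_zero.1 hm
    have hN : Need = ∅ := by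
      by_contra h
      obtain ⟨p, hp⟩ := nonempty_iff_ne_empty.2 h
      have h1 := single_le_sum (f := fun p : V × C => β ^ pass 0 p.1)
        (fun _ _ => by positivity) hp
      have h2 : (0 : ℝ) ≤ Fintype.card C * n * θ ^ K := by positivity
      simp only [pass, Multiset.map_zero, Multiset.sum_zero, pow_zero] at h1 hpot
      linarith
    subst hN
    refine ⟨fun _ => 0, by simp, fun c u hu v hv => ?_, by simp⟩
    by_cases huv : u = v
    · rw [huv]
    · have := hS {u} ⟨u, hu, by simp⟩ ⟨v, hv, by simpa using Ne.symm huv⟩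
      simp [od] at this
      omega
  | succ m ihm =>
    intro Need hA hS hpot
    by_cases hdel : ∃ e A', A = e ::ₘ A' ∧
        Strong (fun e : V × List V × V => e.1) (fun e => e.2.2) T A' K
    · obtain ⟨⟨a, l, b⟩, A', rfl, hS'⟩ := hdel
      obtain ⟨c, hcol⟩ := exists_colour Need l (fun y => β ^ pass A' y)
      have he := hA (a, l, b) (Multiset.mem_cons_self _ _)
      rw [tot_cons]
      refine Concl.fin a l b c he.1 he.2.1 (ihm A' (by simpa using hm) _
        (fun e he => hA e (Multiset.mem_cons_of_mem he)) hS' ?_)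
      have : ∑ p ∈ Need, β ^ pass A' p.1 *
          (if p.1 ∈ l then 1 - 1 / (Fintype.card C : ℝ) else 1) ≤
          ∑ p ∈ Need, β ^ pass ((a, l, b) ::ₘ A') p.1 := by
        refine sum_le_sum fun p _ => ?_
        rw [pass_cons, pow_add, mul_comm]
        refine mul_le_mul_of_nonneg_right ?_ (by positivity)
        by_cases h : p.1 ∈ l <;> simp only [h, if_true, if_false, pow_one, pow_zero, le_refl, hq]
      linarith
    · push Not at hdel
      cases n with
      | zero =>
        obtain ⟨e, he⟩ := Multiset.card_pos_iff_exists_mem.1 (by omega : 0 < Multiset.card A)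
        obtain ⟨A', rfl⟩ := Multiset.exists_cons_of_mem he
        refine absurd (fun X ⟨u, hu, hu'⟩ ⟨v, hv, hv'⟩ => ?_) (hdel e A' rfl)
        rw [card_le_one.1 hT.le u hu v hv] at hu'
        exact absurd hu' hv'
      | succ n =>
        obtain ⟨noloop, x, hx, h1, h2⟩ := exists_vertex (fun e : V × List V × V => e.1)
          (fun e => e.2.2) T (by omega) A K hK (fun e he => ⟨(hA e he).1, (hA e he).2.1⟩) hS hdel
        have hc : (T.erase x).card = n + 1 := by
          rw [card_erase_of_mem hx]
          omega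
        have := split_step β θ _ K hβ hβ1 hq hq2 hθ (T.erase x) x (notMem_erase _ _)
          (ih n (by omega) _ hc) K A Need (fun e he => ?_) ?_ ?_
          (fun X ⟨u, hu, hu'⟩ ⟨v, hv, hv'⟩ =>
            hS X ⟨u, mem_of_mem_erase hu, hu'⟩ ⟨v, mem_of_mem_erase hv, hv'⟩) ?_
        · rwa [insert_erase hx] at this
        · obtain ⟨a1, a2, a3⟩ := hA e he
          have a4 : x ∉ e.2.1 := fun h => a3 x h hx
          have a5 := noloop e he
          refine ⟨?_, fun y hy h => a3 y hy (mem_of_mem_erase h)⟩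
          by_cases b1 : e.1 = x
          · exact Or.inr (Or.inl ⟨b1, mem_erase.2 ⟨fun h => a5 (b1.trans h.symm), a2⟩, a4⟩)
          · by_cases b2 : e.2.2 = x
            · exact Or.inr (Or.inr ⟨mem_erase.2 ⟨b1, a1⟩, b2, a4⟩)
            · exact Or.inl ⟨mem_erase.2 ⟨b1, a1⟩, mem_erase.2 ⟨b2, a2⟩⟩
        · refine Eq.trans ?_ h2
          unfold od
          congr 1
          refine Multiset.map_congr rfl fun e he => ?_
          have a5 := noloop e he
          by_cases b : e.2.2 = x
          · have : e.1 ≠ x := fun h => a5 (h.trans b.symm)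
            simp [ind, b, this]
          · simp [ind, b]
        · refine Eq.trans ?_ h1
          unfold od
          congr 1
          refine Multiset.map_congr rfl fun e he => ?_
          have a5 := noloop e he
          by_cases b : e.1 = x
          · have : e.2.2 ≠ x := fun h => a5 (b.trans h.symm)
            simp [ind, b, this]
          · simp [ind, b]
        · have a1 : β ^ pass A x ≤ 1 := pow_le_one₀ hβ.le hβ1
          have a2 : (0 : ℝ) ≤ Fintype.card C * θ ^ K := by positivity
          push_cast at hpot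
          nlinarith

end Pool.Agent.Work.MP_820bad_co
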