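import Pool.Agent.Work.MP_820bad_co.Log

set_option autoImplicit false

namespace Pool.Agent.Work.MP_820bad_co

open Finset

variable {V : Type*}

theorem partition_of_packing (G : V → V → Prop) (k : ℕ) (hk : 0 < k)
    (h : ∃ A : Fin k → V → V → Prop, (∀ i u v, A i u v → G u v) ∧
      (∀ i j u v, A i u v → A j u v → i = j) ∧ ∀ i u v, Relation.ReflTransGen (A i) u v) :
    ∃ A : Fin k → V → V → Prop, (∀ u v, G u v ↔ ∃ i, A i u v) ∧
      (∀ i j u v, A i u v → A j u v → i = j) ∧ ∀ i u v, Relation.ReflTransGen (A i) u v := by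
  obtain ⟨A, h1, h2, h3⟩ := h
  refine ⟨fun i u v => A i u v ∨ (i = ⟨0, hk⟩ ∧ G u v ∧ ∀ j, ¬ A j u v), fun u v => ?_, ?_,
    fun i u v => rtg_mono (fun a b h => Or.inl h) (h3 i u v)⟩
  · constructor
    · intro h
      by_cases hA : ∃ j, A j u v
      · obtain ⟨j, hj⟩ := hA
        exact ⟨j, Or.inl hj⟩
      · exact ⟨⟨0, hk⟩, Or.inr ⟨rfl, h, fun j hj => hA ⟨j, hj⟩⟩⟩
    · rintro ⟨i, h | h⟩
      · exact h1 i u v h
      · exact h.2.1
  · rintro i j u v (h | h) (h' | h')
    · exact h2 i j u v h h'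
    · exact absurd h (h'.2.2 i)
    · exact absurd h' (h.2.2 j)
    · rw [h.1, h'.1]

theorem final_log [Fintype V] (G : V → V → Prop) (k K : ℕ) (hk : 0 < k)
    (hlog : 6 * k * Real.log (k * Fintype.card V) ≤ K)
    (hK : ∀ S : Set V, S.Nonempty → S ≠ Set.univ →
      K ≤ {p : V × V | p.1 ∈ S ∧ p.2 ∉ S ∧ G p.1 p.2}.ncard) :
    ∃ A : Fin k → V → V → Prop, (∀ u v, G u v ↔ ∃ i, A i u v) ∧
      (∀ i j u v, A i u v → A j u v → i = j) ∧ ∀ i u v, Relation.ReflTransGen (A i) u v := by
  classical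
  refine partition_of_packing G k hk ?_
  rcases subsingleton_or_nontrivial V with hV | hV
  · refine ⟨fun _ _ _ => False, by simp, by simp, fun i u v => ?_⟩
    rw [Subsingleton.elim u v]
  have : Nonempty (Fin k) := ⟨⟨0, hk⟩⟩
  obtain ⟨n, hn⟩ : ∃ n, Fintype.card V = n + 1 :=
    ⟨_, (Nat.succ_pred_eq_of_pos Fintype.card_pos).symm⟩
  have hn1 : 1 ≤ n := by
    have := Fintype.one_lt_card (α := V)
    omega
  have hk1 : (1 : ℝ) ≤ k := by exact_mod_cast hk
  have hn1' : (1 : ℝ) ≤ n := by exact_mod_cast hn1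
  rw [hn] at hlog
  push_cast at hlog
  have hkn : (1 : ℝ) < k * (n + 1) := by nlinarith
  have hl := Real.log_pos hkn
  have hK0 : 0 < K := by
    have : (0 : ℝ) < K := lt_of_lt_of_le (by positivity) hlog
    exact_mod_cast this
  obtain ⟨ε, hε⟩ : ∃ ε : ℝ, ε = 1 / (6 * k) := ⟨_, rfl⟩
  have hε0 : 0 < ε := by rw [hε]; positivity
  have hε1 : 1 / (k : ℝ) = 6 * ε := by rw [hε]; field_simp
  have hε2 : 6 * ε ≤ 1 := by rw [← hε1, div_le_one (by linarith)]; exact hk1
  let Es : Finset (V × V) := univ.filter (fun a : V × V => G a.1 a.2)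
  have hM := main_log (V := V) (C := Fin k) (1 - 2 * ε) (1 - ε) K hK0 (by linarith) (by linarith)
    (by rw [Fintype.card_fin, hε1]; linarith) (by rw [Fintype.card_fin, hε1]; nlinarith)
    (by linarith) n univ (by rw [card_univ, hn])
    (Es.val.map (fun a => (a.1, [], a.2))) ∅ (fun e he => by
      obtain ⟨a, _, rfl⟩ := Multiset.mem_map.1 he
      simp) (fun X h1 h2 => ?_) ?_
  · have ht : tot (Es.val.map (fun a => (a.1, [], a.2))) = Es.val := by
      simp [tot, arcs]
    rw [ht] at hM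
    obtain ⟨B, h1, h2, _⟩ := hM
    refine ⟨fun i u v => (u, v) ∈ B i, fun i u v h => ?_, fun i j u v hi hj => ?_,
      fun i u v => h2 i u (mem_univ _) v (mem_univ _)⟩
    · have : (u, v) ∈ Es.val := Multiset.mem_of_le h1 (Multiset.mem_of_le
        (single_le_sum (f := B) (fun _ _ => Multiset.zero_le _) (mem_univ i)) h)
      exact (mem_filter.1 this).2
    · by_contra hij
      have a1 := Multiset.count_le_of_le (u, v) h1
      have a2 := Multiset.nodup_iff_count_le_one.1 Es.nodup (u, v)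
      have a3 : B i + B j ≤ ∑ c, B c := by
        rw [← sum_pair hij]
        exact sum_le_sum_of_subset_of_nonneg (subset_univ _) fun _ _ _ => Multiset.zero_le _
      have a4 := Multiset.count_le_of_le (u, v) a3
      have a5 := Multiset.count_pos.2 hi
      have a6 := Multiset.count_pos.2 hj
      rw [Multiset.count_add] at a4
      omega
  · obtain ⟨u, _, hu⟩ := h1
    obtain ⟨v, _, hv⟩ := h2
    have h := hK X ⟨u, hu⟩ (fun h => hv (h ▸ Set.mem_univ v : v ∈ (X : Set V)))
    have e : {p : V × V | p.1 ∈ (X : Set V) ∧ p.2 ∉ (X : Set V) ∧ G p.1 p.2} =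
        ↑(Es.filter (fun a => a.1 ∈ X ∧ a.2 ∉ X)) := by
      ext p
      simp only [Es, Set.mem_ofPred_eq, coe_filter, mem_filter, mem_univ, true_and, mem_coe]
      tauto
    rw [e, Set.ncard_coe_finset, card_filter] at h
    refine h.trans (le_of_eq ?_)
    unfold od
    rw [Multiset.map_map]
    rfl
  · rw [sum_empty, zero_add, Fintype.card_fin]
    have a1 : (1 - ε) ^ K ≤ Real.exp (-ε) ^ K :=
      pow_le_pow_left₀ (by linarith) (Real.one_sub_le_exp_neg ε) K
    have a2 : Real.exp (-ε) ^ K ≤ Real.exp (-Real.log (k * (n + 1))) := by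
      rw [← Real.exp_nat_mul]
      refine Real.exp_le_exp.2 ?_
      have : Real.log (k * (n + 1)) ≤ K * ε := by
        rw [hε, mul_one_div, le_div_iff₀ (by positivity)]
        linarith
      linarith
    rw [Real.exp_neg (Real.log _), Real.exp_log (by linarith)] at a2
    have a3 : (k : ℝ) * n * (1 - ε) ^ K ≤ k * n * ((k : ℝ) * (n + 1))⁻¹ :=
      mul_le_mul_of_nonneg_left (a1.trans a2) (by positivity)
    refine lt_of_le_of_lt a3 ?_
    rw [← div_eq_mul_inv, div_lt_one (by positivity)]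
    nlinarith

end Pool.Agent.Work.MP_820bad_co
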