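import Mathlib

set_option autoImplicit false

namespace Pool.Agent.Work.MP_820bad_co

open Finset

variable {V E : Type*} [DecidableEq V]

/-- Indicator of an arc leaving `X`. -/
def ind (tl hd : E → V) (X : Finset V) (e : E) : ℕ := if tl e ∈ X ∧ hd e ∉ X then 1 else 0

/-- Number of arcs of the multidigraph `M` leaving `X`. -/
def od (tl hd : E → V) (M : Multiset E) (X : Finset V) : ℕ := (M.map (ind tl hd X)).sum

/-- At least `K` arcs leave every set separating two vertices of `T`. -/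
def Strong (tl hd : E → V) (T : Finset V) (M : Multiset E) (K : ℕ) : Prop :=
  ∀ X : Finset V, (∃ u ∈ T, u ∈ X) → (∃ v ∈ T, v ∉ X) → K ≤ od tl hd M X

theorem od_cons (tl hd : E → V) (e : E) (M : Multiset E) (X : Finset V) :
    od tl hd (e ::ₘ M) X = ind tl hd X e + od tl hd M X := by
  simp [od]

theorem msum_le (M : Multiset E) (f g : E → ℕ) (h : ∀ e ∈ M, f e ≤ g e) :
    (M.map f).sum ≤ (M.map g).sum := Multiset.sum_map_le_sum_map f g h

theorem msum_lt (M : Multiset E) (f g : E → ℕ) (h : ∀ e ∈ M, f e ≤ g e)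
    (h' : ∃ e ∈ M, f e < g e) : (M.map f).sum < (M.map g).sum := Multiset.sum_lt_sum h h'

theorem od_submod (tl hd : E → V) (M : Multiset E) (X Y : Finset V) :
    od tl hd M (X ∩ Y) + od tl hd M (X ∪ Y) ≤ od tl hd M X + od tl hd M Y := by
  unfold od
  rw [← Multiset.sum_map_add, ← Multiset.sum_map_add]
  refine msum_le _ _ _ fun e _ => ?_
  unfold ind
  by_cases h1 : tl e ∈ X <;> by_cases h2 : tl e ∈ Y <;> by_cases h3 : hd e ∈ X <;>
    by_cases h4 : hd e ∈ Y <;> simp [h1, h2, h3, h4]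

theorem od_submod_lt (tl hd : E → V) (M : Multiset E) (X Y : Finset V) (e0 : E) (he : e0 ∈ M)
    (a1 : tl e0 ∉ X) (a2 : tl e0 ∈ Y) (a3 : hd e0 ∈ X) (a4 : hd e0 ∉ Y) :
    od tl hd M (X ∩ Y) + od tl hd M (X ∪ Y) < od tl hd M X + od tl hd M Y := by
  unfold od
  rw [← Multiset.sum_map_add, ← Multiset.sum_map_add]
  refine msum_lt _ _ _ (fun e _ => ?_) ⟨e0, he, by simp [ind, a1, a2, a3, a4]⟩
  unfold ind
  by_cases h1 : tl e ∈ X <;> by_cases h2 : tl e ∈ Y <;> by_cases h3 : hd e ∈ X <;>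
    by_cases h4 : hd e ∈ Y <;> simp [h1, h2, h3, h4]

theorem pw1 (X : Finset V) (x u v : V) (hx : x ∈ X) :
    (if u ∈ X.erase x ∧ v ∉ X.erase x then 1 else 0 : ℕ) ≤
      (if u ∈ X ∧ v ∉ X then 1 else 0) + (if v = x ∧ u ∈ X then 1 else 0) := by
  by_cases a1 : u ∈ X <;> by_cases a2 : v ∈ X <;> by_cases a3 : u = x <;>
    by_cases a4 : v = x <;> simp_all

theorem pw2 (X : Finset V) (x u v : V) (hx : x ∉ X) (h : v = x → u ∈ X) :
    (if u ∈ insert x X ∧ v ∉ insert x X then 1 else 0 : ℕ) + (if v = x then 1 else 0) ≤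
      (if u ∈ X ∧ v ∉ X then 1 else 0) + (if u = x then 1 else 0) := by
  by_cases a1 : u ∈ X <;> by_cases a2 : v ∈ X <;> by_cases a3 : u = x <;>
    by_cases a4 : v = x <;> simp_all

theorem pw3 (X Y : Finset V) (x u v : V) (hx : x ∈ X) (hy : x ∈ Y)
    (h1 : u ≠ x → ¬ (u ∈ X ∧ u ∈ Y)) (h2 : v ≠ x → ¬ (v ∈ X ∧ v ∈ Y)) (h3 : u = x → v ≠ x) :
    (if u ∈ X.erase x ∧ v ∉ X.erase x then 1 else 0 : ℕ) +
      (if u ∈ Y.erase x ∧ v ∉ Y.erase x then 1 else 0) + (if u = x then 1 else 0) ≤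
      (if u ∈ X ∧ v ∉ X then 1 else 0) + (if u ∈ Y ∧ v ∉ Y then 1 else 0) +
        (if v = x then 1 else 0) := by
  by_cases a3 : u = x <;> by_cases a4 : v = x <;>
    by_cases a1 : u ∈ X <;> by_cases a2 : v ∈ X <;> by_cases a5 : u ∈ Y <;>
    by_cases a6 : v ∈ Y <;> simp_all

theorem pw4 (X Y : Finset V) (x u v : V) (hx : x ∉ X) (hy : x ∉ Y)
    (h1 : u ≠ x → u ∈ X ∨ u ∈ Y) (h2 : v ≠ x → v ∈ X ∨ v ∈ Y) (h3 : u = x → v ≠ x) :
    (if u ∈ insert x X ∧ v ∉ insert x X then 1 else 0 : ℕ) +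
      (if u ∈ insert x Y ∧ v ∉ insert x Y then 1 else 0) + (if v = x then 1 else 0) ≤
      (if u ∈ X ∧ v ∉ X then 1 else 0) + (if u ∈ Y ∧ v ∉ Y then 1 else 0) +
        (if u = x then 1 else 0) := by
  by_cases a3 : u = x <;> by_cases a4 : v = x <;>
    by_cases a1 : u ∈ X <;> by_cases a2 : v ∈ X <;> by_cases a5 : u ∈ Y <;>
    by_cases a6 : v ∈ Y <;> simp_all

/-- The directed splitting-off theorem of Mader: choice of the partner arc. -/
theorem exists_partner [Fintype V] (tl hd : E → V) (N : Finset V) (x : V) (hx : x ∉ N)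
    (M : Multiset E) (K : ℕ)
    (hM : ∀ e ∈ M, (tl e ∈ N ∧ hd e ∈ N) ∨ (tl e = x ∧ hd e ∈ N) ∨ (tl e ∈ N ∧ hd e = x))
    (hdeg : (M.map (fun e => if hd e = x then 1 else 0)).sum =
      (M.map (fun e => if tl e = x then 1 else 0)).sum)
    (hS : Strong tl hd N M K) (eb : E) (heb : eb ∈ M) (hb : tl eb = x) :
    ∃ ea ∈ M, hd ea = x ∧ ∀ X : Finset V, (∃ u ∈ N, u ∈ X) → (∃ v ∈ N, v ∉ X) →
      od tl hd M X = K → (x ∈ X ↔ hd eb ∉ X) → ¬ (tl ea ∈ X ↔ hd eb ∈ X) := by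
  classical
  have hbN : hd eb ∈ N := by
    rcases hM eb heb with h | h | h
    · exact h.2
    · exact h.2
    · exact absurd (hb ▸ h.1) hx
  have hbx : hd eb ≠ x := fun h => hx (h ▸ hbN)
  let crit : Finset (Finset V) := univ.filter (fun X => (∃ u ∈ N, u ∈ X) ∧ (∃ v ∈ N, v ∉ X) ∧
    od tl hd M X = K ∧ (x ∈ X ↔ hd eb ∉ X))
  have mcrit : ∀ X, X ∈ crit ↔ (∃ u ∈ N, u ∈ X) ∧ (∃ v ∈ N, v ∉ X) ∧
      od tl hd M X = K ∧ (x ∈ X ↔ hd eb ∉ X) := fun X => by
    simp only [crit, mem_filter, mem_univ, true_and]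
  rcases crit.eq_empty_or_nonempty with hc | hc
  · obtain ⟨ea, hea, ha⟩ : ∃ ea ∈ M, hd ea = x := by
      by_contra h
      push Not at h
      have := msum_lt M (fun e => if hd e = x then 1 else 0) (fun e => if tl e = x then 1 else 0)
        (fun e he => by simp [h e he]) ⟨eb, heb, by simp [hb, hbx]⟩
      omega
    refine ⟨ea, hea, ha, fun X h1 h2 h3 h4 => ?_⟩
    have : X ∈ crit := (mcrit X).2 ⟨h1, h2, h3, h4⟩
    rw [hc] at this
    simp at this
  obtain ⟨X, hX, hmax⟩ := exists_max_image crit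
    (fun X => (N.filter (fun v => v ∈ X ↔ hd eb ∈ X)).card) hc
  obtain ⟨⟨u1, hu1, hu1'⟩, ⟨v1, hv1, hv1'⟩, hXK, hXx⟩ := (mcrit X).1 hX
  have nx : ∀ v ∈ N, v ≠ x := fun v hv h => hx (h ▸ hv)
  have ends : ∀ e ∈ M, (tl e ≠ x → tl e ∈ N) ∧ (hd e ≠ x → hd e ∈ N) ∧
      (tl e = x → hd e ≠ x) := by
    intro e he
    rcases hM e he with h | h | h
    · exact ⟨fun _ => h.1, fun _ => h.2, fun _ => nx _ h.2⟩
    · exact ⟨fun h' => absurd h.1 h', fun _ => h.2, fun _ => nx _ h.2⟩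
    · exact ⟨fun _ => h.1, fun h' => absurd h.2 h', fun h' => absurd h' (nx _ h.1)⟩
  obtain ⟨ea, hea, ha, haX⟩ : ∃ ea ∈ M, hd ea = x ∧ ¬ (tl ea ∈ X ↔ hd eb ∈ X) := by
    by_contra h
    push Not at h
    by_cases hxX : x ∈ X
    · have hbX : hd eb ∉ X := hXx.1 hxX
      have h1 := hS (X.erase x) ⟨u1, hu1, mem_erase.2 ⟨nx _ hu1, hu1'⟩⟩
        ⟨v1, hv1, fun h => hv1' (mem_of_mem_erase h)⟩
      have h2 : od tl hd M (X.erase x) < od tl hd M X := by
        refine msum_lt _ _ _ (fun e he => ?_) ⟨eb, heb, by simp [ind, hb, hxX, hbX]⟩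
        have h3 := pw1 X x (tl e) (hd e) hxX
        rw [if_neg (fun h' : hd e = x ∧ tl e ∈ X => hbX ((h e he h'.1).1 h'.2))] at h3
        exact h3
      omega
    · have hbX : hd eb ∈ X := by_contra fun h => hxX (hXx.2 h)
      have h1 := hS (insert x X) ⟨u1, hu1, mem_insert_of_mem hu1'⟩
        ⟨v1, hv1, fun h => (mem_insert.1 h).elim (nx _ hv1) hv1'⟩
      have h2 : od tl hd M (insert x X) + (M.map (fun e => if hd e = x then 1 else 0)).sum <
          od tl hd M X + (M.map (fun e => if tl e = x then 1 else 0)).sum := by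
        unfold od
        rw [← Multiset.sum_map_add, ← Multiset.sum_map_add]
        refine msum_lt _ _ _ (fun e he => ?_) ⟨eb, heb, by simp [ind, hb, hxX, hbX, hbx]⟩
        exact pw2 X x (tl e) (hd e) hxX (fun h' => (h e he h').2 hbX)
      omega
  have haN : tl ea ∈ N := by
    rcases hM ea hea with h | h | h
    · exact h.1
    · exact absurd (ha ▸ h.2) hx
    · exact h.1
  refine ⟨ea, hea, ha, fun Y ⟨u2, hu2, hu2'⟩ ⟨v2, hv2, hv2'⟩ hYK hYx haY => ?_⟩
  have big : ∀ Z ∈ crit, (∀ v ∈ N, (v ∈ X ↔ hd eb ∈ X) → (v ∈ Z ↔ hd eb ∈ Z)) →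
      (tl ea ∈ Z ↔ hd eb ∈ Z) → False := by
    intro Z hZ h1 h2
    have h3 := hmax Z hZ
    have h4 : (N.filter (fun v => v ∈ X ↔ hd eb ∈ X)).card <
        (N.filter (fun v => v ∈ Z ↔ hd eb ∈ Z)).card := by
      refine card_lt_card ⟨fun v hv => ?_, fun h => ?_⟩
      · rw [mem_filter] at hv ⊢
        exact ⟨hv.1, h1 v hv.1 hv.2⟩
      · exact haX (mem_filter.1 (h (mem_filter.2 ⟨haN, h2⟩))).2
    omega
  have hYc : Y ∈ crit := (mcrit Y).2 ⟨⟨u2, hu2, hu2'⟩, ⟨v2, hv2, hv2'⟩, hYK, hYx⟩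
  have sub := od_submod tl hd M X Y
  by_cases hxX : x ∈ X <;> by_cases hxY : x ∈ Y
  · have hbX : hd eb ∉ X := hXx.1 hxX
    have hbY : hd eb ∉ Y := hYx.1 hxY
    by_cases hI : ∃ u ∈ N, u ∈ X ∩ Y
    · have h1 := hS _ hI ⟨_, hbN, fun h => hbX (mem_inter.1 h).1⟩
      have h2 := hS (X ∪ Y) ⟨u1, hu1, mem_union_left _ hu1'⟩ ⟨_, hbN, by simp [hbX, hbY]⟩
      refine big (X ∩ Y) ((mcrit _).2 ⟨hI, ⟨_, hbN, fun h => hbX (mem_inter.1 h).1⟩, by omega,
        by simp [hxX, hxY, hbX]⟩) (fun v _ hv => ?_) ?_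
      · exact ⟨fun h => absurd (hv.1 (mem_inter.1 h).1) hbX,
          fun h => absurd (mem_inter.1 h).1 hbX⟩
      · exact ⟨fun h => absurd (haY.1 (mem_inter.1 h).2) hbY,
          fun h => absurd (mem_inter.1 h).1 hbX⟩
    · push Not at hI
      have h1 := hS (X.erase x) ⟨u1, hu1, mem_erase.2 ⟨nx _ hu1, hu1'⟩⟩
        ⟨v1, hv1, fun h => hv1' (mem_of_mem_erase h)⟩
      have h2 := hS (Y.erase x) ⟨u2, hu2, mem_erase.2 ⟨nx _ hu2, hu2'⟩⟩
        ⟨v2, hv2, fun h => hv2' (mem_of_mem_erase h)⟩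
      have h3 : od tl hd M (X.erase x) + od tl hd M (Y.erase x) +
          (M.map (fun e => if tl e = x then 1 else 0)).sum <
          od tl hd M X + od tl hd M Y + (M.map (fun e => if hd e = x then 1 else 0)).sum := by
        unfold od
        simp only [← Multiset.sum_map_add]
        refine msum_lt _ _ _ (fun e he => ?_)
          ⟨eb, heb, by simp [ind, hb, hxX, hxY, hbX, hbY, hbx]⟩
        exact pw3 X Y x (tl e) (hd e) hxX hxY
          (fun h h' => hI _ ((ends e he).1 h) (mem_inter.2 h'))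
          (fun h h' => hI _ ((ends e he).2.1 h) (mem_inter.2 h')) (ends e he).2.2
      omega
  · have hbX : hd eb ∉ X := hXx.1 hxX
    have hbY : hd eb ∈ Y := by_contra fun h => hxY (hYx.2 h)
    have slt := od_submod_lt tl hd M Y X eb heb (hb ▸ hxY) (hb ▸ hxX) hbY hbX
    have h1 := hS (Y ∩ X) ⟨_, haN, mem_inter.2 ⟨haY.2 hbY,
      by_contra fun h => haX ⟨fun h' => absurd h' h, fun h' => absurd h' hbX⟩⟩⟩
      ⟨_, hbN, fun h => hbX (mem_inter.1 h).2⟩
    by_cases hU : ∃ v ∈ N, v ∉ Y ∪ X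
    · have h2 := hS (Y ∪ X) ⟨_, hbN, mem_union_left _ hbY⟩ hU
      omega
    · push Not at hU
      refine big Y hYc (fun v hv h => ?_) haY
      have := mem_union.1 (hU v hv)
      exact ⟨fun _ => hbY, fun _ => this.resolve_right fun h' => hbX (h.1 h')⟩
  · have hbX : hd eb ∈ X := by_contra fun h => hxX (hXx.2 h)
    have hbY : hd eb ∉ Y := hYx.1 hxY
    have slt := od_submod_lt tl hd M X Y eb heb (hb ▸ hxX) (hb ▸ hxY) hbX hbY
    have h1 := hS (X ∪ Y) ⟨_, hbN, mem_union_left _ hbX⟩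
      ⟨_, haN, fun h => (mem_union.1 h).elim (fun h' => haX ⟨fun _ => hbX, fun _ => h'⟩)
        (fun h' => hbY (haY.1 h'))⟩
    by_cases hI : ∃ v ∈ N, v ∈ X ∩ Y
    · have h2 := hS (X ∩ Y) hI ⟨_, hbN, fun h => hbY (mem_inter.1 h).2⟩
      omega
    · push Not at hI
      refine big Y hYc (fun v hv h => ?_) haY
      have := hI v hv
      rw [mem_inter] at this
      exact ⟨fun h' => absurd ⟨h.2 hbX, h'⟩ this, fun h' => absurd h' hbY⟩
  · have hbX : hd eb ∈ X := by_contra fun h => hxX (hXx.2 h)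
    have hbY : hd eb ∈ Y := by_contra fun h => hxY (hYx.2 h)
    by_cases hU : ∃ v ∈ N, v ∉ X ∪ Y
    · have h1 := hS _ ⟨_, hbN, mem_union_left _ hbX⟩ hU
      have h2 := hS (X ∩ Y) ⟨_, hbN, mem_inter.2 ⟨hbX, hbY⟩⟩
        ⟨v1, hv1, fun h => hv1' (mem_inter.1 h).1⟩
      refine big (X ∪ Y) ((mcrit _).2 ⟨⟨_, hbN, mem_union_left _ hbX⟩, hU, by omega,
        by simp [hxX, hxY, hbX]⟩) (fun v _ hv => ?_) ?_
      · exact ⟨fun _ => mem_union_left _ hbX, fun _ => mem_union_left _ (hv.2 hbX)⟩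
      · exact ⟨fun _ => mem_union_left _ hbX, fun _ => mem_union_right _ (haY.2 hbY)⟩
    · push Not at hU
      have h1 := hS (insert x X) ⟨u1, hu1, mem_insert_of_mem hu1'⟩
        ⟨v1, hv1, fun h => (mem_insert.1 h).elim (nx _ hv1) hv1'⟩
      have h2 := hS (insert x Y) ⟨u2, hu2, mem_insert_of_mem hu2'⟩
        ⟨v2, hv2, fun h => (mem_insert.1 h).elim (nx _ hv2) hv2'⟩
      have h3 : od tl hd M (insert x X) + od tl hd M (insert x Y) +
          (M.map (fun e => if hd e = x then 1 else 0)).sum <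
          od tl hd M X + od tl hd M Y + (M.map (fun e => if tl e = x then 1 else 0)).sum := by
        unfold od
        simp only [← Multiset.sum_map_add]
        refine msum_lt _ _ _ (fun e he => ?_)
          ⟨eb, heb, by simp [ind, hb, hxX, hxY, hbX, hbY, hbx]⟩
        exact pw4 X Y x (tl e) (hd e) hxX hxY
          (fun h => mem_union.1 (hU _ ((ends e he).1 h)))
          (fun h => mem_union.1 (hU _ ((ends e he).2.1 h))) (ends e he).2.2
      omega

/-- The directed splitting-off theorem of Mader. -/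
theorem exists_split [Fintype V] (tl hd : E → V) (N : Finset V) (x : V) (hx : x ∉ N)
    (M : Multiset E) (K : ℕ)
    (hM : ∀ e ∈ M, (tl e ∈ N ∧ hd e ∈ N) ∨ (tl e = x ∧ hd e ∈ N) ∨ (tl e ∈ N ∧ hd e = x))
    (hdeg : (M.map (fun e => if hd e = x then 1 else 0)).sum =
      (M.map (fun e => if tl e = x then 1 else 0)).sum)
    (hS : Strong tl hd N M K) (eb : E) (heb : eb ∈ M) (hb : tl eb = x) :
    ∃ (ea : E) (M' : Multiset E), M = ea ::ₘ eb ::ₘ M' ∧ hd ea = x ∧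
      ∀ e', tl e' = tl ea → hd e' = hd eb → Strong tl hd N (e' ::ₘ M') K := by
  classical
  obtain ⟨ea, hea, ha, h⟩ := exists_partner tl hd N x hx M K hM hdeg hS eb heb hb
  have hne : eb ≠ ea := by
    rintro rfl
    rcases hM eb heb with h | h | h
    · exact hx (hb ▸ h.1)
    · exact hx (ha ▸ h.2)
    · exact hx (hb ▸ h.1)
  obtain ⟨M1, rfl⟩ := Multiset.exists_cons_of_mem hea
  obtain ⟨M', rfl⟩ := Multiset.exists_cons_of_mem ((Multiset.mem_cons.1 heb).resolve_left hne)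
  refine ⟨ea, M', rfl, ha, fun e' h1 h2 X hX1 hX2 => ?_⟩
  have h3 := hS X hX1 hX2
  have h4 := h X hX1 hX2
  simp only [od_cons, ind, h1, h2, ha, hb] at h3 h4 ⊢
  by_cases a1 : x ∈ X <;> by_cases a2 : tl ea ∈ X <;> by_cases a3 : hd eb ∈ X <;>
    simp only [a1, a2, a3, not_true, not_false_iff, and_true, and_false,
      if_true, if_false, iff_self, forall_const, imp_false, true_iff, false_iff] at h3 h4 ⊢ <;>
    omega

end Pool.Agent.Work.MP_820bad_co
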