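import Pool.Agent.Work.MP_820bad_co.Tree
import Pool.Agent.Work.MP_820bad_co.Hub

set_option autoImplicit false

namespace Pool.Agent.Work.MP_820bad_co

open Finset

variable {V C : Type*}

theorem hall_of_deg {ι α : Type*} [DecidableEq α] (t : ι → Finset α) (m : ℕ) (hm : 0 < m)
    (h1 : ∀ x, m ≤ (t x).card)
    (h2 : ∀ (a : α) (s : Finset ι), (∀ x ∈ s, a ∈ t x) → s.card ≤ m) :
    ∃ f : ι → α, Function.Injective f ∧ ∀ x, f x ∈ t x := by
  classical
  rw [← all_card_le_biUnion_card_iff_exists_injective]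
  intro s
  have := card_mul_le_card_mul (s := s) (t := s.biUnion t) (m := m) (n := m)
    (fun x a => a ∈ t x)
    (fun x hx => (h1 x).trans (card_le_card fun a ha => by
      rw [mem_bipartiteAbove]
      exact ⟨mem_biUnion.2 ⟨x, hx, ha⟩, ha⟩))
    (fun a _ => h2 a _ fun x hx => ((mem_bipartiteBelow _).1 hx).2)
  exact Nat.le_of_mul_le_mul_right this hm

theorem reach_of_rank (g : V → V → Prop) (W : Finset V) (ρ : V → ℕ)
    (h : ∀ v, v ∉ W → ∃ u, g u v ∧ ρ u < ρ v) (n : ℕ) :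
    ∀ v, ρ v < n → ∃ w ∈ W, Relation.ReflTransGen g w v := by
  induction n with
  | zero => intro v hv; omega
  | succ n ih =>
    intro v hv
    by_cases hW : v ∈ W
    · exact ⟨v, hW, Relation.ReflTransGen.refl⟩
    obtain ⟨u, h1, h2⟩ := h v hW
    obtain ⟨w, hw, h3⟩ := ih u (by omega)
    exact ⟨w, hw, h3.tail h1⟩

theorem exists_cand [DecidableEq V] [Fintype V] (N U : V → Finset V) (W Bad : Finset V)
    (ρ : V → ℕ) (k q : ℕ) (hN : ∀ v, 2 * (k * q + 4 * k) ≤ (N v).card)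
    (hW : ∀ v, v ∈ W ∨ 4 * k ≤ (N v ∩ W).card ∨
      k * q + 4 * k ≤ ((N v).filter (fun u => ρ u < ρ v)).card)
    (hB : Bad.card ≤ k * q) (hU1 : ∀ v, (U v).card ≤ k + k * q)
    (hU2 : ∀ v, v ∉ Bad → (U v).card ≤ 2 * k) :
    ∃ σ : V → ℕ, ∀ v, v ∉ W → 2 * k ≤ ((N v \ U v).filter (fun u => σ u < σ v)).card := by
  let M := univ.sup ρ + 2
  have hM : ∀ u, ρ u + 1 < M := fun u => by
    have : ρ u ≤ univ.sup ρ := le_sup (mem_univ u)
    omega
  refine ⟨fun u => if u ∈ W then 0 else if u ∈ Bad then M else ρ u + 1, fun v hv => ?_⟩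
  beta_reduce
  by_cases hvB : v ∈ Bad
  · have h1 : (N v \ U v) \ Bad ⊆ (N v \ U v).filter (fun u =>
        (if u ∈ W then 0 else if u ∈ Bad then M else ρ u + 1) <
        (if v ∈ W then 0 else if v ∈ Bad then M else ρ v + 1)) := by
      intro u hu
      rw [mem_sdiff] at hu
      rw [mem_filter, if_neg hv, if_pos hvB, if_neg hu.2]
      refine ⟨hu.1, ?_⟩
      have := hM u
      split_ifs <;> omega
    have h2 := card_le_card h1
    have h3 := le_card_sdiff Bad (N v \ U v)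
    have h4 := le_card_sdiff (U v) (N v)
    have := hN v
    have := hU1 v
    omega
  · have hU := hU2 v hvB
    rcases hW v with h | h | h
    · exact absurd h hv
    · have h1 : (N v ∩ W) \ U v ⊆ (N v \ U v).filter (fun u =>
          (if u ∈ W then 0 else if u ∈ Bad then M else ρ u + 1) <
          (if v ∈ W then 0 else if v ∈ Bad then M else ρ v + 1)) := by
        intro u hu
        rw [mem_sdiff, mem_inter] at hu
        rw [mem_filter, if_neg hv, if_neg hvB, if_pos hu.1.2, mem_sdiff]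
        exact ⟨⟨hu.1.1, hu.2⟩, by omega⟩
      have h2 := card_le_card h1
      have h3 := le_card_sdiff (U v) (N v ∩ W)
      omega
    · have h1 : ((N v).filter (fun u => ρ u < ρ v) \ U v) \ Bad ⊆ (N v \ U v).filter (fun u =>
          (if u ∈ W then 0 else if u ∈ Bad then M else ρ u + 1) <
          (if v ∈ W then 0 else if v ∈ Bad then M else ρ v + 1)) := by
        intro u hu
        rw [mem_sdiff, mem_sdiff, mem_filter] at hu
        rw [mem_filter, if_neg hv, if_neg hvB, if_neg hu.2, mem_sdiff]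
        refine ⟨⟨hu.1.1.1, hu.1.2⟩, ?_⟩
        have := hu.1.1.2
        split_ifs <;> omega
      have h2 := card_le_card h1
      have h3 := le_card_sdiff Bad ((N v).filter (fun u => ρ u < ρ v) \ U v)
      have h4 := le_card_sdiff (U v) ((N v).filter (fun u => ρ u < ρ v))
      omega

/-- Neighbours of `v` joined to it by an arc of one of the trees. -/
def used [DecidableEq V] [Fintype C] (F1 F2 : C → Finset (V × V)) (v : V) : Finset V :=
  univ.biUnion (fun c => ((F1 c).filter (fun a => a.2 = v)).image Prod.fst ∪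
    ((F2 c).filter (fun a => a.1 = v)).image Prod.snd)

theorem mem_used [DecidableEq V] [Fintype C] (F1 F2 : C → Finset (V × V)) (u v : V) (c : C)
    (h : (u, v) ∈ F1 c ∨ (v, u) ∈ F2 c) : u ∈ used F1 F2 v := by
  unfold used
  refine mem_biUnion.2 ⟨c, mem_univ _, ?_⟩
  rcases h with h | h
  · exact mem_union_left _ (mem_image.2 ⟨(u, v), mem_filter.2 ⟨h, rfl⟩, rfl⟩)
  · exact mem_union_right _ (mem_image.2 ⟨(v, u), mem_filter.2 ⟨h, rfl⟩, rfl⟩)

theorem card_used [DecidableEq V] [Fintype C] (F1 F2 : C → Finset (V × V)) (v : V) (m : ℕ)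
    (h1 : ∀ c a b, (a, v) ∈ F1 c → (b, v) ∈ F1 c → a = b)
    (h2 : ∀ c, ((F2 c).filter (fun a => a.1 = v)).card ≤ m) :
    (used F1 F2 v).card ≤ Fintype.card C * (1 + m) := by
  unfold used
  refine card_biUnion_le.trans ?_
  rw [← card_univ, ← smul_eq_mul]
  refine sum_le_card_nsmul _ _ _ fun c _ => (card_union_le _ _).trans (add_le_add ?_ ?_)
  · rw [card_le_one]
    intro a ha b hb
    obtain ⟨⟨a1, a2⟩, ha1, rfl⟩ := mem_image.1 ha
    obtain ⟨⟨b1, b2⟩, hb1, rfl⟩ := mem_image.1 hb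
    simp only [mem_filter] at ha1 hb1
    obtain ⟨ha1, rfl⟩ := ha1
    obtain ⟨hb1, rfl⟩ := hb1
    exact h1 c _ _ ha1 hb1
  · exact card_image_le.trans (h2 c)

/-- Ranks for the attachment arcs on one side. -/
theorem exists_rank [DecidableEq V] [Fintype V] [Fintype C] (N : V → Finset V) (W W' : Finset V)
    (ρ : V → ℕ) (k q : ℕ) (hk : Fintype.card C = k)
    (hN : ∀ v, 2 * (k * q + 4 * k) ≤ (N v).card)
    (hW : ∀ v, v ∈ W ∨ 4 * k ≤ (N v ∩ W).card ∨
      k * q + 4 * k ≤ ((N v).filter (fun u => ρ u < ρ v)).card)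
    (hW' : W'.card ≤ q) (F1 F2 : C → Finset (V × V)) (Br : C → Finset V)
    (h1 : ∀ c a b d, (a, d) ∈ F1 c → (b, d) ∈ F1 c → a = b)
    (h2 : ∀ c, (Br c).card ≤ W'.card)
    (h3 : ∀ c a, a ∉ Br c → ∀ b d, (a, b) ∈ F2 c → (a, d) ∈ F2 c → b = d)
    (h4 : ∀ c v, ((F2 c).filter (fun a => a.1 = v)).card ≤ W'.card) :
    ∃ σ : V → ℕ, ∀ v, v ∉ W →
      2 * k ≤ ((N v \ used F1 F2 v).filter (fun u => σ u < σ v)).card := by
  refine exists_cand N (used F1 F2) W (univ.biUnion Br) ρ k q hN hW ?_ (fun v => ?_)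
    (fun v hv => ?_)
  · refine card_biUnion_le.trans ?_
    rw [← hk, ← card_univ, ← smul_eq_mul]
    exact sum_le_card_nsmul _ _ _ fun c _ => (h2 c).trans hW'
  · have := card_used F1 F2 v q (fun c a b => h1 c a b v) (fun c => (h4 c v).trans hW')
    rw [hk, mul_add, mul_one] at this
    exact this
  · have := card_used F1 F2 v 1 (fun c a b => h1 c a b v) (fun c => card_le_one_of_fun _ _
      (h3 c v fun h => hv (mem_biUnion.2 ⟨c, mem_univ _, h⟩)))
    rw [hk] at this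
    omega

/-- The main theorem: few hubs on both sides give many disjoint strong spanning subdigraphs. -/
theorem main_hubs [DecidableEq V] [Fintype V] [Fintype C] [DecidableEq C] (r : V)
    (E : Finset (V × V)) (k q : ℕ) (hk : Fintype.card C = k) (hk0 : 0 < k)
    (Ni No : V → Finset V) (hNi : ∀ u v, u ∈ Ni v → (u, v) ∈ E)
    (hNo : ∀ u v, u ∈ No v → (v, u) ∈ E)
    (hE : ∀ X : Finset V, X.Nonempty → X ≠ univ → k * q + k ≤ dout E X)
    (di : ∀ v, 2 * (k * q + 4 * k) ≤ (Ni v).card) (dO : ∀ v, 2 * (k * q + 4 * k) ≤ (No v).card)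
    (Hi : Hubs Ni (4 * k) (k * q + 4 * k) q) (Ho : Hubs No (4 * k) (k * q + 4 * k) q) :
    ∃ A : C → V → V → Prop, (∀ c u v, A c u v → (u, v) ∈ E) ∧
      (∀ c d u v, A c u v → A d u v → c = d) ∧ ∀ c u v, Relation.ReflTransGen (A c) u v := by
  obtain ⟨Wi, ρi, hWi, Hi⟩ := Hi
  obtain ⟨Wo, ρo, hWo, Ho⟩ := Ho
  obtain ⟨B, hB1, hB2, hB3⟩ := branchings (ι := {w // w ∈ insert r Wi} × C) E (fun x => x.1.1)
    (fun X h1 h2 => le_trans (by
      rw [Fintype.card_prod, Fintype.card_coe, hk]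
      have := card_insert_le r Wi
      nlinarith) (hE X h1 h2))
  let Ec : C → V → V → Prop := fun c a b => ∃ w, (a, b) ∈ B (w, c)
  have hEc1 : ∀ c a b, Ec c a b → (a, b) ∈ E := fun c a b ⟨w, h⟩ => hB1 _ h
  have hEc2 : ∀ c d a b, Ec c a b → Ec d a b → c = d := fun c d a b ⟨w, h⟩ ⟨w', h'⟩ => by
    by_contra hcd
    exact disjoint_left.1 (hB2 (w, c) (w', d) fun e => hcd (Prod.mk.inj e).2) h h'
  have hEc3 : ∀ c v w, w ∈ insert r Wi → Relation.ReflTransGen (Ec c) v w := fun c v w hw =>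
    rtg_mono (fun a b h => ⟨⟨w, hw⟩, h⟩) (hB3 (⟨w, hw⟩, c) v)
  choose Ao Bo Fo o1 o2 o3 o4 o5 o6 o7 o8 using fun c =>
    exists_tree (Ec c) r Wi (fun w hw => hEc3 c r w (mem_insert_of_mem hw))
  choose Ai Bi Fi i1 i2 i3 i4 i5 i6 i7 i8 using fun c =>
    exists_tree (fun a b => Ec c b a) r Wo
      (fun w _ => rtg_swap (hEc3 c w r (mem_insert_self _ _)))
  obtain ⟨σi, hσi⟩ := exists_rank Ni Wi Wo ρi k q hk di Hi hWo Fo Fi Bi o5 i3 i6 i7
  obtain ⟨σo, hσo⟩ := exists_rank No Wo Wi ρo k q hk dO Ho hWi Fi Fo Bo i5 o3 o6 o7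
  let t : ({v // v ∉ Wi} ⊕ {v // v ∉ Wo}) × C → Finset (V × V) := fun x =>
    Sum.elim (fun v => ((Ni v.1 \ used Fo Fi v.1).filter (fun u => σi u < σi v.1)).image
        (fun u => (u, v.1)))
      (fun v => ((No v.1 \ used Fi Fo v.1).filter (fun u => σo u < σo v.1)).image
        (fun u => (v.1, u))) x.1
  have t1 : ∀ v c a b, (a, b) ∈ t (Sum.inl v, c) →
      b = v.1 ∧ a ∈ Ni b ∧ a ∉ used Fo Fi b ∧ σi a < σi b := by
    intro v c a b h
    obtain ⟨u, hu, e⟩ := mem_image.1 h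
    obtain ⟨rfl, rfl⟩ := Prod.mk.inj e
    rw [mem_filter, mem_sdiff] at hu
    exact ⟨rfl, hu.1.1, hu.1.2, hu.2⟩
  have t2 : ∀ v c a b, (a, b) ∈ t (Sum.inr v, c) →
      a = v.1 ∧ b ∈ No a ∧ b ∉ used Fi Fo a ∧ σo b < σo a := by
    intro v c a b h
    obtain ⟨u, hu, e⟩ := mem_image.1 h
    obtain ⟨rfl, rfl⟩ := Prod.mk.inj e
    rw [mem_filter, mem_sdiff] at hu
    exact ⟨rfl, hu.1.1, hu.1.2, hu.2⟩
  obtain ⟨f, hf1, hf2⟩ := hall_of_deg t (2 * k) (by omega) (by
      rintro ⟨v | v, c⟩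
      · exact (hσi v.1 v.2).trans (card_image_of_injective _
          (fun a b h => (Prod.mk.inj h).1)).ge
      · exact (hσo v.1 v.2).trans (card_image_of_injective _
          (fun a b h => (Prod.mk.inj h).2)).ge) (by
      rintro ⟨a, b⟩ s hs
      have : s.card ≤ (univ : Finset (Bool × C)).card := by
        refine card_le_card_of_injOn (fun x => (x.1.isLeft, x.2)) (fun _ _ => mem_univ _) ?_
        rintro ⟨v | v, c⟩ hx ⟨w | w, d⟩ hy e
        · obtain rfl : c = d := (Prod.mk.inj e).2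
          have e1 := (t1 _ _ _ _ (hs _ hx)).1
          have e2 := (t1 _ _ _ _ (hs _ hy)).1
          rw [Subtype.ext (e1.symm.trans e2)]
        · simp at e
        · simp at e
        · obtain rfl : c = d := (Prod.mk.inj e).2
          have e1 := (t2 _ _ _ _ (hs _ hx)).1
          have e2 := (t2 _ _ _ _ (hs _ hy)).1
          rw [Subtype.ext (e1.symm.trans e2)]
      rwa [card_univ, Fintype.card_prod, Fintype.card_bool, hk] at this)
  have f1 : ∀ x c a b, f (x, c) = (a, b) →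
      (a, b) ∈ E ∧ ∀ d, (a, b) ∉ Fo d ∧ (b, a) ∉ Fi d := by
    rintro (v | v) c a b h
    · obtain ⟨_, e2, e3, _⟩ := t1 v c a b (h ▸ hf2 _)
      exact ⟨hNi _ _ e2, fun d => ⟨fun h => e3 (mem_used _ _ _ _ d (Or.inl h)),
        fun h => e3 (mem_used _ _ _ _ d (Or.inr h))⟩⟩
    · obtain ⟨_, e2, e3, _⟩ := t2 v c a b (h ▸ hf2 _)
      exact ⟨hNo _ _ e2, fun d => ⟨fun h => e3 (mem_used _ _ _ _ d (Or.inr h)),
        fun h => e3 (mem_used _ _ _ _ d (Or.inl h))⟩⟩
  refine ⟨fun c a b => ((a, b) ∈ Fo c ∨ (b, a) ∈ Fi c) ∨ ∃ x, f (x, c) = (a, b),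
    ?_, ?_, ?_⟩
  · rintro c a b ((h | h) | ⟨x, h⟩)
    · exact hEc1 c _ _ (o4 c _ _ h).1
    · exact hEc1 c _ _ (i4 c _ _ h).1
    · exact (f1 _ _ _ _ h).1
  · have key : ∀ c a b, ((a, b) ∈ Fo c ∨ (b, a) ∈ Fi c) → Ec c a b := by
      rintro c a b (h | h)
      · exact (o4 c _ _ h).1
      · exact (i4 c _ _ h).1
    rintro c d a b (h | ⟨x, h⟩) (h' | ⟨y, h'⟩)
    · exact hEc2 c d a b (key _ _ _ h) (key _ _ _ h')
    · exact absurd h (not_or.2 ((f1 _ _ _ _ h').2 c))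
    · exact absurd h' (not_or.2 ((f1 _ _ _ _ h).2 d))
    · exact (Prod.mk.inj (hf1 (h.trans h'.symm))).2
  · intro c u v
    obtain ⟨w, hw, hwv⟩ := reach_of_rank (fun a b => ∃ x, f (x, c) = (a, b)) Wi σi
      (fun z hz => by
        have h := hf2 (Sum.inl ⟨z, hz⟩, c)
        generalize hx : f (Sum.inl ⟨z, hz⟩, c) = p at h
        obtain ⟨a, b⟩ := p
        obtain ⟨e1, _, _, e4⟩ := t1 _ _ a b h
        obtain rfl : b = z := e1
        exact ⟨a, ⟨_, hx⟩, e4⟩) _ v (Nat.lt_succ_self _)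
    obtain ⟨w', hw', hwu⟩ := reach_of_rank (fun a b => ∃ x, f (x, c) = (b, a)) Wo σo
      (fun z hz => by
        have h := hf2 (Sum.inr ⟨z, hz⟩, c)
        generalize hx : f (Sum.inr ⟨z, hz⟩, c) = p at h
        obtain ⟨a, b⟩ := p
        obtain ⟨e1, _, _, e4⟩ := t2 _ _ a b h
        obtain rfl : a = z := e1
        exact ⟨b, ⟨_, hx⟩, e4⟩) _ u (Nat.lt_succ_self _)
    refine (rtg_mono (fun a b h => Or.inr h) (rtg_swap hwu)).trans ?_
    refine (rtg_mono (fun a b h => Or.inl (Or.inr h)) (rtg_swap (i8 c w' (i2 c hw')))).trans ?_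
    refine (rtg_mono (fun a b h => Or.inl (Or.inl h)) (o8 c w (o2 c hw))).trans ?_
    exact rtg_mono (fun a b h => Or.inr h) hwv

end Pool.Agent.Work.MP_820bad_co
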