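import Mathlib

-- merged part: Pool.Agent.Work.MP_820bad_co.ThStep
section
set_option autoImplicit false

namespace Pool.Agent.Work.MP_820bad_co.Th

open Finset

variable {V A : Type*} [DecidableEq V] [DecidableEq A]

/-- Number of arcs of `D` entering `W`. -/
def din (tl hd : A → V) (D : Finset A) (W : Finset V) : ℕ :=
  (D.filter (fun e => tl e ∉ W ∧ hd e ∈ W)).card

omit [DecidableEq A] in
theorem din_submod (tl hd : A → V) (D : Finset A) (X Y : Finset V) :
    din tl hd D (X ∩ Y) + din tl hd D (X ∪ Y) ≤ din tl hd D X + din tl hd D Y := by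
  unfold din
  simp only [card_filter, ← sum_add_distrib]
  refine sum_le_sum fun a _ => ?_
  by_cases h1 : tl a ∈ X <;> by_cases h2 : tl a ∈ Y <;> by_cases h3 : hd a ∈ X <;>
    by_cases h4 : hd a ∈ Y <;> simp [h1, h2, h3, h4]

omit [DecidableEq A] in
theorem din_mono (tl hd : A → V) {D G : Finset A} (h : G ⊆ D) (W : Finset V) :
    din tl hd G W ≤ din tl hd D W :=
  card_le_card (filter_subset_filter _ h)

omit [DecidableEq A] in
theorem exists_arc (tl hd : A → V) (G : Finset A) (Z Y : Finset V)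
    (h : din tl hd G Z < din tl hd G (Z \ Y)) :
    ∃ e ∈ G, tl e ∈ Z ∧ tl e ∈ Y ∧ hd e ∈ Z ∧ hd e ∉ Y := by
  by_contra hc
  push Not at hc
  apply absurd h
  push Not
  refine card_le_card fun e he => ?_
  simp only [mem_filter, mem_sdiff] at he ⊢
  obtain ⟨heG, h1, h2, h3⟩ := he
  refine ⟨heG, fun h4 => ?_, h2⟩
  by_cases h5 : tl e ∈ Y
  · exact h3 (hc e heG h4 h5 h2)
  · exact h1 ⟨h4, h5⟩

theorem din_erase_of_enter (tl hd : A → V) (G : Finset A) (e : A) (he : e ∈ G) (W : Finset V)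
    (h1 : tl e ∉ W) (h2 : hd e ∈ W) : din tl hd (G.erase e) W + 1 = din tl hd G W := by
  unfold din
  rw [filter_erase, card_erase_add_one]
  simp [he, h1, h2]

theorem din_erase_of_not (tl hd : A → V) (G : Finset A) (e : A) (W : Finset V)
    (h : ¬ (tl e ∉ W ∧ hd e ∈ W)) : din tl hd (G.erase e) W = din tl hd G W := by
  unfold din
  rw [filter_erase, erase_eq_of_notMem]
  simp only [mem_filter, not_and]
  intro _ h1 h2
  exact h ⟨h1, h2⟩

/-- Removing arcs whose heads are outside `W` does not change the in-degree of `W`. -/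
theorem din_eq_of_heads (tl hd : A → V) {D G : Finset A} (h : G ⊆ D) (W : Finset V)
    (hh : ∀ e ∈ D, e ∉ G → hd e ∉ W) : din tl hd G W = din tl hd D W := by
  unfold din
  congr 1
  ext e
  simp only [mem_filter]
  constructor
  · rintro ⟨h1, h2⟩
    exact ⟨h h1, h2⟩
  · rintro ⟨h1, h2⟩
    refine ⟨?_, h2⟩
    by_contra h3
    exact hh e h1 h3 h2.2

/-- One growth step of the out-tree. -/
theorem grow_step [Fintype V] (tl hd : A → V) (G : Finset A) (SR SB Y : Finset V) (b : V)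
    (h1 : ∀ W : Finset V, W.Nonempty → Disjoint W SR → 1 ≤ din tl hd G W)
    (h2 : ∀ W : Finset V, W.Nonempty → Disjoint W SR → Disjoint W Y →
      2 ≤ din tl hd G W ∧ (Disjoint W SB → 3 ≤ din tl hd G W))
    (h3 : ∃ e ∈ G, tl e ∈ Y ∧ hd e ∉ Y)
    (hbB : b ∈ SB) (hbY : b ∉ Y)
    (h4 : ∀ W : Finset V, W.Nonempty → Disjoint W SR → din tl hd G W = 1 → b ∈ W) :
    ∃ e ∈ G, tl e ∈ Y ∧ hd e ∉ Y ∧
      (∀ W : Finset V, W.Nonempty → Disjoint W SR → 1 ≤ din tl hd (G.erase e) W) ∧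
      ∃ b' ∈ SB, ∀ W : Finset V, W.Nonempty → Disjoint W SR →
        din tl hd (G.erase e) W = 1 → b' ∈ W := by
  classical
  -- the core `Z` of the deficient sets
  obtain ⟨Z, hZ1, hZ2, e, heG, heZ, heY, hvZ, hvY⟩ : ∃ Z : Finset V,
      (∀ W : Finset V, W.Nonempty → Disjoint W SR → din tl hd G W = 1 → Z ⊆ W) ∧
      (Z = univ ∨ (Disjoint Z SR ∧ din tl hd G Z = 1)) ∧
      ∃ e ∈ G, tl e ∈ Z ∧ tl e ∈ Y ∧ hd e ∈ Z ∧ hd e ∉ Y := by
    by_cases hD : ∃ W : Finset V, W.Nonempty ∧ Disjoint W SR ∧ din tl hd G W = 1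
    · obtain ⟨Z, hZ, hmin⟩ := exists_min_image
        (univ.filter fun W : Finset V => W.Nonempty ∧ Disjoint W SR ∧ din tl hd G W = 1) card
        (by obtain ⟨W, hW⟩ := hD; exact ⟨W, by simpa using hW⟩)
      simp only [mem_filter, mem_univ, true_and] at hZ hmin
      obtain ⟨hZn, hZd, hZ1⟩ := hZ
      have hbZ := h4 Z hZn hZd hZ1
      refine ⟨Z, fun W hWn hWd hW1 => ?_, Or.inr ⟨hZd, hZ1⟩, ?_⟩
      · have hbW := h4 W hWn hWd hW1
        have hn : (Z ∩ W).Nonempty := ⟨b, mem_inter.2 ⟨hbZ, hbW⟩⟩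
        have hd' : Disjoint (Z ∩ W) SR := hZd.mono_left inter_subset_left
        have a1 := h1 _ hn hd'
        have a2 := h1 (Z ∪ W) (hZn.mono subset_union_left) (disjoint_union_left.2 ⟨hZd, hWd⟩)
        have a3 := din_submod tl hd G Z W
        have a4 := hmin (Z ∩ W) ⟨hn, hd', by omega⟩
        have a5 : Z ∩ W = Z := eq_of_subset_of_card_le inter_subset_left a4
        rw [← a5]
        exact inter_subset_right
      · apply exists_arc
        have := (h2 (Z \ Y) ⟨b, mem_sdiff.2 ⟨hbZ, hbY⟩⟩ (hZd.mono_left sdiff_subset)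
          sdiff_disjoint).1
        omega
    · obtain ⟨e, heG, h5, h6⟩ := h3
      exact ⟨univ, fun W hWn hWd hW1 => absurd ⟨W, hWn, hWd, hW1⟩ hD, Or.inl rfl,
        e, heG, mem_univ _, h5, mem_univ _, h6⟩
  -- a set missing a vertex of `Z` has value at least two
  have safe : ∀ u ∈ Z, ∀ W : Finset V, W.Nonempty → Disjoint W SR → u ∉ W →
      2 ≤ din tl hd G W := by
    intro u hu W hWn hWd huW
    have a1 := h1 W hWn hWd
    have a2 : din tl hd G W ≠ 1 := fun h => huW (hZ1 W hWn hWd h hu)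
    omega
  -- reduction of the conclusion
  have fin : ∀ e ∈ G, tl e ∈ Z → tl e ∈ Y → hd e ∉ Y → ∀ b' ∈ SB,
      (∀ W : Finset V, W.Nonempty → Disjoint W SR → din tl hd G W = 1 → b' ∈ W) →
      (∀ W : Finset V, Disjoint W SR → din tl hd G W = 2 → tl e ∉ W → hd e ∈ W → b' ∈ W) →
      ∃ e ∈ G, tl e ∈ Y ∧ hd e ∉ Y ∧
      (∀ W : Finset V, W.Nonempty → Disjoint W SR → 1 ≤ din tl hd (G.erase e) W) ∧
      ∃ b' ∈ SB, ∀ W : Finset V, W.Nonempty → Disjoint W SR →
        din tl hd (G.erase e) W = 1 → b' ∈ W := by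
    intro e heG heZ heY hvY b' hb' hA hB
    refine ⟨e, heG, heY, hvY, fun W hWn hWd => ?_, b', hb', fun W hWn hWd hW => ?_⟩
    · by_cases hent : tl e ∉ W ∧ hd e ∈ W
      · have a1 := din_erase_of_enter tl hd G e heG W hent.1 hent.2
        have a2 := safe _ heZ W hWn hWd hent.1
        omega
      · rw [din_erase_of_not tl hd G e W hent]
        exact h1 W hWn hWd
    · by_cases hent : tl e ∉ W ∧ hd e ∈ W
      · have a1 := din_erase_of_enter tl hd G e heG W hent.1 hent.2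
        exact hB W hWd (by omega) hent.1 hent.2
      · rw [din_erase_of_not tl hd G e W hent] at hW
        exact hA W hWn hWd hW
  by_cases hS : ∃ W : Finset V, Disjoint W SR ∧ din tl hd G W = 2 ∧ tl e ∉ W ∧ hd e ∈ W
  swap
  · exact fin e heG heZ heY hvY b hbB h4
      (fun W a1 a2 a3 a4 => absurd ⟨W, a1, a2, a3, a4⟩ hS)
  obtain ⟨W0, hW0, hmin0⟩ := exists_min_image
    (univ.filter fun W : Finset V => Disjoint W SR ∧ din tl hd G W = 2 ∧ tl e ∉ W ∧ hd e ∈ W) card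
    (by obtain ⟨W, hW⟩ := hS; exact ⟨W, by simpa using hW⟩)
  simp only [mem_filter, mem_univ, true_and] at hW0 hmin0
  obtain ⟨h0d, h02, h0u, h0v⟩ := hW0
  -- `W0` lies in every set `W` meeting it at the head of `e` with small union value
  have sub0 : ∀ W : Finset V, hd e ∈ W → din tl hd G (W0 ∩ W) ≤ 2 → W0 ⊆ W := by
    intro W hv hle
    have hn : (W0 ∩ W).Nonempty := ⟨_, mem_inter.2 ⟨h0v, hv⟩⟩
    have hd' : Disjoint (W0 ∩ W) SR := h0d.mono_left inter_subset_left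
    have hu : tl e ∉ W0 ∩ W := fun h => h0u (mem_inter.1 h).1
    have a1 := safe _ heZ _ hn hd' hu
    have a4 := hmin0 (W0 ∩ W) ⟨hd', by omega, hu, mem_inter.2 ⟨h0v, hv⟩⟩
    have a5 : W0 ∩ W = W0 := eq_of_subset_of_card_le inter_subset_left a4
    rw [← a5]
    exact inter_subset_right
  have h0Z : W0 ⊆ Z := by
    rcases hZ2 with rfl | ⟨hZd, hZ1'⟩
    · exact subset_univ _
    · apply sub0 Z hvZ
      have a2 := h1 (W0 ∪ Z) ⟨_, mem_union_left _ h0v⟩ (disjoint_union_left.2 ⟨h0d, hZd⟩)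
      have a3 := din_submod tl hd G W0 Z
      omega
  by_cases hB0 : Disjoint W0 SB
  swap
  · obtain ⟨b', hb1, hb2⟩ := not_disjoint_iff.1 hB0
    refine fin e heG heZ heY hvY b' hb2 (fun W a1 a2 a3 => hZ1 W a1 a2 a3 (h0Z hb1))
      (fun W a1 a2 a3 a4 => sub0 W a4 ?_ hb1)
    have a5 := safe _ heZ (W0 ∪ W) ⟨_, mem_union_left _ h0v⟩ (disjoint_union_left.2 ⟨h0d, a1⟩)
      (by simp [h0u, a3])
    have a6 := din_submod tl hd G W0 W
    omega
  obtain ⟨W1, hW1, hmin1⟩ := exists_min_image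
    (univ.filter fun W : Finset V => W ⊆ W0 ∧ din tl hd G W = 2 ∧ ¬ W ⊆ Y) card
    ⟨W0, by simpa using ⟨h02, fun h => hvY (h h0v)⟩⟩
  simp only [mem_filter, mem_univ, true_and] at hW1 hmin1
  obtain ⟨h10, h12, h1Y⟩ := hW1
  have h1d : Disjoint W1 SR := h0d.mono_left h10
  obtain ⟨e1, he1G, hu1, hu1Y, hv1, hv1Y⟩ := exists_arc tl hd G W1 Y (by
    have := (h2 (W1 \ Y) (sdiff_nonempty.2 h1Y) (h1d.mono_left sdiff_subset) sdiff_disjoint).2
      (hB0.mono_left (sdiff_subset.trans h10))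
    omega)
  have hu1Z : tl e1 ∈ Z := h0Z (h10 hu1)
  refine fin e1 he1G hu1Z hu1Y hv1Y b hbB h4 (fun W a1 a2 a3 a4 => ?_)
  have hn : (W1 ∩ W).Nonempty := ⟨_, mem_inter.2 ⟨hv1, a4⟩⟩
  have hu : tl e1 ∉ W1 ∩ W := fun h => a3 (mem_inter.1 h).2
  have b1 := safe _ hu1Z _ hn (h1d.mono_left inter_subset_left) hu
  have b2 : din tl hd G (W1 ∩ W) ≠ 2 := by
    intro h
    have c1 := hmin1 (W1 ∩ W) ⟨inter_subset_left.trans h10, h,
      fun hh => hv1Y (hh (mem_inter.2 ⟨hv1, a4⟩))⟩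
    have c2 : W1 ∩ W = W1 := eq_of_subset_of_card_le inter_subset_left c1
    rw [c2] at hu
    exact hu hu1
  have hun : (W1 ∪ W).Nonempty := ⟨_, mem_union_left _ hu1⟩
  have hud : Disjoint (W1 ∪ W) SR := disjoint_union_left.2 ⟨h1d, a1⟩
  have b3 := h1 _ hun hud
  have b4 := din_submod tl hd G W1 W
  have b5 := h4 _ hun hud (by omega)
  rcases mem_union.1 b5 with h | h
  · exact absurd hbB (disjoint_left.1 hB0 (h10 h))
  · exact h

end Pool.Agent.Work.MP_820bad_co.Th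
end

-- merged part: Pool.Agent.Work.MP_820bad_co.ThMain
section
set_option autoImplicit false

namespace Pool.Agent.Work.MP_820bad_co.Th

open Finset Relation

variable {V A : Type*} [DecidableEq V] [DecidableEq A]

/-- The adjacency relation of an arc set. -/
def rel (tl hd : A → V) (T : Finset A) (x y : V) : Prop := ∃ e ∈ T, tl e = x ∧ hd e = y

omit [DecidableEq V] [DecidableEq A] in
theorem reach_mono (tl hd : A → V) {T T' : Finset A} (h : T ⊆ T') {x y : V}
    (hxy : ReflTransGen (rel tl hd T) x y) : ReflTransGen (rel tl hd T') x y := by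
  induction hxy with
  | refl => exact ReflTransGen.refl
  | tail _ hbc ih =>
    obtain ⟨e, he, h1, h2⟩ := hbc
    exact ih.tail ⟨e, h he, h1, h2⟩

omit [DecidableEq V] [DecidableEq A] in
theorem reach_swap (tl hd : A → V) {T : Finset A} {x y : V}
    (hxy : ReflTransGen (rel tl hd T) x y) : ReflTransGen (rel hd tl T) y x := by
  induction hxy with
  | refl => exact ReflTransGen.refl
  | tail _ hbc ih =>
    obtain ⟨e, he, h1, h2⟩ := hbc
    exact ih.head ⟨e, he, h2, h1⟩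

/-- The non-deficient invariant. -/
def Inv0 (tl hd : A → V) (D : Finset A) (SR SB : Finset V) : Prop :=
  ∀ W : Finset V, W.Nonempty → Disjoint W SR →
    2 ≤ din tl hd D W ∧ (Disjoint W SB → 3 ≤ din tl hd D W)

/-- The invariant with deficiency at `b`. -/
def Inv1 (tl hd : A → V) (D : Finset A) (SR SB : Finset V) (b : V) : Prop :=
  ∀ W : Finset V, W.Nonempty → Disjoint W SR →
    1 ≤ din tl hd D W ∧ (b ∉ W → 2 ≤ din tl hd D W) ∧ (Disjoint W SB → 3 ≤ din tl hd D W)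

theorem grow_loop [Fintype V] (tl hd : A → V) (D : Finset A) (SR SB : Finset V) (a : V)
    (hR : Inv0 tl hd D SR SB)
    (hB : ∀ U : Finset V, U.Nonempty → Disjoint U SB → 1 ≤ din hd tl D U) :
    ∀ (n : ℕ) (G : Finset A) (Y : Finset V), (univ \ Y).card = n → G ⊆ D →
      (∀ e ∈ D, e ∉ G → hd e ∈ Y) → a ∈ Y →
      (∀ y ∈ Y, ReflTransGen (rel tl hd (D \ G)) a y) →
      (∀ W : Finset V, W.Nonempty → Disjoint W SR → 1 ≤ din tl hd G W) →
      (∃ b ∈ SB, ∀ W : Finset V, W.Nonempty → Disjoint W SR → din tl hd G W = 1 → b ∈ W) →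
      ∃ G' ⊆ D, (∃ y ∈ SB, ReflTransGen (rel tl hd (D \ G')) a y) ∧
        (∀ W : Finset V, W.Nonempty → Disjoint W SR → 1 ≤ din tl hd G' W) ∧
        ∃ b, ∀ W : Finset V, W.Nonempty → Disjoint W SR → din tl hd G' W = 1 → b ∈ W := by
  intro n
  induction n using Nat.strong_induction_on with
  | _ n ih =>
  intro G Y hn hGD hhd haY hreach h1 h4
  obtain ⟨b, hbB, h4⟩ := h4
  by_cases hY : Disjoint Y SB
  swap
  · obtain ⟨y, hy1, hy2⟩ := not_disjoint_iff.1 hY
    exact ⟨G, hGD, ⟨y, hy2, hreach y hy1⟩, h1, b, h4⟩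
  have h2 : ∀ W : Finset V, W.Nonempty → Disjoint W SR → Disjoint W Y →
      2 ≤ din tl hd G W ∧ (Disjoint W SB → 3 ≤ din tl hd G W) := by
    intro W a1 a2 a3
    rw [din_eq_of_heads tl hd hGD W (fun e he heG h => disjoint_left.1 a3 h (hhd e he heG))]
    exact hR W a1 a2
  have h3 : ∃ e ∈ G, tl e ∈ Y ∧ hd e ∉ Y := by
    have := hB Y ⟨a, haY⟩ hY
    unfold din at this
    obtain ⟨e, he⟩ := card_pos.1 this
    simp only [mem_filter] at he
    refine ⟨e, ?_, he.2.2, he.2.1⟩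
    by_contra h
    exact he.2.1 (hhd e he.1 h)
  obtain ⟨e, heG, heY, hvY, k1, k4⟩ := grow_step tl hd G SR SB Y b h1 h2 h3 hbB
    (fun h => disjoint_left.1 hY h hbB) h4
  have hsub : D \ G ⊆ D \ G.erase e := sdiff_subset_sdiff (Subset.refl _) (erase_subset _ _)
  refine ih (univ \ insert (hd e) Y).card ?_ (G.erase e) (insert (hd e) Y) rfl
    ((erase_subset _ _).trans hGD) ?_ (mem_insert_of_mem haY) ?_ k1 k4
  · rw [← hn]
    apply card_lt_card
    refine ⟨sdiff_subset_sdiff (Subset.refl _) (subset_insert _ _), fun h => ?_⟩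
    have := h (mem_sdiff.2 ⟨mem_univ (hd e), hvY⟩)
    simp at this
  · intro e' he' hne
    by_cases h : e' = e
    · rw [h]; exact mem_insert_self _ _
    · exact mem_insert_of_mem (hhd e' he' (fun h' => hne (mem_erase.2 ⟨h, h'⟩)))
  · intro y hy
    rcases mem_insert.1 hy with rfl | hy
    · exact (reach_mono tl hd hsub (hreach _ heY)).tail
        ⟨e, mem_sdiff.2 ⟨hGD heG, notMem_erase _ _⟩, rfl, rfl⟩
    · exact reach_mono tl hd hsub (hreach _ hy)

theorem blue_step [Fintype V] (tl hd : A → V) (D : Finset A) (SR SB : Finset V) (a : V)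
    (hR : Inv0 tl hd D SR SB) (hB : Inv1 hd tl D SB SR a) (hne : SB.Nonempty)
    (huniv : SB ≠ univ) :
    ∃ P ⊆ D, ∃ Q : Finset V, SB ⊂ Q ∧ (∀ x ∈ Q, ∃ y ∈ SB, ReflTransGen (rel tl hd P) x y) ∧
      Inv0 hd tl (D \ P) Q SR ∧ ∃ b, Inv1 tl hd (D \ P) SR Q b := by
  classical
  obtain ⟨a, haB, hB⟩ : ∃ a, a ∉ SB ∧ Inv1 hd tl D SB SR a := by
    by_cases h : a ∈ SB
    · obtain ⟨x, hx⟩ : ∃ x, x ∉ SB := by
        by_contra hc
        push Not at hc
        exact huniv (eq_univ_iff_forall.2 hc)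
      refine ⟨x, hx, fun W a1 a2 => ?_⟩
      obtain ⟨b1, b2, b3⟩ := hB W a1 a2
      exact ⟨b1, fun _ => b2 (fun h' => disjoint_left.1 a2 h' h), b3⟩
    · exact ⟨a, h, hB⟩
  obtain ⟨t, ht⟩ := hne
  obtain ⟨G, hGD, ⟨y0, hy0, hay⟩, k1, b, k4⟩ := grow_loop tl hd D SR SB a hR
    (fun U a1 a2 => (hB U a1 a2).1) _ D {a} rfl (Subset.refl _) (fun e h1 h2 => absurd h1 h2)
    (mem_singleton_self a) (fun y hy => by rw [mem_singleton.1 hy])
    (fun W a1 a2 => by have := (hR W a1 a2).1; omega)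
    ⟨t, ht, fun W a1 a2 a3 => by have := (hR W a1 a2).1; omega⟩
  set Q : Finset V := univ.filter fun x => ∃ y ∈ SB, ReflTransGen (rel tl hd (D \ G)) x y
    with hQ
  have memQ : ∀ x, x ∈ Q ↔ ∃ y ∈ SB, ReflTransGen (rel tl hd (D \ G)) x y := by
    intro x; simp [hQ]
  set P : Finset A := (D \ G).filter fun e => tl e ∈ Q ∧ hd e ∈ Q with hP
  have memP : ∀ e, e ∈ P ↔ e ∈ D \ G ∧ tl e ∈ Q ∧ hd e ∈ Q := by
    intro e; rw [hP, mem_filter]
  have hSQ : SB ⊆ Q := fun x hx => (memQ x).2 ⟨x, hx, ReflTransGen.refl⟩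
  have haQ : a ∈ Q := (memQ a).2 ⟨y0, hy0, hay⟩
  have hGP : G ⊆ D \ P := fun e he =>
    mem_sdiff.2 ⟨hGD he, fun h => (mem_sdiff.1 ((memP e).1 h).1).2 he⟩
  refine ⟨P, fun e he => (mem_sdiff.1 ((memP e).1 he).1).1, Q,
    ⟨hSQ, fun h => haB (h haQ)⟩, ?_, ?_, b, ?_⟩
  · intro x hx
    obtain ⟨y, hy, hxy⟩ := (memQ x).1 hx
    refine ⟨y, hy, ?_⟩
    clear hx
    induction hxy using ReflTransGen.head_induction_on with
    | refl => exact ReflTransGen.refl
    | @head u v huv hvy ih =>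
      obtain ⟨e, he, h1, h2⟩ := huv
      refine ih.head ⟨e, (memP e).2 ⟨he, ?_, ?_⟩, h1, h2⟩
      · rw [h1]; exact (memQ u).2 ⟨y, hy, hvy.head ⟨e, he, h1, h2⟩⟩
      · rw [h2]; exact (memQ v).2 ⟨y, hy, hvy⟩
  · intro U a1 a2
    rw [din_eq_of_heads hd tl sdiff_subset U (fun e he hn h => by
      have : e ∈ P := by
        by_contra h'
        exact hn (mem_sdiff.2 ⟨he, h'⟩)
      exact disjoint_left.1 a2 h ((memP e).1 this).2.1)]
    obtain ⟨_, b2, b3⟩ := hB U a1 (a2.mono_right hSQ)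
    exact ⟨b2 (fun h => disjoint_left.1 a2 h haQ), b3⟩
  · intro W a1 a2
    have b1 := din_mono tl hd hGP W
    have b2 := k1 W a1 a2
    refine ⟨by omega, fun hb => ?_, fun a3 => ?_⟩
    · have b3 : din tl hd G W ≠ 1 := fun h => hb (k4 W a1 a2 h)
      omega
    · rw [din_eq_of_heads tl hd sdiff_subset W (fun e he hn h => by
        have : e ∈ P := by
          by_contra h'
          exact hn (mem_sdiff.2 ⟨he, h'⟩)
        exact disjoint_left.1 a3 h ((memP e).1 this).2.2)]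
      exact (hR W a1 a2).2 (a3.mono_right hSQ)

/-- The conclusion for root sets. -/
def Concl (tl hd : A → V) (D : Finset A) (SR SB : Finset V) : Prop :=
  ∃ T₁ ⊆ D, ∃ T₂ ⊆ D, Disjoint T₁ T₂ ∧
    (∀ v, ∃ x ∈ SR, ReflTransGen (rel tl hd T₁) x v) ∧
    (∀ v, ∃ y ∈ SB, ReflTransGen (rel tl hd T₂) v y)

omit [DecidableEq V] [DecidableEq A] in
theorem Concl.swap {tl hd : A → V} {D : Finset A} {SR SB : Finset V}
    (h : Concl hd tl D SB SR) : Concl tl hd D SR SB := by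
  obtain ⟨T₁, h1, T₂, h2, hd', r1, r2⟩ := h
  refine ⟨T₂, h2, T₁, h1, hd'.symm, fun v => ?_, fun v => ?_⟩
  · obtain ⟨y, hy, h⟩ := r2 v
    exact ⟨y, hy, reach_swap hd tl h⟩
  · obtain ⟨y, hy, h⟩ := r1 v
    exact ⟨y, hy, reach_swap hd tl h⟩

theorem main_ind [Fintype V] : ∀ (n : ℕ) (tl hd : A → V) (D : Finset A) (SR SB : Finset V) (a : V),
    (univ \ SR).card + (univ \ SB).card = n → SR.Nonempty → SB.Nonempty →
    Inv0 tl hd D SR SB → Inv1 hd tl D SB SR a → Concl tl hd D SR SB := by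
  intro n
  induction n using Nat.strong_induction_on with
  | _ n ih =>
  have key : ∀ (tl hd : A → V) (D : Finset A) (SR SB : Finset V) (a : V),
      (univ \ SR).card + (univ \ SB).card = n → SR.Nonempty → SB.Nonempty →
      Inv0 tl hd D SR SB → Inv1 hd tl D SB SR a → SB ≠ univ → Concl tl hd D SR SB := by
    intro tl hd D SR SB a hn hR hB h0 h1 hne
    obtain ⟨P, hPD, Q, hQ, hreach, k0, b, k1⟩ := blue_step tl hd D SR SB a h0 h1 hB hne
    have hlt : (univ \ Q).card < (univ \ SB).card := by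
      apply card_lt_card
      obtain ⟨x, hx1, hx2⟩ := exists_of_ssubset hQ
      refine ⟨sdiff_subset_sdiff (Subset.refl _) hQ.1, fun h => ?_⟩
      exact (mem_sdiff.1 (h (mem_sdiff.2 ⟨mem_univ x, hx2⟩))).2 hx1
    have := (ih ((univ \ Q).card + (univ \ SR).card) (by omega) hd tl (D \ P) Q SR b rfl
      (hB.mono hQ.1) hR k0 k1).swap
    obtain ⟨T₁, h1, T₂, h2, hd', r1, r2⟩ := this
    refine ⟨T₁, h1.trans sdiff_subset, T₂ ∪ P, union_subset (h2.trans sdiff_subset) hPD,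
      disjoint_union_right.2 ⟨hd', ?_⟩, r1, fun v => ?_⟩
    · exact disjoint_left.2 fun e he heP => (mem_sdiff.1 (h1 he)).2 heP
    · obtain ⟨x, hx, hvx⟩ := r2 v
      obtain ⟨y, hy, hxy⟩ := hreach x hx
      exact ⟨y, hy, (reach_mono tl hd subset_union_left hvx).trans
        (reach_mono tl hd subset_union_right hxy)⟩
  intro tl hd D SR SB a hn hR hB h0 h1
  by_cases hBu : SB = univ
  · by_cases hRu : SR = univ
    · subst hBu hRu
      exact ⟨∅, empty_subset _, ∅, empty_subset _, disjoint_empty_left _,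
        fun v => ⟨v, mem_univ v, ReflTransGen.refl⟩, fun v => ⟨v, mem_univ v, ReflTransGen.refl⟩⟩
    · refine (key hd tl D SB SR a (by omega) hB hR ?_ ?_ hRu).swap
      · intro W a1 a2
        obtain ⟨x, hx⟩ := a1
        exact absurd (hBu ▸ mem_univ x) (disjoint_left.1 a2 hx)
      · intro W a1 a2
        obtain ⟨b1, b2⟩ := h0 W a1 a2
        exact ⟨by omega, fun _ => b1, b2⟩
  · exact key tl hd D SR SB a hn hR hB h0 h1 hBu

theorem thomassen [Fintype V] (tl hd : A → V) (D : Finset A) (s t : V)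
    (hs : ∀ W : Finset V, W.Nonempty → s ∉ W → 3 ≤ din tl hd D W)
    (ht : ∀ U : Finset V, U.Nonempty → t ∉ U → 3 ≤ din hd tl D U) :
    ∃ T₁ ⊆ D, ∃ T₂ ⊆ D, Disjoint T₁ T₂ ∧ (∀ v, ReflTransGen (rel tl hd T₁) s v) ∧
      (∀ v, ReflTransGen (rel tl hd T₂) v t) := by
  obtain ⟨T₁, h1, T₂, h2, hd', r1, r2⟩ := main_ind _ tl hd D {s} {t} s rfl
    (singleton_nonempty s) (singleton_nonempty t)
    (fun W a1 a2 => by
      have := hs W a1 (disjoint_singleton_right.1 a2)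
      exact ⟨by omega, fun _ => this⟩)
    (fun W a1 a2 => by
      have := ht W a1 (disjoint_singleton_right.1 a2)
      exact ⟨by omega, fun _ => by omega, fun _ => this⟩)
  refine ⟨T₁, h1, T₂, h2, hd', fun v => ?_, fun v => ?_⟩
  · obtain ⟨x, hx, h⟩ := r1 v
    rwa [mem_singleton.1 hx] at h
  · obtain ⟨x, hx, h⟩ := r2 v
    rwa [mem_singleton.1 hx] at h

end Pool.Agent.Work.MP_820bad_co.Th
end
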