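import Pool.Agent.Work.MP_820bad_co.Edmonds

set_option autoImplicit false

namespace Pool.Agent.Work.MP_820bad_co

open Finset

variable {V : Type*}

/-- Walks of a given length ending at `w`. -/
def Walk (E : V → V → Prop) (w : V) : ℕ → V → Prop
  | 0, x => x = w
  | n + 1, x => ∃ y, E x y ∧ Walk E w n y

theorem exists_grad (E : V → V → Prop) (w : V) :
    ∃ f : V → ℕ, ∀ x, Relation.ReflTransGen E x w → x ≠ w →
      ∃ y, E x y ∧ Relation.ReflTransGen E y w ∧ f y < f x := by
  have h1 : ∀ x, Relation.ReflTransGen E x w → ∃ n, Walk E w n x := by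
    intro x hx
    induction hx using Relation.ReflTransGen.head_induction_on with
    | refl => exact ⟨0, rfl⟩
    | head hab _ ih =>
      obtain ⟨n, hn⟩ := ih
      exact ⟨n + 1, _, hab, hn⟩
  have h2 : ∀ n x, Walk E w n x → Relation.ReflTransGen E x w := by
    intro n
    induction n with
    | zero => intro x hx; exact (show x = w from hx) ▸ Relation.ReflTransGen.refl
    | succ n ih =>
      rintro x ⟨y, hxy, hy⟩
      exact (ih y hy).head hxy
  refine ⟨fun x => sInf {n | Walk E w n x}, fun x hx hxw => ?_⟩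
  have h3 : sInf {n | Walk E w n x} ∈ {n | Walk E w n x} := Nat.sInf_mem (h1 x hx)
  show ∃ y, E x y ∧ Relation.ReflTransGen E y w ∧
    sInf {n | Walk E w n y} < sInf {n | Walk E w n x}
  generalize sInf {n | Walk E w n x} = m at h3
  cases m with
  | zero => exact absurd h3 hxw
  | succ m =>
    obtain ⟨y, hxy, hy⟩ := h3
    exact ⟨y, hxy, h2 m y hy, Nat.lt_succ_of_le (Nat.sInf_le hy)⟩

theorem exists_path [DecidableEq V] (E : V → V → Prop) (w : V) (f : V → ℕ)
    (hf : ∀ x, Relation.ReflTransGen E x w → x ≠ w →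
      ∃ y, E x y ∧ Relation.ReflTransGen E y w ∧ f y < f x) (k : ℕ) :
    ∀ x, f x < k → Relation.ReflTransGen E x w →
      ∃ (N : Finset V) (P : Finset (V × V)),
        (∀ y ∈ N, Relation.ReflTransGen E y w ∧ f y < f x) ∧
        (∀ a b, (a, b) ∈ P → E a b ∧ b ∈ N ∧ (a = x ∨ a ∈ N)) ∧
        (∀ a b c, (a, c) ∈ P → (b, c) ∈ P → a = b) ∧
        (∀ a b c, (a, b) ∈ P → (a, c) ∈ P → b = c) ∧
        (∀ y ∈ N, Relation.ReflTransGen (fun a b => (a, b) ∈ P) x y) ∧
        (w = x ∨ w ∈ N) := by
  induction k with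
  | zero => intro x hx; omega
  | succ k ih =>
    intro x hx hxw
    by_cases he : x = w
    · exact ⟨∅, ∅, by simp, by simp, by simp, by simp, by simp, Or.inl he.symm⟩
    obtain ⟨y, hxy, hyw, hlt⟩ := hf x hxw he
    obtain ⟨N, P, h1, h2, h3, h4, h5, h6⟩ := ih y (by omega) hyw
    refine ⟨insert y N, insert (x, y) P, ?_, ?_, ?_, ?_, ?_, ?_⟩
    · intro z hz
      rcases mem_insert.1 hz with rfl | hz
      · exact ⟨hyw, hlt⟩
      · exact ⟨(h1 z hz).1, (h1 z hz).2.trans hlt⟩
    · intro a b hab
      rcases mem_insert.1 hab with hab | hab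
      · obtain ⟨rfl, rfl⟩ := Prod.mk.inj hab
        exact ⟨hxy, mem_insert_self _ _, Or.inl rfl⟩
      · obtain ⟨e1, e2, e3⟩ := h2 a b hab
        exact ⟨e1, mem_insert_of_mem e2, Or.inr (mem_insert.2 e3)⟩
    · intro a b c hac hbc
      rcases mem_insert.1 hac with hac | hac <;> rcases mem_insert.1 hbc with hbc | hbc
      · rw [(Prod.mk.inj hac).1, (Prod.mk.inj hbc).1]
      · have := (h1 c (h2 b c hbc).2.1).2
        rw [(Prod.mk.inj hac).2] at this
        omega
      · have := (h1 c (h2 a c hac).2.1).2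
        rw [(Prod.mk.inj hbc).2] at this
        omega
      · exact h3 a b c hac hbc
    · have key : ∀ a b, (a, b) ∈ P → a ≠ x := by
        intro a b hab hax
        rcases (h2 a b hab).2.2 with e | e
        · rw [← e, hax] at hlt
          omega
        · have := (h1 a e).2
          rw [hax] at this
          omega
      intro a b c hab hac
      rcases mem_insert.1 hab with hab | hab <;> rcases mem_insert.1 hac with hac | hac
      · rw [(Prod.mk.inj hab).2, (Prod.mk.inj hac).2]
      · exact absurd (Prod.mk.inj hab).1 (key a c hac)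
      · exact absurd (Prod.mk.inj hac).1 (key a b hab)
      · exact h4 a b c hab hac
    · intro z hz
      have hxy' : Relation.ReflTransGen (fun a b => (a, b) ∈ insert (x, y) P) x y :=
        Relation.ReflTransGen.single (mem_insert_self _ _)
      rcases mem_insert.1 hz with rfl | hz
      · exact hxy'
      · exact hxy'.trans (rtg_mono (fun a b h => mem_insert_of_mem h) (h5 z hz))
    · exact Or.inr (mem_insert.2 h6)

theorem card_le_one_of_fun [DecidableEq V] (P : Finset (V × V)) (v : V)
    (h : ∀ b c, (v, b) ∈ P → (v, c) ∈ P → b = c) : (P.filter (fun a => a.1 = v)).card ≤ 1 := by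
  rw [card_le_one]
  rintro ⟨a, b⟩ h1 ⟨c, d⟩ h2
  simp only [mem_filter] at h1 h2
  obtain ⟨h1, rfl⟩ := h1
  obtain ⟨h2, rfl⟩ := h2
  rw [h b d h1 h2]

/-- An out-tree reaching the set `W` with few branch vertices. -/
theorem exists_tree [DecidableEq V] (E : V → V → Prop) (r : V) (W : Finset V) :
    (∀ w ∈ W, Relation.ReflTransGen E r w) →
    ∃ (A Br : Finset V) (F : Finset (V × V)), r ∈ A ∧ W ⊆ A ∧ Br.card ≤ W.card ∧
      (∀ a b, (a, b) ∈ F → E a b ∧ a ∈ A ∧ b ∈ A) ∧
      (∀ a b c, (a, c) ∈ F → (b, c) ∈ F → a = b) ∧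
      (∀ a, a ∉ Br → ∀ b c, (a, b) ∈ F → (a, c) ∈ F → b = c) ∧
      (∀ v, (F.filter (fun a => a.1 = v)).card ≤ W.card) ∧
      ∀ x ∈ A, Relation.ReflTransGen (fun a b => (a, b) ∈ F) r x := by
  classical
  induction W using Finset.induction_on with
  | empty =>
    intro _
    refine ⟨{r}, ∅, ∅, by simp, by simp, by simp, by simp, by simp, by simp, by simp, ?_⟩
    intro x hx
    rw [mem_singleton.1 hx]
  | insert w W hw ih =>
    intro h
    obtain ⟨A, Br, F, h1, h2, h3, h4, h5, h6, h7, h8⟩ :=
      ih fun x hx => h x (mem_insert_of_mem hx)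
    obtain ⟨f, hf⟩ := exists_grad E w
    obtain ⟨x, hx, hmin⟩ := exists_min_image (A.filter (fun x => Relation.ReflTransGen E x w)) f
      ⟨r, mem_filter.2 ⟨h1, h w (mem_insert_self _ _)⟩⟩
    rw [mem_filter] at hx
    obtain ⟨N, P, p1, p2, p3, p4, p5, p6⟩ := exists_path E w f hf (f x + 1) x (by omega) hx.2
    have hNA : ∀ y ∈ N, y ∉ A := fun y hy hyA => by
      have := hmin y (mem_filter.2 ⟨hyA, (p1 y hy).1⟩)
      have := (p1 y hy).2
      omega
    refine ⟨A ∪ N, insert x Br, F ∪ P, mem_union_left _ h1, ?_, ?_, ?_, ?_, ?_, ?_, ?_⟩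
    · refine insert_subset ?_ (h2.trans subset_union_left)
      rcases p6 with e | e
      · exact mem_union_left _ (e ▸ hx.1)
      · exact mem_union_right _ e
    · rw [card_insert_of_notMem hw]
      exact (card_insert_le _ _).trans (by omega)
    · intro a b hab
      rcases mem_union.1 hab with hab | hab
      · obtain ⟨e1, e2, e3⟩ := h4 a b hab
        exact ⟨e1, mem_union_left _ e2, mem_union_left _ e3⟩
      · obtain ⟨e1, e2, e3⟩ := p2 a b hab
        refine ⟨e1, ?_, mem_union_right _ e2⟩
        rcases e3 with e | e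
        · exact mem_union_left _ (e ▸ hx.1)
        · exact mem_union_right _ e
    · intro a b c hac hbc
      rcases mem_union.1 hac with hac | hac <;> rcases mem_union.1 hbc with hbc | hbc
      · exact h5 a b c hac hbc
      · exact absurd (h4 a c hac).2.2 (hNA c (p2 b c hbc).2.1)
      · exact absurd (h4 b c hbc).2.2 (hNA c (p2 a c hac).2.1)
      · exact p3 a b c hac hbc
    · intro a ha b c hab hac
      rw [mem_insert, not_or] at ha
      have key : ∀ b, (a, b) ∈ P → a ∉ A := fun b hb => by
        rcases (p2 a b hb).2.2 with e | e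
        · exact absurd e ha.1
        · exact hNA a e
      rcases mem_union.1 hab with hab | hab <;> rcases mem_union.1 hac with hac | hac
      · exact h6 a ha.2 b c hab hac
      · exact absurd (h4 a b hab).2.1 (key c hac)
      · exact absurd (h4 a c hac).2.1 (key b hab)
      · exact p4 a b c hab hac
    · intro v
      rw [filter_union, card_insert_of_notMem hw]
      have := card_le_one_of_fun P v (p4 v)
      have := h7 v
      exact (card_union_le _ _).trans (by omega)
    · intro y hy
      rcases mem_union.1 hy with hy | hy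
      · exact rtg_mono (fun a b h => mem_union_left _ h) (h8 y hy)
      · exact (rtg_mono (fun a b h => mem_union_left _ h) (h8 x hx.1)).trans
          (rtg_mono (fun a b h => mem_union_right _ h) (p5 y hy))

end Pool.Agent.Work.MP_820bad_co
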