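import Pool.Agent.Work.MP_820bad_co.Mader

set_option autoImplicit false

namespace Pool.Agent.Work.MP_820bad_co

open Finset

variable {V E : Type*} [DecidableEq V]

theorem od_swap [Fintype V] (tl hd : E → V) (M : Multiset E) (X : Finset V) :
    od hd tl M Xᶜ = od tl hd M X := by
  unfold od
  congr 1
  refine Multiset.map_congr rfl fun e _ => ?_
  simp [ind, and_comm]

theorem od_congr (tl hd : E → V) (T : Finset V) (M : Multiset E)
    (hM : ∀ e ∈ M, tl e ∈ T ∧ hd e ∈ T) (X Y : Finset V) (h : ∀ v ∈ T, v ∈ X ↔ v ∈ Y) :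
    od tl hd M X = od tl hd M Y := by
  unfold od
  congr 1
  refine Multiset.map_congr rfl fun e he => ?_
  simp only [ind, h _ (hM e he).1, h _ (hM e he).2]

theorem sum_out (tl hd : E → V) (M : Multiset E) (Z : Finset V) :
    ∑ v ∈ Z, od tl hd M {v} = (M.map (fun e => if tl e ∈ Z ∧ hd e ≠ tl e then 1 else 0)).sum := by
  induction M using Multiset.induction_on with
  | empty => simp [od]
  | cons e M ih =>
    simp only [od_cons, sum_add_distrib, ih, Multiset.map_cons, Multiset.sum_cons]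
    congr 1
    simp only [ind, mem_singleton]
    by_cases h : tl e ∈ Z
    · rw [sum_eq_single (tl e)]
      · simp [h]
      · intro b _ hb
        simp [hb.symm]
      · exact fun h' => absurd h h'
    · rw [if_neg (fun h' => h h'.1)]
      refine sum_eq_zero fun v hv => ?_
      have : tl e ≠ v := fun h' => h (h' ▸ hv)
      simp [this]

theorem sum_in [Fintype V] (tl hd : E → V) (M : Multiset E) (Z : Finset V) :
    ∑ v ∈ Z, od tl hd M {v}ᶜ =
      (M.map (fun e => if hd e ∈ Z ∧ tl e ≠ hd e then 1 else 0)).sum := by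
  rw [← sum_out hd tl M Z]
  refine sum_congr rfl fun v _ => ?_
  rw [← od_swap tl hd M, compl_compl]

/-- Essential tight sets. -/
def Ess [Fintype V] (tl hd : E → V) (T : Finset V) (r : V) (M : Multiset E) (K : ℕ)
    (Z : Finset V) : Prop :=
  Z ⊆ T.erase r ∧ od tl hd M Zᶜ = K ∧ ∃ v ∈ Z, od tl hd M {v}ᶜ ≠ K

theorem vertex_core [Fintype V] (tl hd : E → V) (T : Finset V) (r : V) (hr : r ∈ T)
    (M : Multiset E) (K : ℕ) (hM : ∀ e ∈ M, tl e ∈ T ∧ hd e ∈ T) (hS : Strong tl hd T M K)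
    (crit : ∀ e ∈ M, ∃ X, od tl hd M X = K ∧ tl e ∈ X ∧ hd e ∉ X)
    (nob : ∀ x ∈ T, od tl hd M {x} = K → od tl hd M {x}ᶜ ≠ K)
    (Z : Finset V) (hZ : Ess tl hd T r M K Z)
    (hmin : ∀ Z', Ess tl hd T r M K Z' ∨ Ess hd tl T r M K Z' → Z.card ≤ Z'.card) : False := by
  obtain ⟨hZ1, hZ2, v0, hv0, hv0'⟩ := hZ
  have hZT : ∀ v ∈ Z, v ∈ T := fun v hv => mem_of_mem_erase (hZ1 hv)
  have hrZ : r ∉ Z := fun h => (mem_erase.1 (hZ1 h)).1 rfl
  have A : ∀ e ∈ M, tl e ∈ Z → hd e ∈ Z → od tl hd M {hd e}ᶜ ≠ K → od tl hd M {tl e} = K := by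
    intro e he h1 h2 h3
    by_contra h4
    obtain ⟨X, hX1, hX2, hX3⟩ := crit e he
    by_cases hw : ∃ w ∈ T, w ∈ X ∧ w ∉ Z
    · obtain ⟨w, hw1, hw2, hw3⟩ := hw
      have a1 := hS (Zᶜ ∩ X) ⟨w, hw1, mem_inter.2 ⟨mem_compl.2 hw3, hw2⟩⟩
        ⟨_, (hM e he).2, fun h => hX3 (mem_inter.1 h).2⟩
      have a2 := hS (Zᶜ ∪ X) ⟨w, hw1, mem_union_right _ hw2⟩
        ⟨_, (hM e he).2, fun h => (mem_union.1 h).elim (fun h => mem_compl.1 h h2) hX3⟩
      have a3 := od_submod tl hd M Zᶜ X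
      have a4 : (Z \ X)ᶜ = Zᶜ ∪ X := by
        ext v
        simp only [mem_compl, mem_sdiff, mem_union, not_and, not_not]
        exact imp_iff_not_or
      have a5 := hmin (Z \ X) (Or.inl ⟨sdiff_subset.trans hZ1, by rw [a4]; omega,
        _, mem_sdiff.2 ⟨h2, hX3⟩, h3⟩)
      have a6 : (Z \ X).card < Z.card :=
        card_lt_card ⟨sdiff_subset, fun h => (mem_sdiff.1 (h h1)).2 hX2⟩
      omega
    · push Not at hw
      have a1 : X ∩ T ⊆ Z := fun v hv => hw v (mem_inter.1 hv).2 (mem_inter.1 hv).1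
      have a2 : od hd tl M (X ∩ T)ᶜ = K := by
        rw [od_swap, ← hX1]
        exact od_congr tl hd T M hM _ _ fun v hv => by simp [hv]
      have a5 := hmin (X ∩ T) (Or.inr ⟨a1.trans hZ1, a2, _, mem_inter.2 ⟨hX2, (hM e he).1⟩,
        by rwa [od_swap]⟩)
      have a6 : (X ∩ T).card < Z.card :=
        card_lt_card ⟨a1, fun h => hX3 (mem_inter.1 (h h2)).1⟩
      omega
  have B : ∀ v ∈ Z, od tl hd M {v}ᶜ ≠ K := by
    let Z' := Z.filter (fun v => od tl hd M {v}ᶜ ≠ K)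
    have hv : v0 ∈ Z' := mem_filter.2 ⟨hv0, hv0'⟩
    have a1 : od tl hd M Z'ᶜ ≤ od tl hd M Zᶜ := by
      refine msum_le _ _ _ fun e he => ?_
      unfold ind
      by_cases h : tl e ∈ Z'ᶜ ∧ hd e ∉ Z'ᶜ
      · have h2 : hd e ∈ Z' := by simpa using h.2
        have h3 : tl e ∉ Z := fun h4 => mem_compl.1 h.1 (mem_filter.2 ⟨h4, nob _ (hZT _ h4)
          (A e he h4 (mem_filter.1 h2).1 (mem_filter.1 h2).2)⟩)
        rw [if_pos h, if_pos ⟨mem_compl.2 h3, fun h4 => mem_compl.1 h4 (mem_filter.1 h2).1⟩]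
      · rw [if_neg h]
        exact Nat.zero_le _
    have a2 := hS Z'ᶜ ⟨r, hr, mem_compl.2 fun h => hrZ (mem_filter.1 h).1⟩
      ⟨v0, hZT _ hv0, fun h => mem_compl.1 h hv⟩
    have a3 := hmin Z' (Or.inl ⟨(filter_subset _ _).trans hZ1, by omega, v0, hv, hv0'⟩)
    have a4 : Z' = Z := eq_of_subset_of_card_le (filter_subset _ _) a3
    intro v hv
    exact (mem_filter.1 (a4 ▸ hv : v ∈ Z')).2
  have C1 : Z.card * (K + 1) ≤ ∑ v ∈ Z, od tl hd M {v}ᶜ := by
    rw [← smul_eq_mul]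
    refine card_nsmul_le_sum _ _ _ fun v hv => ?_
    have := hS {v}ᶜ ⟨r, hr, mem_compl.2 fun h => hrZ (mem_singleton.1 h ▸ hv)⟩
      ⟨v, hZT v hv, by simp⟩
    have := B v hv
    omega
  let Zo := Z.filter (fun v => od tl hd M {v} = K)
  have C2 : ∑ v ∈ Zo, od tl hd M {v} = Zo.card * K := by
    rw [← smul_eq_mul]
    exact sum_eq_card_nsmul fun v hv => (mem_filter.1 hv).2
  have hpos : 0 < Z.card := card_pos.2 ⟨v0, hv0⟩
  by_cases hZo : Zo = Z
  · rw [hZo] at C2
    have a1 := hS Z ⟨v0, hZT _ hv0, hv0⟩ ⟨r, hr, hrZ⟩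
    have a2 : ∑ v ∈ Z, od tl hd M {v}ᶜ + od tl hd M Z ≤
        od tl hd M Zᶜ + ∑ v ∈ Z, od tl hd M {v} := by
      rw [sum_in, sum_out]
      unfold od
      simp only [← Multiset.sum_map_add]
      refine msum_le _ _ _ fun e _ => ?_
      unfold ind
      by_cases b1 : tl e = hd e
      · simp [b1]
      · have b2 : hd e ≠ tl e := fun h => b1 h.symm
        by_cases b3 : tl e ∈ Z <;> by_cases b4 : hd e ∈ Z <;> simp [b1, b2, b3, b4]
    nlinarith
  · have a1 : Zo.card < Z.card := card_lt_card ⟨filter_subset _ _, fun h =>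
      hZo (Subset.antisymm (filter_subset _ _) h)⟩
    have a2 : ∑ v ∈ Z, od tl hd M {v}ᶜ ≤ od tl hd M Zᶜ + ∑ v ∈ Zo, od tl hd M {v} := by
      rw [sum_in, sum_out]
      unfold od
      simp only [← Multiset.sum_map_add]
      refine msum_le _ _ _ fun e he => ?_
      unfold ind
      by_cases b1 : hd e ∈ Z ∧ tl e ≠ hd e
      · by_cases b3 : tl e ∈ Z
        · have b4 : tl e ∈ Zo := mem_filter.2 ⟨b3, A e he b3 b1.1 (B _ b1.1)⟩
          rw [if_pos b1, if_pos (⟨b4, b1.2.symm⟩ : tl e ∈ Zo ∧ hd e ≠ tl e)]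
          omega
        · rw [if_pos b1, if_pos ⟨mem_compl.2 b3, fun h => mem_compl.1 h b1.1⟩]
          omega
      · rw [if_neg b1]
        exact Nat.zero_le _
    nlinarith

/-- A theorem of Mader: a minimally `K`-arc-strong multidigraph has a vertex of in- and
out-degree `K`. -/
theorem exists_vertex [Fintype V] (tl hd : E → V) (T : Finset V) (hT : 1 < T.card)
    (M : Multiset E) (K : ℕ) (hK : 0 < K) (hM : ∀ e ∈ M, tl e ∈ T ∧ hd e ∈ T)
    (hS : Strong tl hd T M K) (hmin : ∀ e M', M = e ::ₘ M' → ¬ Strong tl hd T M' K) :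
    (∀ e ∈ M, tl e ≠ hd e) ∧ ∃ x ∈ T, od tl hd M {x} = K ∧ od tl hd M {x}ᶜ = K := by
  classical
  have crit : ∀ e ∈ M, ∃ X, od tl hd M X = K ∧ tl e ∈ X ∧ hd e ∉ X := by
    intro e he
    obtain ⟨M', rfl⟩ := Multiset.exists_cons_of_mem he
    have h := hmin e M' rfl
    unfold Strong at h
    push Not at h
    obtain ⟨X, h1, h2, h3⟩ := h
    have h4 := hS X h1 h2
    rw [od_cons] at h4
    refine ⟨X, ?_⟩
    rw [od_cons]
    unfold ind at h4 ⊢
    by_cases h5 : tl e ∈ X ∧ hd e ∉ X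
    · rw [if_pos h5] at h4 ⊢
      exact ⟨by omega, h5⟩
    · rw [if_neg h5] at h4
      omega
  have noloop : ∀ e ∈ M, tl e ≠ hd e := fun e he h => by
    obtain ⟨X, _, h1, h2⟩ := crit e he
    exact h2 (h ▸ h1)
  refine ⟨noloop, ?_⟩
  by_contra hcon
  push Not at hcon
  obtain ⟨r, hr⟩ : T.Nonempty := card_pos.1 (by omega)
  have hS' : Strong hd tl T M K := fun X h1 h2 => by
    rw [← compl_compl X, od_swap]
    exact hS _ (by simpa using h2) (by simpa using h1)
  by_cases hE : ∃ Z, Ess tl hd T r M K Z ∨ Ess hd tl T r M K Z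
  · obtain ⟨Z0, hZ0⟩ := hE
    obtain ⟨Z, hZ, hm⟩ := exists_min_image
      (univ.filter (fun Z => Ess tl hd T r M K Z ∨ Ess hd tl T r M K Z)) card
      ⟨Z0, mem_filter.2 ⟨mem_univ _, hZ0⟩⟩
    have hm' : ∀ Z', Ess tl hd T r M K Z' ∨ Ess hd tl T r M K Z' → Z.card ≤ Z'.card :=
      fun Z' h => hm Z' (mem_filter.2 ⟨mem_univ _, h⟩)
    rcases (mem_filter.1 hZ).2 with h | h
    · exact vertex_core tl hd T r hr M K hM hS crit hcon Z h hm'
    · refine vertex_core hd tl T r hr M K (fun e he => (hM e he).symm) hS' (fun e he => ?_)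
        (fun x hx h1 h2 => ?_) Z h (fun Z' h => hm' Z' h.symm)
      · obtain ⟨X, h1, h2, h3⟩ := crit e he
        exact ⟨Xᶜ, by rwa [od_swap], mem_compl.2 h3, fun h => mem_compl.1 h h2⟩
      · rw [od_swap] at h2
        rw [← od_swap hd tl] at h1
        exact hcon x hx h2 h1
  · push Not at hE
    have A : ∀ e ∈ M, od tl hd M {hd e}ᶜ ≠ K → od tl hd M {tl e} = K := by
      intro e he h1
      by_contra h2
      obtain ⟨X, hX1, hX2, hX3⟩ := crit e he
      by_cases hrX : r ∈ X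
      · refine (hE (T \ X)).1 ⟨fun v hv => mem_erase.2 ⟨?_, (mem_sdiff.1 hv).1⟩, ?_, _,
          mem_sdiff.2 ⟨(hM e he).2, hX3⟩, h1⟩
        · rintro rfl
          exact (mem_sdiff.1 hv).2 hrX
        · rw [← hX1]
          exact od_congr tl hd T M hM _ _ fun v hv => by simp [hv]
      · refine (hE (X ∩ T)).2 ⟨fun v hv => mem_erase.2 ⟨?_, (mem_inter.1 hv).2⟩, ?_, _,
          mem_inter.2 ⟨hX2, (hM e he).1⟩, by rwa [od_swap]⟩
        · rintro rfl
          exact hrX (mem_inter.1 hv).1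
        · rw [od_swap, ← hX1]
          exact od_congr tl hd T M hM _ _ fun v hv => by simp [hv]
    have dO : ∀ v ∈ T, K ≤ od tl hd M {v} := fun v hv => by
      obtain ⟨w, hw, hwv⟩ := exists_mem_ne hT v
      exact hS _ ⟨v, hv, by simp⟩ ⟨w, hw, by simpa using hwv⟩
    have dI : ∀ v ∈ T, K ≤ od tl hd M {v}ᶜ := fun v hv => by
      obtain ⟨w, hw, hwv⟩ := exists_mem_ne hT v
      exact hS _ ⟨w, hw, by simpa using hwv⟩ ⟨v, hv, by simp⟩
    have tot : ∑ v ∈ T, od tl hd M {v}ᶜ = ∑ v ∈ T, od tl hd M {v} := by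
      rw [sum_in, sum_out]
      congr 1
      refine Multiset.map_congr rfl fun e he => ?_
      simp [(hM e he).1, (hM e he).2, noloop e he, (noloop e he).symm]
    let Z := T.filter (fun v => od tl hd M {v}ᶜ ≠ K)
    have hZ0 : od tl hd M Zᶜ = 0 := by
      refine Multiset.sum_eq_zero fun n hn => ?_
      obtain ⟨e, he, rfl⟩ := Multiset.mem_map.1 hn
      refine if_neg fun h => mem_compl.1 h.1 ?_
      have h2 : hd e ∈ Z := by simpa using h.2
      exact mem_filter.2 ⟨(hM e he).1, hcon _ (hM e he).1 (A e he (mem_filter.1 h2).2)⟩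
    by_cases hZ : ∃ v ∈ T, v ∈ Z
    · have hZT : ∀ v ∈ T, v ∈ Z := by
        by_contra h
        push Not at h
        obtain ⟨w, hw, hw'⟩ := h
        obtain ⟨v, hv, hv'⟩ := hZ
        have := hS Zᶜ ⟨w, hw, mem_compl.2 hw'⟩ ⟨v, hv, fun h => mem_compl.1 h hv'⟩
        omega
      have a1 : ∑ v ∈ T, od tl hd M {v} < ∑ v ∈ T, od tl hd M {v}ᶜ := by
        refine sum_lt_sum_of_nonempty ⟨r, hr⟩ fun v hv => ?_
        have b1 := dI v hv
        have b2 := (mem_filter.1 (hZT v hv)).2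
        have b3 := dO v hv
        have b4 : od tl hd M {v} = K := by
          by_contra b5
          have : od tl hd M {v} = 0 := by
            refine Multiset.sum_eq_zero fun n hn => ?_
            obtain ⟨e, he, rfl⟩ := Multiset.mem_map.1 hn
            refine if_neg fun h => b5 ?_
            rw [← mem_singleton.1 h.1]
            exact A e he (mem_filter.1 (hZT _ (hM e he).2)).2
          omega
        omega
      omega
    · push Not at hZ
      have a1 : ∑ v ∈ T, od tl hd M {v}ᶜ < ∑ v ∈ T, od tl hd M {v} := by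
        refine sum_lt_sum_of_nonempty ⟨r, hr⟩ fun v hv => ?_
        have b1 : od tl hd M {v}ᶜ = K := by
          by_contra h
          exact hZ v hv (mem_filter.2 ⟨hv, h⟩)
        have b2 := hcon v hv
        have b3 := dO v hv
        omega
      omega

end Pool.Agent.Work.MP_820bad_co
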