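import Pool.Agent.Work.MP_820bad_co.Vertex
import Pool.Agent.Work.MP_820bad_co.Edmonds

set_option autoImplicit false

namespace Pool.Agent.Work.MP_820bad_co

open Finset

variable {V C : Type*}

/-- The arcs of the walk from `a` through `l` to `b`. -/
def arcs : V → List V → V → Multiset (V × V)
  | a, [], b => {(a, b)}
  | a, y :: l, b => (a, y) ::ₘ arcs y l b

theorem arcs_append (l1 : List V) (v : V) (l2 : List V) (b : V) :
    ∀ a, arcs a (l1 ++ v :: l2) b = arcs a l1 v + arcs v l2 b := by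
  induction l1 with
  | nil => intro a; simp [arcs]
  | cons y l ih => intro a; simp [arcs, ih]

theorem arcs_reach (R : V → V → Prop) (l : List V) (b : V) :
    ∀ a, (∀ u v, (u, v) ∈ arcs a l b → R u v) → Relation.ReflTransGen R a b ∧
      ∀ y ∈ l, Relation.ReflTransGen R a y ∧ Relation.ReflTransGen R y b := by
  induction l with
  | nil =>
    intro a h
    exact ⟨Relation.ReflTransGen.single (h a b (by simp [arcs])), by simp⟩
  | cons z l ih =>
    intro a h
    have h1 : R a z := h a z (by simp [arcs])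
    obtain ⟨h2, h3⟩ := ih z (fun u v huv => h u v (by simp [arcs, huv]))
    refine ⟨h2.head h1, fun y hy => ?_⟩
    rcases List.mem_cons.1 hy with rfl | hy
    · exact ⟨Relation.ReflTransGen.single h1, h2⟩
    · exact ⟨(h3 y hy).1.head h1, (h3 y hy).2⟩

/-- All arcs of a family of walks. -/
def tot (A : Multiset (V × List V × V)) : Multiset (V × V) :=
  (A.map (fun e => arcs e.1 e.2.1 e.2.2)).sum

theorem tot_cons (e : V × List V × V) (A : Multiset (V × List V × V)) :
    tot (e ::ₘ A) = arcs e.1 e.2.1 e.2.2 + tot A := by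
  simp [tot]

/-- Number of walks passing through `y`. -/
def pass [DecidableEq V] (A : Multiset (V × List V × V)) (y : V) : ℕ :=
  (A.map (fun e => if y ∈ e.2.1 then 1 else 0)).sum

theorem pass_cons [DecidableEq V] (e : V × List V × V) (A : Multiset (V × List V × V)) (y : V) :
    pass (e ::ₘ A) y = (if y ∈ e.2.1 then 1 else 0) + pass A y := by
  simp [pass]

/-- The conclusion carried through the induction. -/
def Concl [DecidableEq V] [Fintype C] (T : Finset V) (M : Multiset (V × V))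
    (Need : Finset (V × C)) : Prop :=
  ∃ B : C → Multiset (V × V), ∑ c, B c ≤ M ∧
    (∀ c, ∀ u ∈ T, ∀ v ∈ T, Relation.ReflTransGen (fun a b => (a, b) ∈ B c) u v) ∧
    ∀ p ∈ Need, (∃ u ∈ T, Relation.ReflTransGen (fun a b => (a, b) ∈ B p.2) u p.1) ∧
      ∃ v ∈ T, Relation.ReflTransGen (fun a b => (a, b) ∈ B p.2) p.1 v

theorem Concl.fin [DecidableEq V] [Fintype C] [DecidableEq C] {T : Finset V}
    {M : Multiset (V × V)} {Need : Finset (V × C)} (a : V) (l : List V) (b : V) (c : C)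
    (ha : a ∈ T) (hb : b ∈ T)
    (h : Concl T M (Need.filter (fun p => ¬ (p.1 ∈ l ∧ p.2 = c)))) :
    Concl T (arcs a l b + M) Need := by
  obtain ⟨B, h1, h2, h3⟩ := h
  have mono : ∀ d u v, Relation.ReflTransGen (fun a b => (a, b) ∈ B d) u v →
      Relation.ReflTransGen
        (fun x y => (x, y) ∈ (if d = c then arcs a l b else 0) + B d) u v :=
    fun d u v h => rtg_mono (fun x y h => Multiset.mem_add.2 (Or.inr h)) h
  refine ⟨fun d => (if d = c then arcs a l b else 0) + B d, ?_,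
    fun d u hu v hv => mono d u v (h2 d u hu v hv), fun p hp => ?_⟩
  · rw [sum_add_distrib, sum_ite_eq' univ c, if_pos (mem_univ _)]
    exact add_le_add le_rfl h1
  · by_cases hc : p.1 ∈ l ∧ p.2 = c
    · obtain ⟨_, h5⟩ := arcs_reach
        (fun x y => (x, y) ∈ (if p.2 = c then arcs a l b else 0) + B p.2) l b a
        (fun u v h => by
          rw [if_pos hc.2]
          exact Multiset.mem_add.2 (Or.inl h))
      exact ⟨⟨a, ha, (h5 _ hc.1).1⟩, ⟨b, hb, (h5 _ hc.1).2⟩⟩
    · obtain ⟨⟨u, hu, h5⟩, ⟨v, hv, h6⟩⟩ := h3 p (mem_filter.2 ⟨hp, hc⟩)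
      exact ⟨⟨u, hu, mono _ _ _ h5⟩, ⟨v, hv, mono _ _ _ h6⟩⟩

theorem Concl.ins [DecidableEq V] [Fintype C] [DecidableEq C] {N : Finset V}
    {M : Multiset (V × V)} {Need : Finset (V × C)} (x : V)
    (h : Concl N M (Need ∪ univ.image (fun c : C => (x, c)))) : Concl (insert x N) M Need := by
  obtain ⟨B, h1, h2, h3⟩ := h
  refine ⟨B, h1, fun c u hu v hv => ?_, fun p hp => ?_⟩
  · obtain ⟨⟨s, hs, h4⟩, ⟨t, ht, h5⟩⟩ := h3 (x, c)
      (mem_union_right _ (mem_image.2 ⟨c, mem_univ _, rfl⟩))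
    rcases mem_insert.1 hu with hu' | hu' <;> rcases mem_insert.1 hv with hv' | hv'
    · rw [hu', hv']
    · rw [hu']
      exact h5.trans (h2 c t ht v hv')
    · rw [hv']
      exact (h2 c u hu' s hs).trans h4
    · exact h2 c u hu' v hv'
  · obtain ⟨⟨s, hs, h4⟩, ⟨t, ht, h5⟩⟩ := h3 p (mem_union_left _ hp)
    exact ⟨⟨s, mem_insert_of_mem hs, h4⟩, ⟨t, mem_insert_of_mem ht, h5⟩⟩

/-- Averaging over the colour given to a finished walk. -/
theorem exists_colour [DecidableEq V] [Fintype C] [DecidableEq C] [Nonempty C]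
    (Need : Finset (V × C)) (l : List V) (f : V → ℝ) :
    ∃ c : C, ∑ p ∈ Need.filter (fun p => ¬ (p.1 ∈ l ∧ p.2 = c)), f p.1 ≤
      ∑ p ∈ Need, f p.1 * (if p.1 ∈ l then 1 - 1 / (Fintype.card C : ℝ) else 1) := by
  have hk : (0 : ℝ) < Fintype.card C := by exact_mod_cast Fintype.card_pos
  obtain ⟨c, _, hc⟩ := exists_le_of_sum_le (s := (univ : Finset C)) univ_nonempty
    (f := fun c => ∑ p ∈ Need.filter (fun p => ¬ (p.1 ∈ l ∧ p.2 = c)), f p.1)
    (g := fun _ => ∑ p ∈ Need, f p.1 * (if p.1 ∈ l then 1 - 1 / (Fintype.card C : ℝ) else 1))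
    (le_of_eq (by
      simp only [sum_filter]
      rw [sum_comm, sum_const, card_univ, nsmul_eq_mul, mul_sum]
      refine sum_congr rfl fun p _ => ?_
      by_cases h : p.1 ∈ l
      · have : ∀ c : C, (if ¬ (p.1 ∈ l ∧ p.2 = c) then f p.1 else 0) =
            f p.1 - if p.2 = c then f p.1 else 0 := fun c => by
          by_cases h' : p.2 = c <;> simp [h, h']
        simp only [this, sum_sub_distrib, sum_ite_eq, mem_univ, if_true, sum_const, card_univ,
          nsmul_eq_mul, if_pos h]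
        field_simp
      · simp [h]))
  exact ⟨c, hc⟩

theorem exists_first (p : V → Prop) (l : List V) (h : ∃ y ∈ l, p y) :
    ∃ l1 v l2, l = l1 ++ v :: l2 ∧ p v ∧ ∀ y ∈ l1, ¬ p y := by
  induction l with
  | nil => simp at h
  | cons z l ih =>
    by_cases hz : p z
    · exact ⟨[], z, l, rfl, hz, by simp⟩
    · obtain ⟨y, hy, hp⟩ := h
      obtain ⟨l1, v, l2, rfl, h1, h2⟩ := ih ⟨y, (List.mem_cons.1 hy).resolve_left
        (fun e => hz (e ▸ hp)), hp⟩
      refine ⟨z :: l1, v, l2, rfl, h1, fun y hy => ?_⟩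
      rcases List.mem_cons.1 hy with rfl | hy
      · exact hz
      · exact h2 y hy

end Pool.Agent.Work.MP_820bad_co
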